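import Pool.Agent.DBK.Defs

/-! # DBK: acyclic sets -/

namespace Pool.Agent.DBK

open Finset
open scoped Classical

variable {V : Type*} {A : V → V → Prop}

theorem acy_mono {S T : Set V} (h : AcyclicOn A T) (hST : S ⊆ T) : AcyclicOn A S := by
  intro v hv
  exact h v (Relation.TransGen.mono (fun x y hxy => ⟨hST hxy.1, hST hxy.2.1, hxy.2.2⟩) _ _ hv)

theorem acy_empty : AcyclicOn A (∅ : Set V) := by
  intro v hv
  obtain ⟨w, hw, _⟩ := Relation.TransGen.head'_iff.1 hv
  exact absurd hw.1 (by simp)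

/-- A walk inside `S ∪ T` which starts in `T` stays in `T` if there is no arc from `T` to `S`. -/
theorem acy_union {S T : Set V} (hS : AcyclicOn A S) (hT : AcyclicOn A T)
    (h : ∀ x ∈ T, ∀ y ∈ S, ¬ A x y) : AcyclicOn A (S ∪ T) := by
  intro v hv
  have key : ∀ x y, Relation.TransGen (fun x y => x ∈ S ∪ T ∧ y ∈ S ∪ T ∧ A x y) x y →
      (x ∈ T → y ∈ T ∧ Relation.TransGen (fun x y => x ∈ T ∧ y ∈ T ∧ A x y) x y) := by
    intro x y hxy
    induction hxy with
    | single h1 =>
      intro hx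
      rcases h1.2.1 with hy | hy
      · exact absurd h1.2.2 (h _ hx _ hy)
      · exact ⟨hy, Relation.TransGen.single ⟨hx, hy, h1.2.2⟩⟩
    | tail _ h1 ih =>
      intro hx
      obtain ⟨hb, hw⟩ := ih hx
      rcases h1.2.1 with hy | hy
      · exact absurd h1.2.2 (h _ hb _ hy)
      · exact ⟨hy, hw.tail ⟨hb, hy, h1.2.2⟩⟩
  have key2 : ∀ x y, Relation.TransGen (fun x y => x ∈ S ∪ T ∧ y ∈ S ∪ T ∧ A x y) x y →
      y ∉ T → Relation.TransGen (fun x y => x ∈ S ∧ y ∈ S ∧ A x y) x y := by
    intro x y hxy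
    induction hxy with
    | single h1 =>
      intro hy
      have hyS : _ ∈ S := h1.2.1.resolve_right hy
      rcases h1.1 with hx | hx
      · exact Relation.TransGen.single ⟨hx, hyS, h1.2.2⟩
      · exact absurd h1.2.2 (h _ hx _ hyS)
    | @tail b' c' _ h1 ih =>
      intro hy
      have hyS : c' ∈ S := h1.2.1.resolve_right hy
      have hb : b' ∉ T := fun hb => h b' hb c' hyS h1.2.2
      exact (ih hb).tail ⟨h1.1.resolve_right hb, hyS, h1.2.2⟩
  by_cases hvT : v ∈ T
  · exact hT v (key v v hv hvT).2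
  · exact hS v (key2 v v hv hvT)

theorem acy_singleton {x : V} (hx : ¬ A x x) : AcyclicOn A {x} := by
  intro v hv
  obtain ⟨w, hw, _⟩ := Relation.TransGen.head'_iff.1 hv
  have h1 : v = x := hw.1
  have h2 : w = x := hw.2.1
  rw [h1, h2] at hw
  exact hx hw.2.2

/-- adding a sink -/
theorem acy_insert_sink {S : Set V} {x : V} (hS : AcyclicOn A S) (hx : ¬ A x x)
    (h : ∀ y ∈ S, ¬ A x y) : AcyclicOn A (insert x S) := by
  have := acy_union (S := S) (T := {x}) hS (acy_singleton hx) (by
    intro u hu y hy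
    rw [Set.mem_singleton_iff.1 hu]
    exact h y hy)
  rwa [Set.union_singleton] at this

/-- adding a source -/
theorem acy_insert_source {S : Set V} {x : V} (hS : AcyclicOn A S) (hx : ¬ A x x)
    (h : ∀ y ∈ S, ¬ A y x) : AcyclicOn A (insert x S) := by
  have := acy_union (S := {x}) (T := S) (acy_singleton hx) hS (by
    intro u hu y hy
    rw [Set.mem_singleton_iff.1 hy]
    exact h u hu)
  rwa [Set.singleton_union] at this

theorem exists_out {S : Set V} {x : V} (hS : AcyclicOn A S) (hx : ¬ A x x)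
    (h : ¬ AcyclicOn A (insert x S)) : ∃ y ∈ S, A x y := by
  by_contra hc
  push Not at hc
  exact h (acy_insert_sink hS hx hc)

theorem exists_in {S : Set V} {x : V} (hS : AcyclicOn A S) (hx : ¬ A x x)
    (h : ¬ AcyclicOn A (insert x S)) : ∃ y ∈ S, A y x := by
  by_contra hc
  push Not at hc
  exact h (acy_insert_source hS hx hc)

end Pool.Agent.DBK
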