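import Pool.Agent.DBK.PairCount

/-! # DBK: an optimal state with few unjoined pairs

For a state `s` let `U s` be the number on the left, `M s` the number of clean parts, `β s ≤ b` the number of
unclean parts. Sum `pairCount` over all ordered pairs `i ≠ j`: `2 ∑_s U s ≤ ∑_s 2 β s M s` (both double sums are exchanged; the
ordered pairs with exactly one clean part are `2 β s M s`). So some `s ∈ O` has `U s ≤ β s M s ≤ b M s` (`hS.bad`).
-/

namespace Pool.Agent.DBK

open Finset
open scoped Classical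

variable {V : Type*} [Fintype V] {m : ℕ} {A : V → V → Prop}

theorem average_swap {α ι : Type*} [Fintype ι] (O : Finset α) (Q : ι → Prop) (R : α → ι → Prop) :
    ∑ s ∈ O, ((univ : Finset ι).filter (fun p => Q p ∧ R s p)).card =
      ∑ p ∈ (univ : Finset ι).filter Q, (O.filter (fun s => R s p)).card := by
  have h := Finset.sum_card_bipartiteAbove_eq_sum_card_bipartiteBelow (s := O)
    (t := (univ : Finset ι).filter Q) (r := fun s p => R s p)
  have h1 : ∀ s ∈ O, ((univ : Finset ι).filter (fun p => Q p ∧ R s p)).card =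
      (Finset.bipartiteAbove (fun s p => R s p) ((univ : Finset ι).filter Q) s).card := by
    intro s _
    congr 1
    ext p
    simp [Finset.bipartiteAbove, Finset.mem_filter]
  rw [Finset.sum_congr rfl h1, h]
  refine Finset.sum_congr rfl (fun p _ => ?_)
  congr 1

theorem average_one {ι : Type*} [Fintype ι] (C : ι → Prop) :
    ((univ : Finset (ι × ι)).filter (fun p => p.1 ≠ p.2 ∧ (C p.1 ∧ ¬ C p.2))).card =
      (univ.filter (fun j => C j)).card * (univ.filter (fun j => ¬ C j)).card := by
  rw [← Finset.card_product]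
  congr 1
  ext p
  simp only [Finset.mem_filter, Finset.mem_univ, true_and, Finset.mem_product]
  constructor
  · rintro ⟨_, h⟩
    exact h
  · intro h
    refine ⟨fun he => h.2 ?_, h⟩
    rw [← he]; exact h.1

theorem average_two {ι : Type*} [Fintype ι] (C : ι → Prop) :
    ((univ : Finset (ι × ι)).filter (fun p => p.1 ≠ p.2 ∧ (¬ C p.1 ∧ C p.2))).card =
      (univ.filter (fun j => C j)).card * (univ.filter (fun j => ¬ C j)).card := by
  rw [mul_comm, ← Finset.card_product]
  congr 1
  ext p
  simp only [Finset.mem_filter, Finset.mem_univ, true_and, Finset.mem_product]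
  constructor
  · rintro ⟨_, h⟩
    exact h
  · intro h
    refine ⟨fun he => h.1 ?_, h⟩
    rw [he]; exact h.2

theorem average {b : ℕ} {O : Finset (St V m)} (hS : Sys A m b O) (hO : O.Nonempty) :
    ∃ s ∈ O, ((univ : Finset (Fin m × Fin m)).filter (fun p => p.1 ≠ p.2 ∧ Clean A s p.1 ∧
      Clean A s p.2 ∧ ¬ Joined A s p.1 p.2)).card ≤
        b * (univ.filter (fun j => Clean A s j)).card := by
  by_contra hcon
  push Not at hcon
  have h1 : ∑ s ∈ O, ((univ : Finset (Fin m × Fin m)).filter (fun p => p.1 ≠ p.2 ∧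
      Clean A s p.1 ∧ Clean A s p.2 ∧ ¬ Joined A s p.1 p.2)).card =
      ∑ p ∈ (univ : Finset (Fin m × Fin m)).filter (fun p => p.1 ≠ p.2),
      (O.filter (fun s => Clean A s p.1 ∧ Clean A s p.2 ∧ ¬ Joined A s p.1 p.2)).card := by
    convert average_swap (ι := Fin m × Fin m) O (fun p => p.1 ≠ p.2)
      (fun s p => Clean A s p.1 ∧ Clean A s p.2 ∧ ¬ Joined A s p.1 p.2)
  have h2 : ∑ s ∈ O, ((univ : Finset (Fin m × Fin m)).filter (fun p => p.1 ≠ p.2 ∧
      (Clean A s p.1 ∧ ¬ Clean A s p.2))).card =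
      ∑ p ∈ (univ : Finset (Fin m × Fin m)).filter (fun p => p.1 ≠ p.2),
      (O.filter (fun s => Clean A s p.1 ∧ ¬ Clean A s p.2)).card := by
    convert average_swap (ι := Fin m × Fin m) O (fun p => p.1 ≠ p.2)
      (fun s p => Clean A s p.1 ∧ ¬ Clean A s p.2)
  have h3 : ∑ s ∈ O, ((univ : Finset (Fin m × Fin m)).filter (fun p => p.1 ≠ p.2 ∧
      (¬ Clean A s p.1 ∧ Clean A s p.2))).card =
      ∑ p ∈ (univ : Finset (Fin m × Fin m)).filter (fun p => p.1 ≠ p.2),
      (O.filter (fun s => ¬ Clean A s p.1 ∧ Clean A s p.2)).card := by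
    convert average_swap (ι := Fin m × Fin m) O (fun p => p.1 ≠ p.2)
      (fun s p => ¬ Clean A s p.1 ∧ Clean A s p.2)
  have h4 : 2 * ∑ p ∈ (univ : Finset (Fin m × Fin m)).filter (fun p => p.1 ≠ p.2),
      (O.filter (fun s => Clean A s p.1 ∧ Clean A s p.2 ∧ ¬ Joined A s p.1 p.2)).card ≤
      ∑ p ∈ (univ : Finset (Fin m × Fin m)).filter (fun p => p.1 ≠ p.2),
        (O.filter (fun s => Clean A s p.1 ∧ ¬ Clean A s p.2)).card +
      ∑ p ∈ (univ : Finset (Fin m × Fin m)).filter (fun p => p.1 ≠ p.2),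
        (O.filter (fun s => ¬ Clean A s p.1 ∧ Clean A s p.2)).card := by
    rw [Finset.mul_sum, ← Finset.sum_add_distrib]
    refine Finset.sum_le_sum (fun p hp => ?_)
    exact pairCount hS (Finset.mem_filter.mp hp).2
  rw [← h1, ← h2, ← h3] at h4
  have h5 : ∀ s ∈ O, ((univ : Finset (Fin m × Fin m)).filter
      (fun p => p.1 ≠ p.2 ∧ (Clean A s p.1 ∧ ¬ Clean A s p.2))).card ≤
      b * (univ.filter (fun j => Clean A s j)).card := by
    intro s hs
    have h := average_one (ι := Fin m) (fun j => Clean A s j)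
    rw [mul_comm b]
    refine le_trans (le_of_eq ?_) (Nat.mul_le_mul_left _ (hS.bad s hs))
    convert h
  have h6 : ∀ s ∈ O, ((univ : Finset (Fin m × Fin m)).filter
      (fun p => p.1 ≠ p.2 ∧ (¬ Clean A s p.1 ∧ Clean A s p.2))).card ≤
      b * (univ.filter (fun j => Clean A s j)).card := by
    intro s hs
    have h := average_two (ι := Fin m) (fun j => Clean A s j)
    rw [mul_comm b]
    refine le_trans (le_of_eq ?_) (Nat.mul_le_mul_left _ (hS.bad s hs))
    convert h
  have h7 := Finset.sum_le_sum h5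
  have h8 := Finset.sum_le_sum h6
  have h9 := Finset.sum_lt_sum_of_nonempty hO hcon
  omega

end Pool.Agent.DBK
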