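import Pool.Agent.DBK.KemA

/-! # DBK: two Kempe chains meet only at the neighbour of the token

`v ∈ R`, `v ≠ x`, and `φ v ∈ {i, j} ∩ {i, k}`, so `φ v = i`. `v` is reachable from `x` (through `y`) inside the colours `i`, `j`,
and inside the colours `i`, `k`; by `kemA` it has at most one out-neighbour of colour `k` and at most one of colour
`j` (other than `x`). It has no out-neighbour `u ≠ x` in `R` of colour `i` (by `hb` this would be a digon in a class).
Since it has three out-neighbours in `R` (`hR.out3`), one of them is `x`. So `A x v` by `hb`, and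
`tok_out_inj` gives `v = y`.
-/

namespace Pool.Agent.DBK

open Finset
open scoped Classical

variable {V : Type*} {A : V → V → Prop}

theorem kemC_reach {R : Finset V} {x : V} {φ : V → ℕ} {i j : ℕ} {y v : V} (hy : y ∈ R)
    (hxy : A x y) (ey : φ y = i) (h1 : Relation.ReflTransGen (Kr A R x φ i j) y v) :
    Relation.ReflTransGen (fun a b => A a b ∧ b ∈ R ∧ (b = x ∨ φ b = i ∨ φ b = j)) x v := by
  refine Relation.ReflTransGen.head ⟨hxy, hy, Or.inr (Or.inl ey)⟩ ?_
  exact Relation.ReflTransGen.mono (fun a b hab => ⟨hab.1, hab.2.2.1, Or.inr hab.2.2.2.2⟩) _ _ h1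

/-- no digon inside a colour class -/
theorem tok_no_digon {R : Finset V} {x : V} {φ : V → ℕ} (h : Tok A R x φ) {u v : V} (hu : u ∈ R)
    (hv : v ∈ R) (hux : u ≠ x) (hvx : v ≠ x) (e : φ u = φ v) (h1 : A u v) (h2 : A v u) :
    False := by
  have h3 := h.2.2 (φ v) u
  apply h3
  exact (Relation.TransGen.single (b := v) ⟨⟨hu, hux, e⟩, ⟨hv, hvx, rfl⟩, h1⟩).tail
    ⟨⟨hv, hvx, rfl⟩, ⟨hu, hux, e⟩, h2⟩

theorem kemC {R : Finset V} (hR : Crit3 A R) (hb : ∀ u ∈ R, ∀ v ∈ R, A u v → A v u) {x : V}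
    {φ : V → ℕ} (h : Tok A R x φ) {i j k : ℕ} (hi : i < 3) (hj : j < 3) (hk : k < 3)
    (hij : i ≠ j) (hik : i ≠ k) (hjk : j ≠ k) {y v : V} (hy : y ∈ R) (hxy : A x y)
    (ey : φ y = i) (h1 : Relation.ReflTransGen (Kr A R x φ i j) y v)
    (h2 : Relation.ReflTransGen (Kr A R x φ i k) y v) : v = y := by
  rcases Relation.ReflTransGen.cases_tail h1 with h3 | ⟨w, _, hw⟩
  · exact h3.symm ▸ rfl
  rcases Relation.ReflTransGen.cases_tail h2 with h3 | ⟨w', _, hw'⟩
  · exact h3.symm ▸ rfl
  obtain ⟨_, _, hvR, hvx, hc⟩ := hw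
  obtain ⟨_, _, _, _, hc'⟩ := hw'
  have ev : φ v = i := by omega
  have k1 := (kemA hR h hk hik.symm hjk.symm (kemC_reach hy hxy ey h1)).2
  have k2 := (kemA hR h hj hij.symm hjk (kemC_reach hy hxy ey h2)).2
  have hvx' : A v x := by
    by_contra hn
    have hcard := hR.out3 v hvR
    unfold outd at hcard
    have hsub : R.filter (fun u => A v u) ⊆
        (R.filter (fun u => A v u ∧ φ u = j)) ∪ (R.filter (fun u => A v u ∧ φ u = k)) := by
      intro u hu
      rw [mem_filter] at hu
      have hux : u ≠ x := by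
        rintro rfl
        exact hn hu.2
      have hlt := h.2.1 u hu.1 hux
      have hui : φ u ≠ i := by
        intro e
        exact tok_no_digon h hvR hu.1 hvx hux (ev.trans e.symm) hu.2 (hb v hvR u hu.1 hu.2)
      rw [mem_union, mem_filter, mem_filter]
      have : φ u = j ∨ φ u = k := by omega
      rcases this with e | e
      · exact Or.inl ⟨hu.1, hu.2, e⟩
      · exact Or.inr ⟨hu.1, hu.2, e⟩
    have hne : ∀ u, A v u → u ≠ x := by
      rintro u hu rfl
      exact hn hu
    have c1 : (R.filter (fun u => A v u ∧ φ u = j)).card ≤ 1 := by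
      rw [card_le_one]
      intro a ha b hb'
      rw [mem_filter] at ha hb'
      exact k2 a ha.1 b hb'.1 (hne a ha.2.1) (hne b hb'.2.1) ha.2.1 hb'.2.1 ha.2.2 hb'.2.2
    have c2 : (R.filter (fun u => A v u ∧ φ u = k)).card ≤ 1 := by
      rw [card_le_one]
      intro a ha b hb'
      rw [mem_filter] at ha hb'
      exact k1 a ha.1 b hb'.1 (hne a ha.2.1) (hne b hb'.2.1) ha.2.1 hb'.2.1 ha.2.2 hb'.2.2
    have c3 := card_le_card hsub
    have c4 := card_union_le (R.filter (fun u => A v u ∧ φ u = j))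
      (R.filter (fun u => A v u ∧ φ u = k))
    omega
  exact tok_out_inj hR h hvR hy (hb v hvR x h.1 hvx') hxy (ev.trans ey.symm)

end Pool.Agent.DBK
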