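import Pool.Agent.DBK.Defs

/-! # DBK: walks as sequences

-/

namespace Pool.Agent.DBK

open Finset
open scoped Classical

theorem seq_of_rtg {α : Type*} {r : α → α → Prop} {a b : α} (h : Relation.ReflTransGen r a b) :
    ∃ (n : ℕ) (w : ℕ → α), w 0 = a ∧ w n = b ∧ ∀ t < n, r (w t) (w (t + 1)) := by
  induction h with
  | refl => exact ⟨0, fun _ => a, rfl, rfl, fun t ht => absurd ht (Nat.not_lt_zero t)⟩
  | @tail b c _ hbc ih =>
    obtain ⟨n, w, h0, hn, hw⟩ := ih
    refine ⟨n + 1, fun t => if t ≤ n then w t else c, by simpa using h0, by simp, ?_⟩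
    intro t ht
    rcases Nat.lt_succ_iff_lt_or_eq.1 ht with h1 | h1
    · have h2 : t ≤ n := h1.le
      have h3 : t + 1 ≤ n := h1
      simp only [h2, h3, if_true]
      exact hw t h1
    · subst h1
      simp only [le_refl, if_true, Nat.not_succ_le_self, if_false]
      rw [hn]; exact hbc

theorem seq_of_tg {α : Type*} {r : α → α → Prop} {a b : α} (h : Relation.TransGen r a b) :
    ∃ (n : ℕ) (w : ℕ → α), 1 ≤ n ∧ w 0 = a ∧ w n = b ∧ ∀ t < n, r (w t) (w (t + 1)) := by
  obtain ⟨c, hac, hcb⟩ := Relation.TransGen.head'_iff.1 h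
  obtain ⟨n, w, h0, hn, hw⟩ := seq_of_rtg hcb
  refine ⟨n + 1, fun t => if t = 0 then a else w (t - 1), by omega, by simp, by simpa using hn, ?_⟩
  intro t ht
  rcases Nat.eq_zero_or_pos t with h1 | h1
  · subst h1
    simp [h0, hac]
  · have h2 : t ≠ 0 := by omega
    have h3 : t + 1 ≠ 0 := by omega
    have h4 : t + 1 - 1 = (t - 1) + 1 := by omega
    simp only [h2, h3, if_false, h4]
    exact hw (t - 1) (by omega)

theorem tg_of_seq {α : Type*} {r : α → α → Prop} {n : ℕ} {w : ℕ → α} (hn : 1 ≤ n)
    (h : ∀ t < n, r (w t) (w (t + 1))) : Relation.TransGen r (w 0) (w n) := by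
  induction n with
  | zero => omega
  | succ k ih =>
    rcases Nat.eq_zero_or_pos k with h1 | h1
    · subst h1
      exact Relation.TransGen.single (h 0 (by omega))
    · exact (ih h1 (fun t ht => h t (by omega))).tail (h k (by omega))

/-- The last exit from `a`: a walk from `a` to `b ≠ a` contains a step `a u` after which `a` is
not visited any more. Prove by `Relation.ReflTransGen.head_induction_on` for all starting points
`c`: either the walk from `c` to `b` avoids `a`, or the conclusion holds. -/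
theorem last_exit {α : Type*} {r : α → α → Prop} {a b : α} (h : Relation.ReflTransGen r a b)
    (hab : a ≠ b) :
    ∃ u, r a u ∧ Relation.ReflTransGen (fun p q => r p q ∧ p ≠ a ∧ q ≠ a) u b := by
  have key : ∀ c, Relation.ReflTransGen r c b →
      (c ≠ a ∧ Relation.ReflTransGen (fun p q => r p q ∧ p ≠ a ∧ q ≠ a) c b) ∨
      ∃ u, r a u ∧ Relation.ReflTransGen (fun p q => r p q ∧ p ≠ a ∧ q ≠ a) u b := by
    intro c hc
    induction hc using Relation.ReflTransGen.head_induction_on with
    | refl => exact Or.inl ⟨hab.symm, Relation.ReflTransGen.refl⟩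
    | @head c d hcd _ ih =>
      rcases ih with ⟨hd, hdb⟩ | h2
      · by_cases hca : c = a
        · subst hca
          exact Or.inr ⟨d, hcd, hdb⟩
        · exact Or.inl ⟨hca, Relation.ReflTransGen.head ⟨hcd, hca, hd⟩ hdb⟩
      · exact Or.inr h2
  rcases key a h with ⟨h1, _⟩ | h2
  · exact absurd rfl h1
  · exact h2

end Pool.Agent.DBK
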