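import Pool.Agent.DBK.KemB
import Pool.Agent.DBK.KemC
import Pool.Agent.DBK.Seq

/-! # DBK: neighbours of the token are adjacent

Let `i = φ y`, `j = φ z` (different by `tok_out_inj`), `k` the third colour, and suppose `¬ A y z`.
By `kemB` and `last_exit` there is `u` with `Kr A R x φ i j y u`, and a walk from `u` to `z` in the
colours `i`, `j` which avoids `y`. As `φ u = j` (a digon between two vertices of the same class is impossible), `u ≠ z` because `¬ A y z`.
Let `t` be the out-neighbour of `x` of colour `k`, `W` the set of all vertices reachable from `y` by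
`Kr A R x φ i k`, and `φ'` the colouring with `i`, `k` exchanged on `W` (`tok_kempe`); `t ∈ W` by `kemB`. So
`φ' t = i`, `φ' y = k`, `φ' z = j`, `φ' u = j`. By `kemC` (for `φ`) no vertex `v ≠ y` reachable from `y` in the colours `i`, `j` is in `W`; so the
walk from `u` to `z` is a walk in the colours `i`, `j` also for `φ'`. Then `u` is reachable from `z`
by `Kr A R x φ' j i` (reverse the walk with `hb`), and also by `Kr A R x φ' j k`: from `z` to `y` by
`kemB` for `φ'`, then the step `y u`. By `kemC` for `φ'`, with `z` in the role of `y`, `u = z`, a contradiction.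
-/

namespace Pool.Agent.DBK

open Finset
open scoped Classical

variable {V : Type*} {A : V → V → Prop}


theorem kem {R : Finset V} (hR : Crit3 A R) (hb : ∀ u ∈ R, ∀ v ∈ R, A u v → A v u) {x : V}
    {φ : V → ℕ} (h : Tok A R x φ) {y z : V} (hy : y ∈ R) (hz : z ∈ R) (hxy : A x y)
    (hxz : A x z) (hyz : y ≠ z) : A y z := by
  by_contra hn
  have hyx : y ≠ x := by
    rintro rfl
    exact hR.loop _ hxy
  have hzx : z ≠ x := by
    rintro rfl
    exact hR.loop _ hxz
  obtain ⟨i, hi⟩ : ∃ i, i = φ y := ⟨_, rfl⟩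
  obtain ⟨j, hj⟩ : ∃ j, j = φ z := ⟨_, rfl⟩
  have hi3 : i < 3 := hi ▸ h.2.1 y hy hyx
  have hj3 : j < 3 := hj ▸ h.2.1 z hz hzx
  have hij : i ≠ j := by
    intro e
    exact hyz (tok_out_inj hR h hy hz hxy hxz (by rw [← hi, ← hj, e]))
  obtain ⟨k, hk3, hik, hjk⟩ : ∃ k, k < 3 ∧ i ≠ k ∧ j ≠ k := by
    have e1 : i = 0 ∨ i = 1 ∨ i = 2 := by omega
    have e2 : j = 0 ∨ j = 1 ∨ j = 2 := by omega
    rcases e1 with rfl | rfl | rfl <;> rcases e2 with rfl | rfl | rfl
    · exact absurd rfl hij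
    · exact ⟨2, by omega, by omega, by omega⟩
    · exact ⟨1, by omega, by omega, by omega⟩
    · exact ⟨2, by omega, by omega, by omega⟩
    · exact absurd rfl hij
    · exact ⟨0, by omega, by omega, by omega⟩
    · exact ⟨1, by omega, by omega, by omega⟩
    · exact ⟨0, by omega, by omega, by omega⟩
    · exact absurd rfl hij
  have hwalk := kemB hR hb h hi3 hj3 hij hy hz hxy hxz hi.symm hj.symm
  obtain ⟨u, hyu, huz⟩ := last_exit hwalk hyz
  obtain ⟨hAyu, _, huR, hux, hcu⟩ := hyu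
  have hφu : φ u = j := by
    rcases hcu with e | e
    · exact (tok_no_digon h hy huR hyx hux (by rw [e, hi]) hAyu (hb y hy u huR hAyu)).elim
    · exact e
  have huz' : u ≠ z := by
    rintro rfl
    exact hn hAyu
  obtain ⟨t, htR, htx, hxt, hφt⟩ := tok_out_exists hR h hk3
  set W : Set V := {v | Relation.ReflTransGen (Kr A R x φ i k) y v} with hW
  have hT := tok_kempe h hi3 hk3 W (by
    intro u hu v hv hux hvx huW hvW hcu hcv
    have key : ¬ A u v := fun ha =>
      hvW (Relation.ReflTransGen.tail huW ⟨ha, ⟨hu, hux, hcu⟩, ⟨hv, hvx, hcv⟩⟩)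
    exact ⟨key, fun ha => key (hb v hv u hu ha)⟩)
  set ψ : V → ℕ := fun v => if v ∈ W then Equiv.swap i k (φ v) else φ v with hψ
  have hyW : y ∈ W := Relation.ReflTransGen.refl
  have ψj : ∀ v, φ v = j → ψ v = j := by
    intro v hv
    show (if v ∈ W then Equiv.swap i k (φ v) else φ v) = j
    split_ifs
    · rw [hv]
      exact Equiv.swap_apply_of_ne_of_ne hij.symm hjk
    · exact hv
  have ψy : ψ y = k := by
    show (if y ∈ W then Equiv.swap i k (φ y) else φ y) = k
    rw [if_pos hyW, ← hi]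
    exact Equiv.swap_apply_left i k
  have ψz : ψ z = j := ψj z hj.symm
  have ψu : ψ u = j := ψj u hφu
  -- the walk from `u` to `z` is a walk for the new colouring
  have hyu' : Relation.ReflTransGen (Kr A R x φ i j) y u :=
    Relation.ReflTransGen.single ⟨hAyu, ⟨hy, hyx, Or.inl hi.symm⟩, ⟨huR, hux, hcu⟩⟩
  have hnotW : ∀ v, v ≠ y → Relation.ReflTransGen (Kr A R x φ i j) y v → v ∉ W := by
    intro v hvy hv hvW
    exact hvy (kemC hR hb h hi3 hj3 hk3 hij hik hjk hy hxy hi.symm hv hvW)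
  have hrev : ∀ v, Relation.ReflTransGen
      (fun p q => Kr A R x φ i j p q ∧ p ≠ y ∧ q ≠ y) u v →
      Relation.ReflTransGen (Kr A R x φ i j) y v ∧ Relation.ReflTransGen (Kr A R x ψ j i) v u := by
    intro v hv
    induction hv with
    | refl => exact ⟨hyu', Relation.ReflTransGen.refl⟩
    | @tail p q _ hpq ih =>
      obtain ⟨ih1, ih2⟩ := ih
      obtain ⟨hK, hpy, hqy⟩ := hpq
      have h1 : Relation.ReflTransGen (Kr A R x φ i j) y q := ih1.tail hK
      obtain ⟨ha, ⟨hpR, hpx, hcp⟩, ⟨hqR, hqx, hcq⟩⟩ := hK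
      have hp : ψ p = φ p := if_neg (hnotW p hpy ih1)
      have hq : ψ q = φ q := if_neg (hnotW q hqy h1)
      refine ⟨h1, Relation.ReflTransGen.head ⟨hb p hpR q hqR ha, ⟨hqR, hqx, ?_⟩,
        ⟨hpR, hpx, ?_⟩⟩ ih2⟩
      · rw [hq]
        exact hcq.symm
      · rw [hp]
        exact hcp.symm
  have h1 := (hrev z huz).2
  have h2 := kemB hR hb hT hj3 hk3 hjk hz hy hxz hxy ψz ψy
  have h3 : Relation.ReflTransGen (Kr A R x ψ j k) z u :=
    h2.tail ⟨hAyu, ⟨hy, hyx, Or.inr ψy⟩, ⟨huR, hux, Or.inl ψu⟩⟩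
  exact huz' (kemC hR hb hT hj3 hi3 hk3 hij.symm hjk hik hz hxz ψz h1 h3)

end Pool.Agent.DBK
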