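import Pool.Agent.DBK.Dir
import Pool.Agent.DBK.Kem

/-! # DBK: the only critical set for three colours is a biclique of order four

`R` is not empty (`col_empty`, `col_le`). Let `x ∈ R` and `Tok A R x φ` (`tok_exists`). The out-neighbours of `x` in `R` are three vertices
(`hR.out3`); by `kem` (and `bidir`) they are mutually adjacent, and by `bidir` adjacent to `x` in both directions. The four vertices
are a set `K ⊆ R` which is not `Col A 3` (two of them get the same colour, and they form a digon). If `v ∈ R` is not in `K` then `K ⊆ R.erase v` is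
colourable by `hR.cr`, a contradiction. So `R = K`.
-/

namespace Pool.Agent.DBK

open Finset
open scoped Classical

variable {V : Type*} {A : V → V → Prop}


theorem brooks3 {R : Finset V} (hR : Crit3 A R) :
    R.card = 4 ∧ ∀ u ∈ R, ∀ v ∈ R, u ≠ v → A u v := by
  have hne : R.Nonempty := by
    rw [nonempty_iff_ne_empty]
    rintro rfl
    exact hR.nc (col_le col_empty (by omega))
  obtain ⟨x, hx⟩ := hne
  obtain ⟨φ, hT⟩ := tok_exists hR hx
  have hb : ∀ u ∈ R, ∀ v ∈ R, A u v → A v u := fun u hu v hv huv => bidir hR hu hv huv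
  have hxF : x ∉ R.filter (fun y => A x y) := by
    intro h
    rw [mem_filter] at h
    exact hR.loop x h.2
  have hK4 : (insert x (R.filter (fun y => A x y))).card = 4 := by
    rw [card_insert_of_notMem hxF]
    have := hR.out3 x hx
    unfold outd at this
    omega
  have hKadj : ∀ u ∈ insert x (R.filter (fun y => A x y)),
      ∀ v ∈ insert x (R.filter (fun y => A x y)), u ≠ v → A u v := by
    intro u hu v hv huv
    rw [mem_insert, mem_filter] at hu hv
    rcases hu with rfl | ⟨huR, hxu⟩
    · rcases hv with rfl | ⟨_, hxv⟩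
      · exact absurd rfl huv
      · exact hxv
    · rcases hv with rfl | ⟨hvR, hxv⟩
      · exact hb _ hx u huR hxu
      · exact kem hR hb hT huR hvR hxu hxv huv
  have hKR : insert x (R.filter (fun y => A x y)) ⊆ R := by
    intro u hu
    rw [mem_insert, mem_filter] at hu
    rcases hu with rfl | ⟨huR, _⟩
    · exact hx
    · exact huR
  have hKn : ¬ Col A 3 (insert x (R.filter (fun y => A x y))) := by
    rintro ⟨f, hf, hac⟩
    have hmaps : ∀ a ∈ insert x (R.filter (fun y => A x y)), f a ∈ range 3 := by
      intro a ha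
      rw [mem_range]
      exact hf a ha
    obtain ⟨u, hu, v, hv, huv, e⟩ := exists_ne_map_eq_of_card_lt_of_maps_to
      (by rw [hK4, card_range]; omega) hmaps
    apply hac (f v) u
    exact (Relation.TransGen.single (b := v) ⟨⟨hu, e⟩, ⟨hv, rfl⟩, hKadj u hu v hv huv⟩).tail
      ⟨⟨hv, rfl⟩, ⟨hu, e⟩, hKadj v hv u hu huv.symm⟩
  have hRK : R = insert x (R.filter (fun y => A x y)) := by
    refine subset_antisymm ?_ hKR
    intro v hv
    by_contra hvK
    apply hKn
    refine col_mono (hR.cr v hv) ?_
    intro u hu
    rw [mem_erase]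
    refine ⟨?_, hKR hu⟩
    rintro rfl
    exact hvK hu
  rw [hRK]
  exact ⟨hK4, hKadj⟩

end Pool.Agent.DBK
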