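import Pool.Agent.DBK.Acyc

/-! # DBK: basic facts on colourings

-/

namespace Pool.Agent.DBK

open Finset
open scoped Classical

variable {V : Type*} {A : V → V → Prop}


theorem col_mono {r : ℕ} {S T : Finset V} (h : Col A r T) (hST : S ⊆ T) : Col A r S := by
  obtain ⟨φ, h1, h2⟩ := h
  refine ⟨φ, fun v hv => h1 v (hST hv), fun i => acy_mono (h2 i) ?_⟩
  intro v hv
  exact ⟨hST hv.1, hv.2⟩

theorem col_le {r r' : ℕ} {S : Finset V} (h : Col A r S) (hr : r ≤ r') : Col A r' S := by
  obtain ⟨φ, h1, h2⟩ := h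
  exact ⟨φ, fun v hv => (h1 v hv).trans_le hr, h2⟩

theorem col_empty : Col A 0 (∅ : Finset V) := by
  refine ⟨fun _ => 0, fun v hv => absurd hv (Finset.notMem_empty v), fun i => ?_⟩
  refine acy_mono acy_empty ?_
  intro v hv
  exact absurd hv.1 (Finset.notMem_empty v)

/-- Two colourings with the same colours are put together when there is no arc from `T` to `S`
(use `acy_union` on every class). -/
theorem col_union {r : ℕ} {S T : Finset V} (hS : Col A r S) (hT : Col A r T)
    (hd : Disjoint S T) (h : ∀ x ∈ T, ∀ y ∈ S, ¬ A x y) : Col A r (S ∪ T) := by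
  obtain ⟨φ, h1, h2⟩ := hS
  obtain ⟨ψ, h3, h4⟩ := hT
  refine ⟨fun v => if v ∈ S then φ v else ψ v, ?_, ?_⟩
  · intro v hv
    by_cases hvS : v ∈ S
    · simp only [hvS, if_true]
      exact h1 v hvS
    · simp only [hvS, if_false]
      exact h3 v ((Finset.mem_union.1 hv).resolve_left hvS)
  · intro i
    have hU : AcyclicOn A ({v | v ∈ S ∧ φ v = i} ∪ {v | v ∈ T ∧ ψ v = i}) :=
      acy_union (h2 i) (h4 i) (fun x hx y hy => h x hx.1 y hy.1)
    refine acy_mono hU ?_
    intro v hv
    obtain ⟨hv1, hv2⟩ := hv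
    by_cases hvS : v ∈ S
    · simp only [hvS, if_true] at hv2
      exact Or.inl ⟨hvS, hv2⟩
    · simp only [hvS, if_false] at hv2
      exact Or.inr ⟨(Finset.mem_union.1 hv1).resolve_left hvS, hv2⟩

end Pool.Agent.DBK
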