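import Pool.Agent.DBK.ColA

/-! # DBK: a vertex which cannot be added to a colouring

Let `f` be a colouring of `S` and `x ∉ S`. If for some colour `i < r` the vertex `x` had no out-neighbour
(or no in-neighbour) of colour `i` in `S`, then `x` could get the colour `i` (`acy_insert_sink`,
`acy_insert_source`) and `insert x S` would be colourable. So, if `insert x S` is not colourable,
`x` has an out-neighbour in each of the `r` classes (`exists_out`), which gives `outd_ge`. For
`swap_out`: if `insert x S` is colourable use `col_mono`. Otherwise `x` has exactly one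
out-neighbour in every class, and `y` is the only one in the class of `y`. Give `x` the colour of `y`
and remove `y`: use `acy_insert_sink`. The in-versions are the same with `acy_insert_source`,
`exists_in`.
-/

namespace Pool.Agent.DBK

open Finset
open scoped Classical

variable {V : Type*} {A : V → V → Prop}

/-- Put `x` in the class `i` of a colouring of `S`. -/
theorem col_insert_of {r : ℕ} {S : Finset V} {x : V} {φ : V → ℕ} (hx : x ∉ S)
    (h1 : ∀ v ∈ S, φ v < r) (h2 : ∀ i, AcyclicOn A {v | v ∈ S ∧ φ v = i}) {i : ℕ} (hi : i < r)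
    (hi2 : AcyclicOn A (insert x {v | v ∈ S ∧ φ v = i})) : Col A r (insert x S) := by
  refine ⟨Function.update φ x i, ?_, ?_⟩
  · intro v hv
    by_cases hvx : v = x
    · subst hvx; simpa using hi
    · rw [Function.update_of_ne hvx]
      exact h1 v ((Finset.mem_insert.1 hv).resolve_left hvx)
  · intro j
    by_cases hj : j = i
    · subst hj
      refine acy_mono hi2 ?_
      intro v hv
      by_cases hvx : v = x
      · exact Or.inl hvx
      · right
        refine ⟨(Finset.mem_insert.1 hv.1).resolve_left hvx, ?_⟩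
        have := hv.2
        rwa [Function.update_of_ne hvx] at this
    · refine acy_mono (h2 j) ?_
      intro v hv
      have hvx : v ≠ x := by
        rintro rfl
        have := hv.2
        rw [Function.update_self] at this
        exact hj this.symm
      refine ⟨(Finset.mem_insert.1 hv.1).resolve_left hvx, ?_⟩
      have := hv.2
      rwa [Function.update_of_ne hvx] at this

theorem out_surj {r : ℕ} {S : Finset V} {x : V} {φ : V → ℕ} (hx : x ∉ S) (hl : ¬ A x x)
    (h1 : ∀ v ∈ S, φ v < r) (h2 : ∀ i, AcyclicOn A {v | v ∈ S ∧ φ v = i})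
    (hn : ¬ Col A r (insert x S)) :
    Finset.range r ⊆ (S.filter (fun y => A x y)).image φ := by
  intro i hi
  have hi' := Finset.mem_range.1 hi
  obtain ⟨y, hy, hxy⟩ := exists_out (h2 i) hl (fun hc => hn (col_insert_of hx h1 h2 hi' hc))
  exact Finset.mem_image.2 ⟨y, Finset.mem_filter.2 ⟨hy.1, hxy⟩, hy.2⟩

theorem outd_ge {r : ℕ} {S : Finset V} {x : V} (hx : x ∉ S) (hl : ¬ A x x) (h : Col A r S)
    (hn : ¬ Col A r (insert x S)) : r ≤ outd A x S := by
  obtain ⟨φ, h1, h2⟩ := h
  have h3 := Finset.card_le_card (out_surj hx hl h1 h2 hn)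
  rw [Finset.card_range] at h3
  exact h3.trans Finset.card_image_le

theorem swap_out {r : ℕ} {S : Finset V} {x y : V} (hx : x ∉ S) (hl : ¬ A x x) (h : Col A r S)
    (hd : outd A x S ≤ r) (hy : y ∈ S) (hxy : A x y) : Col A r (insert x (S.erase y)) := by
  by_cases hn : Col A r (insert x S)
  · exact col_mono hn (Finset.insert_subset_insert _ (Finset.erase_subset _ _))
  obtain ⟨φ, h1, h2⟩ := h
  have h3 := Finset.card_le_card (out_surj hx hl h1 h2 hn)
  rw [Finset.card_range] at h3
  have h4 : ((S.filter (fun y => A x y)).image φ).card = (S.filter (fun y => A x y)).card :=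
    le_antisymm Finset.card_image_le (le_trans hd h3)
  have hinj := Finset.card_image_iff.1 h4
  refine col_insert_of (φ := φ) (i := φ y) (fun hc => hx (Finset.mem_of_mem_erase hc))
    (fun v hv => h1 v (Finset.mem_of_mem_erase hv)) (fun i => ?_) (h1 y hy) ?_
  · refine acy_mono (h2 i) ?_
    intro v hv
    exact ⟨Finset.mem_of_mem_erase hv.1, hv.2⟩
  · refine acy_insert_sink (acy_mono (h2 (φ y)) ?_) hl ?_
    · intro v hv
      exact ⟨Finset.mem_of_mem_erase hv.1, hv.2⟩
    · intro z hz hxz
      have hzS := Finset.mem_of_mem_erase hz.1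
      have hzy : z ≠ y := Finset.ne_of_mem_erase hz.1
      exact hzy (hinj (by simpa using ⟨hzS, hxz⟩) (by simpa using ⟨hy, hxy⟩) hz.2)

theorem in_surj {r : ℕ} {S : Finset V} {x : V} {φ : V → ℕ} (hx : x ∉ S) (hl : ¬ A x x)
    (h1 : ∀ v ∈ S, φ v < r) (h2 : ∀ i, AcyclicOn A {v | v ∈ S ∧ φ v = i})
    (hn : ¬ Col A r (insert x S)) :
    Finset.range r ⊆ (S.filter (fun y => A y x)).image φ := by
  intro i hi
  have hi' := Finset.mem_range.1 hi
  obtain ⟨y, hy, hyx⟩ := exists_in (h2 i) hl (fun hc => hn (col_insert_of hx h1 h2 hi' hc))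
  exact Finset.mem_image.2 ⟨y, Finset.mem_filter.2 ⟨hy.1, hyx⟩, hy.2⟩

theorem ind_ge {r : ℕ} {S : Finset V} {x : V} (hx : x ∉ S) (hl : ¬ A x x) (h : Col A r S)
    (hn : ¬ Col A r (insert x S)) : r ≤ ind A x S := by
  obtain ⟨φ, h1, h2⟩ := h
  have h3 := Finset.card_le_card (in_surj hx hl h1 h2 hn)
  rw [Finset.card_range] at h3
  exact h3.trans Finset.card_image_le

theorem swap_in {r : ℕ} {S : Finset V} {x y : V} (hx : x ∉ S) (hl : ¬ A x x) (h : Col A r S)
    (hd : ind A x S ≤ r) (hy : y ∈ S) (hyx : A y x) : Col A r (insert x (S.erase y)) := by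
  by_cases hn : Col A r (insert x S)
  · exact col_mono hn (Finset.insert_subset_insert _ (Finset.erase_subset _ _))
  obtain ⟨φ, h1, h2⟩ := h
  have h3 := Finset.card_le_card (in_surj hx hl h1 h2 hn)
  rw [Finset.card_range] at h3
  have h4 : ((S.filter (fun y => A y x)).image φ).card = (S.filter (fun y => A y x)).card :=
    le_antisymm Finset.card_image_le (le_trans hd h3)
  have hinj := Finset.card_image_iff.1 h4
  refine col_insert_of (φ := φ) (i := φ y) (fun hc => hx (Finset.mem_of_mem_erase hc))
    (fun v hv => h1 v (Finset.mem_of_mem_erase hv)) (fun i => ?_) (h1 y hy) ?_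
  · refine acy_mono (h2 i) ?_
    intro v hv
    exact ⟨Finset.mem_of_mem_erase hv.1, hv.2⟩
  · refine acy_insert_source (acy_mono (h2 (φ y)) ?_) hl ?_
    · intro v hv
      exact ⟨Finset.mem_of_mem_erase hv.1, hv.2⟩
    · intro z hz hzx
      have hzS := Finset.mem_of_mem_erase hz.1
      have hzy : z ≠ y := Finset.ne_of_mem_erase hz.1
      exact hzy (hinj (by simpa using ⟨hzS, hzx⟩) (by simpa using ⟨hy, hyx⟩) hz.2)

end Pool.Agent.DBK
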