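import Pool.Agent.DBK.ColA

/-! # DBK: splitting and gluing colourings

`col_split`: a vertex with colour `c < 3m` goes to the part `some (c / 3)` and gets the new colour
`c % 3`; a vertex with colour `c ≥ 3m` goes to `none` and gets the colour `c - 3m`.
`col_glue`: colour `3 * j + f_j v` for `p v = some j`, colour `3 * m + f_0 v` for `p v = none`.
-/

namespace Pool.Agent.DBK

open Finset
open scoped Classical

variable {V : Type*} {A : V → V → Prop}


theorem col_split {m ρ : ℕ} {S : Finset V} (h : Col A (3 * m + ρ) S) :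
    ∃ p : V → Option (Fin m), Col A ρ (S.filter (fun v => p v = none)) ∧
      ∀ j, Col A 3 (S.filter (fun v => p v = some j)) := by
  obtain ⟨φ, h1, h2⟩ := h
  refine ⟨fun v => if hv : φ v < 3 * m then some ⟨φ v / 3, by omega⟩ else none, ?_, ?_⟩
  · refine ⟨fun v => φ v - 3 * m, ?_, ?_⟩
    · intro v hv
      rw [Finset.mem_filter] at hv
      have h3 := h1 v hv.1
      by_cases h4 : φ v < 3 * m
      · simp [h4] at hv
      · show φ v - 3 * m < ρ
        omega
    · intro i
      refine acy_mono (h2 (3 * m + i)) ?_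
      intro v hv
      have hv1 := hv.1
      have hv2 : φ v - 3 * m = i := hv.2
      rw [Finset.mem_filter] at hv1
      refine ⟨hv1.1, ?_⟩
      by_cases h4 : φ v < 3 * m
      · simp [h4] at hv1
      · omega
  · intro j
    refine ⟨fun v => φ v % 3, fun v _ => Nat.mod_lt _ (by norm_num), ?_⟩
    intro i
    refine acy_mono (h2 (3 * (j : ℕ) + i)) ?_
    intro v hv
    have hv1 := hv.1
    have hv2 : φ v % 3 = i := hv.2
    rw [Finset.mem_filter] at hv1
    refine ⟨hv1.1, ?_⟩
    by_cases h4 : φ v < 3 * m
    · have h5 := hv1.2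
      simp only [h4, dif_pos, Option.some.injEq] at h5
      have h6 : φ v / 3 = (j : ℕ) := by rw [← h5]
      omega
    · simp [h4] at hv1

theorem col_glue {m ρ : ℕ} {S : Finset V} (p : V → Option (Fin m))
    (h0 : Col A ρ (S.filter (fun v => p v = none)))
    (h : ∀ j, Col A 3 (S.filter (fun v => p v = some j))) : Col A (3 * m + ρ) S := by
  obtain ⟨f0, h01, h02⟩ := h0
  choose f hf1 hf2 using h
  set ψ : V → ℕ := fun v => match p v with
    | none => 3 * m + f0 v
    | some j => 3 * (j : ℕ) + f j v with hψ
  have hnone : ∀ v, p v = none → ψ v = 3 * m + f0 v := by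
    intro v hv; simp only [hψ, hv]
  have hsome : ∀ v j, p v = some j → ψ v = 3 * (j : ℕ) + f j v := by
    intro v j hv; simp only [hψ, hv]
  refine ⟨ψ, ?_, ?_⟩
  · intro v hv
    rcases hp : p v with _ | j
    · rw [hnone v hp]
      have := h01 v (Finset.mem_filter.2 ⟨hv, hp⟩)
      omega
    · rw [hsome v j hp]
      have := hf1 j v (Finset.mem_filter.2 ⟨hv, hp⟩)
      have := j.2
      omega
  · intro i
    by_cases hi : i < 3 * m
    · refine acy_mono (hf2 ⟨i / 3, by omega⟩ (i % 3)) ?_
      intro v hv
      have hvS := hv.1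
      have hv2 : ψ v = i := hv.2
      rcases hp : p v with _ | j
      · rw [hnone v hp] at hv2; omega
      · rw [hsome v j hp] at hv2
        have h3 := hf1 j v (Finset.mem_filter.2 ⟨hvS, hp⟩)
        have hj : (⟨i / 3, by omega⟩ : Fin m) = j := by
          apply Fin.ext; show i / 3 = (j : ℕ); omega
        rw [hj]
        exact ⟨Finset.mem_filter.2 ⟨hvS, hp⟩, by omega⟩
    · refine acy_mono (h02 (i - 3 * m)) ?_
      intro v hv
      have hvS := hv.1
      have hv2 : ψ v = i := hv.2
      rcases hp : p v with _ | j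
      · rw [hnone v hp] at hv2
        exact ⟨Finset.mem_filter.2 ⟨hvS, hp⟩, by omega⟩
      · rw [hsome v j hp] at hv2
        have h3 := hf1 j v (Finset.mem_filter.2 ⟨hvS, hp⟩)
        have := j.2
        omega

end Pool.Agent.DBK
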