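import Pool.Agent.DBK.ExD

/-! # DBK: matchings of H outside the essential parts

For `e ∈ M` let `N e` be the set of the vertices of `I.biUnion T` which are `H`-adjacent to `e.1` or to `e.2` (it contains both ends). For two different
edges `e, e'` of `M`, `h.fl` says `3 * I.card ≤ |N e| + |N e'| + 5` (`I.biUnion T` has `3 * I.card` elements). Sum over all ordered pairs
of different edges: with `ν = M.card`, `ν (ν - 1) (3 * I.card) ≤ 2 (ν - 1) ∑ |N e| + 5 ν (ν - 1)`; divide by `ν - 1 ≥ 1`. Finally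
`∑ e ∈ M, |N e| ≤ ∑ e ∈ M, (dH e.1 + dH e.2) = ∑ a ∈ ends M, dH a` (the ends are different).
-/

namespace Pool.Agent.DBK

open Finset
open scoped Classical

variable {V ι : Type*} {I : Finset ι} {T : ι → Finset V} {H : V → V → Prop}
  {un : ι → ι → Prop} {bd : V → ι → Prop} {b : ℕ}

theorem exE_card (h : Ext I T H un bd b) : (I.biUnion T).card = 3 * I.card := by
  rw [card_biUnion (fun i hi j hj hij => h.disj i hi j hj hij),
    sum_congr rfl (fun i hi => h.card i hi), sum_const, smul_eq_mul, mul_comm]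

theorem exE_arith {k c S : ℕ} (hk : 1 ≤ k)
    (h : (k + 1) * (k * c) + S ≤ k * S + (k + 1) * S + (k + 1) * (5 * k)) :
    (k + 1) * c ≤ 5 * (k + 1) + 2 * S := by
  have h1 : k * ((k + 1) * c) ≤ k * (5 * (k + 1) + 2 * S) := by nlinarith
  exact Nat.le_of_mul_le_mul_left h1 hk

theorem exE_sum {α : Type*} {M : Finset α} {f : α → ℕ} {c : ℕ} (h2 : 2 ≤ M.card)
    (hp : ∀ e ∈ M, ∀ e' ∈ M, e ≠ e' → c ≤ f e + f e' + 5) :
    M.card * c ≤ 5 * M.card + 2 * ∑ e ∈ M, f e := by
  obtain ⟨k, hk⟩ : ∃ k, M.card = k + 1 := ⟨M.card - 1, by omega⟩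
  have h1 : ∀ e ∈ M, k * c + f e ≤ k * f e + ∑ e' ∈ M, f e' + 5 * k := by
    intro e he
    have hc : (M.erase e).card = k := by rw [card_erase_of_mem he, hk]; rfl
    have hs : f e + ∑ e' ∈ M.erase e, f e' = ∑ e' ∈ M, f e' := add_sum_erase M f he
    have h3 : ∑ e' ∈ M.erase e, c ≤ ∑ e' ∈ M.erase e, (f e + f e' + 5) := by
      refine sum_le_sum fun e' he' => ?_
      exact hp e he e' (mem_of_mem_erase he') (ne_of_mem_erase he').symm
    rw [sum_const, sum_add_distrib, sum_add_distrib, sum_const, sum_const, hc, smul_eq_mul,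
      smul_eq_mul, smul_eq_mul] at h3
    rw [← hs]
    linarith
  have h4 := sum_le_sum h1
  rw [sum_add_distrib, sum_add_distrib, sum_add_distrib, sum_const, sum_const, sum_const,
    ← mul_sum, smul_eq_mul, smul_eq_mul, smul_eq_mul, hk] at h4
  rw [hk]
  exact exE_arith (by omega) h4

theorem exE (h : Ext I T H un bd b) {R : Finset V} (hR : R ⊆ I.biUnion T)
    {M : Finset (V × V)} (hM : IsMat H R M) (h2 : 2 ≤ M.card) :
    M.card * (3 * I.card) ≤ 5 * M.card + 2 * ∑ a ∈ ends M, dH I T H a := by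
  have hcard := exE_card h
  let N : V × V → Finset V := fun e => (I.biUnion T).filter (fun u => H e.1 u) ∪
    (I.biUnion T).filter (fun u => H e.2 u)
  have hp : ∀ e ∈ M, ∀ e' ∈ M, e ≠ e' → 3 * I.card ≤ (N e).card + (N e').card + 5 := by
    intro e he e' he' hee'
    obtain ⟨he1, he2, heH⟩ := hM.1 e he
    obtain ⟨he1', he2', heH'⟩ := hM.1 e' he'
    obtain ⟨d1, d2, d3, d4⟩ := hM.2 e he e' he' hee'
    have h5 := h.fl e.1 (hR he1) e.2 (hR he2) e'.1 (hR he1') e'.2 (hR he2') d1 d2 d3 d4 heH heH'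
    rw [← hcard]
    refine le_trans ?_ (Nat.add_le_add_left h5 _)
    refine le_trans (card_le_card ?_) (le_trans (card_union_le _ _)
      (Nat.add_le_add_right (card_union_le (N e) (N e')) _))
    intro u hu
    by_cases hH : H e.1 u ∨ H e.2 u ∨ H e'.1 u ∨ H e'.2 u
    · refine mem_union_left _ ?_
      rcases hH with hH | hH | hH | hH
      · exact mem_union_left _ (mem_union_left _ (mem_filter.2 ⟨hu, hH⟩))
      · exact mem_union_left _ (mem_union_right _ (mem_filter.2 ⟨hu, hH⟩))
      · exact mem_union_right _ (mem_union_left _ (mem_filter.2 ⟨hu, hH⟩))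
      · exact mem_union_right _ (mem_union_right _ (mem_filter.2 ⟨hu, hH⟩))
    · push Not at hH
      obtain ⟨n1, n2, n3, n4⟩ := hH
      refine mem_union_right _ (mem_filter.2 ⟨hu, ?_, ?_, ?_, ?_, ?_, ?_, ?_, ?_⟩)
      · rintro rfl
        exact n2 (h.Hsymm _ _ heH)
      · rintro rfl
        exact n1 heH
      · rintro rfl
        exact n4 (h.Hsymm _ _ heH')
      · rintro rfl
        exact n3 heH'
      · exact fun hh => n1 (h.Hsymm _ _ hh)
      · exact fun hh => n2 (h.Hsymm _ _ hh)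
      · exact fun hh => n3 (h.Hsymm _ _ hh)
      · exact fun hh => n4 (h.Hsymm _ _ hh)
  have h6 := exE_sum (f := fun e => (N e).card) h2 hp
  refine le_trans h6 (Nat.add_le_add_left (Nat.mul_le_mul_left 2 ?_) _)
  have h7 : ∑ e ∈ M, (N e).card ≤ ∑ e ∈ M, (dH I T H e.1 + dH I T H e.2) :=
    sum_le_sum fun e _ => card_union_le _ _
  refine le_trans h7 (le_of_eq ?_)
  have hdis : Disjoint (M.image Prod.fst) (M.image Prod.snd) := by
    rw [disjoint_left]
    intro a ha ha'
    obtain ⟨e, he, rfl⟩ := mem_image.1 ha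
    obtain ⟨e', he', hee⟩ := mem_image.1 ha'
    by_cases hh : e = e'
    · subst hh
      have := (hM.1 e he).2.2
      rw [hee] at this
      exact h.Hirr _ this
    · exact (hM.2 e he e' he' hh).2.1 hee.symm
  rw [ends, sum_union hdis, sum_add_distrib, sum_image, sum_image]
  · intro e he e' he' hee
    by_contra hh
    exact (hM.2 e he e' he' hh).2.2.2 hee
  · intro e he e' he' hee
    by_contra hh
    exact (hM.2 e he e' he' hh).1 hee

end Pool.Agent.DBK
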