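import Pool.Agent.DBK.Defs

/-! # DBK: the numerical inequality

Let `h = b - 2k`. By `h1`, `un ≤ h N + 2k (4b + 1 + 2k)`.
Case `h ≥ 1`: `ν = h + 1`, `(h+1) 3N ≤ 5(h+1) + 12 (h+1)(2b - h) + 3hN + 3 (b-h)(5b+1-h) + 4(h+1)²`, so
`3N ≤ 15b² + 6bh - 5h² + 27b - 2h + 9` (about), which is less than `33b²` for `b ≥ 2`, `1 ≤ h ≤ b` (note that `h` and `b` have the same parity).
Case `h = 0`: `ν = 2`, `6N ≤ 10 + 48 b + 3b(5b+1) + 16 < 66 b²`.
-/

namespace Pool.Agent.DBK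

open Finset
open scoped Classical

theorem exN {b N k ν un : ℕ} (hb : 2 ≤ b) (hN : 11 * b ^ 2 ≤ N) (hk : 2 * k ≤ b)
    (h1 : 2 * k * N + un ≤ b * N + 2 * k * (4 * b + 1 + 2 * k))
    (h2 : ν * (3 * N) ≤ 5 * ν + (4 * ν * (6 * k + 3 * b) + 3 * un + (2 * ν) ^ 2))
    (hν : ν = max (b - 2 * k) 1 + 1) : False := by
  obtain ⟨h, rfl⟩ := Nat.exists_eq_add_of_le hk
  rw [Nat.add_sub_cancel_left] at hν
  rcases Nat.eq_zero_or_pos h with rfl | hpos
  · have hν2 : ν = 2 := by simpa using hν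
    subst hν2
    zify at *
    nlinarith
  · have hν2 : ν = h + 1 := by rw [hν, max_eq_left hpos]
    subst hν2
    clear hν
    zify at *
    have h3 : (un : ℤ) ≤ h * N + 2 * k * (4 * (2 * k + h) + 1 + 2 * k) := by nlinarith
    have h4 : (3 * N : ℤ) ≤ 5 * (h + 1) + (4 * (h + 1) * (6 * k + 3 * (2 * k + h))
        + 3 * (2 * k * (4 * (2 * k + h) + 1 + 2 * k)) + (2 * (h + 1)) ^ 2) := by nlinarith
    have hk0 : (0 : ℤ) ≤ k := by positivity
    rcases Nat.eq_zero_or_pos k with h0 | h0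
    · subst h0
      push_cast at *
      nlinarith
    · have hk1 : (1 : ℤ) ≤ k := by exact_mod_cast h0
      have hh1 : (1 : ℤ) ≤ h := by exact_mod_cast hpos
      nlinarith [mul_nonneg (sub_nonneg.2 hk1) (sub_nonneg.2 hh1)]

end Pool.Agent.DBK
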