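import Pool.Agent.DBK.ExC
import Pool.Agent.DBK.ExE
import Pool.Agent.DBK.ExN

/-! # DBK: a small vertex cover of the pairs which are not digons

Take `M` from `exC'`, `k = M.card`, `K = I \ ends M`, `R = K.biUnion T`, `n = max (b - 2k) 1 + 1`, and `mat_dich` for `H`, `R`, `n`. A matching `M'` of `H` in `R` with
exactly `n ≥ 2` edges is impossible: `exE`, `exD`, `exD'` with `Q = ends M'` (`ends_card`: `2n` vertices; `(I \ K).card = 2k`) and `exC` contradict `exN`. So there is a matching `M'` with at most `max (b - 2k) 1`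
edges whose ends cover all `H`-edges in `R`. Let `C = (ends M).biUnion T ∪ ends M'`; `C.card ≤ 6k + 2 max (b - 2k) 1 ≤ 3b + 2`.
-/

namespace Pool.Agent.DBK

open Finset
open scoped Classical

variable {V ι : Type*} {I : Finset ι} {T : ι → Finset V} {H : V → V → Prop}
  {un : ι → ι → Prop} {bd : V → ι → Prop} {b : ℕ}


theorem extraction (h : Ext I T H un bd b) :
    ∃ C : Finset V, C.card ≤ 3 * b + 2 ∧ ∀ u ∈ (I.biUnion T) \ C, ∀ v ∈ (I.biUnion T) \ C,
      ¬ H u v := by
  obtain ⟨M, hM, hMb, hMe⟩ := exC' h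
  have hirr : ∀ a, ¬ ess T H a a := fun a h => h.1 rfl
  have hes := ends_sub hM
  have hec := ends_card hirr hM
  set K := I \ ends M with hK
  have hKI : K ⊆ I := sdiff_subset
  have hIK : I \ K = ends M := by
    rw [hK, sdiff_sdiff_right_self]
    exact inf_eq_right.2 hes
  set R := K.biUnion T with hR
  have hRI : R ⊆ I.biUnion T := biUnion_subset_biUnion_of_subset_left T hKI
  rcases mat_dich h.Hirr R (max (b - 2 * M.card) 1 + 1) with ⟨M', hM', hc⟩ | ⟨M', hM', hc, hx⟩
  · exfalso
    have hec' := ends_card h.Hirr hM'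
    have hes' := ends_sub hM'
    have hn2 : 2 ≤ M'.card := by
      rw [hc]
      have : 1 ≤ max (b - 2 * M.card) 1 := le_max_right _ _
      omega
    have hE := exE h hRI hM' hn2
    have hD' := exD' h hKI hMe (ends M') hes'
    have hC := exC h hM
    rw [← hK] at hC
    have hsum : ∑ a ∈ ends M', dH I T H a ≤ 2 * M'.card * (6 * M.card + 3 * b) +
        ∑ a ∈ ends M', ((K.biUnion T).filter
          (fun u => H a u ∧ ∃ p ∈ Un un K, a ∈ T p.1 ∧ u ∈ T p.2)).card := by
      have h1 : ∀ a ∈ ends M', dH I T H a ≤ (6 * M.card + 3 * b) +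
          ((K.biUnion T).filter
          (fun u => H a u ∧ ∃ p ∈ Un un K, a ∈ T p.1 ∧ u ∈ T p.2)).card := by
        intro a ha
        have haR := hes' ha
        rw [hR, mem_biUnion] at haR
        obtain ⟨i, hi, hai⟩ := haR
        have := exD h hKI hi hai
        rw [hIK, hec] at this
        omega
      refine (Finset.sum_le_sum h1).trans ?_
      rw [Finset.sum_add_distrib, Finset.sum_const, hec', smul_eq_mul]
    have hN := h.big
    have hUnK : (2 * M'.card) ^ 2 = (ends M').card ^ 2 := by rw [hec']
    refine exN (ν := M'.card) (un := (Un un K).card) h.b2 hN hMb hC ?_ hc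
    rw [hUnK]
    nlinarith
  · refine ⟨(ends M).biUnion T ∪ ends M', ?_, ?_⟩
    · have h1 : ((ends M).biUnion T).card ≤ 3 * (2 * M.card) := by
        rw [← hec]
        refine card_biUnion_le.trans ?_
        rw [Finset.sum_congr rfl (fun i hi => h.card i (hes hi))]
        simp [mul_comm]
      have h2 := ends_card h.Hirr hM'
      have h3 := card_union_le ((ends M).biUnion T) (ends M')
      have h4 : M'.card ≤ max (b - 2 * M.card) 1 := by omega
      rcases le_total (b - 2 * M.card) 1 with h5 | h5
      · rw [max_eq_right h5] at h4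
        omega
      · rw [max_eq_left h5] at h4
        omega
    · intro u hu v hv huv
      rw [mem_sdiff, mem_union, not_or] at hu hv
      have inR : ∀ w, w ∈ I.biUnion T → w ∉ (ends M).biUnion T → w ∈ R := by
        intro w hw hw'
        rw [mem_biUnion] at hw
        obtain ⟨i, hi, hwi⟩ := hw
        rw [hR, mem_biUnion]
        refine ⟨i, ?_, hwi⟩
        rw [hK, mem_sdiff]
        exact ⟨hi, fun hc => hw' (mem_biUnion.2 ⟨i, hc, hwi⟩)⟩
      rcases hx u (inR u hu.1 hu.2.1) v (inR v hv.1 hv.2.1) huv with h0 | h0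
      · exact hu.2.2 h0
      · exact hv.2.2 h0

end Pool.Agent.DBK
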