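import Pool.Agent.DBK.Acyc

/-! # DBK: greedy colouring from lists

Induction on `B` with `S0 ⊆ B ⊆ S` (for example on the set `B \ S0`): a colouring `χ` of `B` from the lists, equal to `χ0` on `S0`, with acyclic
classes. To add `u ∈ S \ B` choose a colour of `L u` which does not occur on the out-neighbours of `u` in `B`; they have at most
`((S0.filter (A u)).image χ0).card + outd A u (B \ S0)` colours. The new class is acyclic by
`acy_insert_sink`.
-/

namespace Pool.Agent.DBK

open Finset
open scoped Classical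

variable {V : Type*} {A : V → V → Prop}

theorem greedy_aux {S0 S : Finset V} (L : V → Finset ℕ) (χ0 : V → ℕ)
    (hl : ∀ v, ¬ A v v) (h0 : ∀ u ∈ S0, χ0 u ∈ L u)
    (ha : ∀ i, AcyclicOn A {v | v ∈ S0 ∧ χ0 v = i})
    (hc : ∀ u ∈ S \ S0, ((S0.filter (fun v => A u v)).image χ0).card + outd A u (S \ S0) <
      (L u).card) (D : Finset V) : D ⊆ S \ S0 →
    ∃ χ : V → ℕ, (∀ u ∈ S0 ∪ D, χ u ∈ L u) ∧ (∀ u ∈ S0, χ u = χ0 u) ∧
      ∀ i, AcyclicOn A {v | v ∈ S0 ∪ D ∧ χ v = i} := by
  induction D using Finset.induction_on with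
  | empty =>
    intro _
    refine ⟨χ0, ?_, fun _ _ => rfl, ?_⟩
    · simpa using h0
    · simpa using ha
  | insert u D huD ih =>
    intro hD
    have huS : u ∈ S \ S0 := hD (mem_insert_self _ _)
    have hDS : D ⊆ S \ S0 := fun v hv => hD (mem_insert_of_mem hv)
    have hu0 : u ∉ S0 := (mem_sdiff.1 huS).2
    obtain ⟨χ, h1, h2, h3⟩ := ih hDS
    have hF : ((S0 ∪ D).filter (fun v => A u v)).image χ ⊆
        ((S0.filter (fun v => A u v)).image χ0) ∪ (D.filter (fun v => A u v)).image χ := by
      intro a ha'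
      obtain ⟨v, hv, rfl⟩ := mem_image.1 ha'
      rw [mem_filter, mem_union] at hv
      rcases hv.1 with hv1 | hv1
      · refine mem_union_left _ (mem_image.2 ⟨v, mem_filter.2 ⟨hv1, hv.2⟩, (h2 v hv1).symm⟩)
      · refine mem_union_right _ (mem_image.2 ⟨v, mem_filter.2 ⟨hv1, hv.2⟩, rfl⟩)
    have hFc : (((S0 ∪ D).filter (fun v => A u v)).image χ).card < (L u).card := by
      have e1 := card_le_card hF
      have e2 := card_union_le ((S0.filter (fun v => A u v)).image χ0)
        ((D.filter (fun v => A u v)).image χ)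
      have e3 : ((D.filter (fun v => A u v)).image χ).card ≤ outd A u (S \ S0) := by
        unfold outd
        exact card_image_le.trans (card_le_card (filter_subset_filter _ hDS))
      have e4 := hc u huS
      omega
    obtain ⟨a, haL, haF⟩ := exists_mem_notMem_of_card_lt_card hFc
    have hne : ∀ v ∈ S0 ∪ D, v ≠ u := by
      rintro v hv rfl
      rcases mem_union.1 hv with h | h
      · exact hu0 h
      · exact huD h
    refine ⟨Function.update χ u a, ?_, ?_, ?_⟩
    · intro v hv
      rw [union_insert, mem_insert] at hv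
      rcases hv with rfl | hv
      · simpa using haL
      · rw [Function.update_of_ne (hne v hv)]
        exact h1 v hv
    · intro v hv
      rw [Function.update_of_ne (hne v (mem_union_left _ hv))]
      exact h2 v hv
    · intro i
      by_cases hi : i = a
      · subst hi
        have := acy_insert_sink (x := u) (h3 i) (hl u) (by
          rintro y ⟨hy, hyi⟩ huy
          exact haF (mem_image.2 ⟨y, mem_filter.2 ⟨hy, huy⟩, hyi⟩))
        refine acy_mono this ?_
        rintro v ⟨hv, hvi⟩
        rw [union_insert, mem_insert] at hv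
        rcases hv with rfl | hv
        · exact Set.mem_insert _ _
        · rw [Function.update_of_ne (hne v hv)] at hvi
          exact Set.mem_insert_of_mem _ ⟨hv, hvi⟩
      · refine acy_mono (h3 i) ?_
        rintro v ⟨hv, hvi⟩
        rw [union_insert, mem_insert] at hv
        rcases hv with rfl | hv
        · rw [Function.update_self] at hvi
          exact absurd hvi.symm hi
        · rw [Function.update_of_ne (hne v hv)] at hvi
          exact ⟨hv, hvi⟩

theorem greedy {S0 S : Finset V} (hsub : S0 ⊆ S) (L : V → Finset ℕ) (χ0 : V → ℕ)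
    (hl : ∀ v, ¬ A v v) (h0 : ∀ u ∈ S0, χ0 u ∈ L u)
    (ha : ∀ i, AcyclicOn A {v | v ∈ S0 ∧ χ0 v = i})
    (hc : ∀ u ∈ S \ S0, ((S0.filter (fun v => A u v)).image χ0).card + outd A u (S \ S0) <
      (L u).card) :
    ∃ χ : V → ℕ, (∀ u ∈ S, χ u ∈ L u) ∧ ∀ i, AcyclicOn A {v | v ∈ S ∧ χ v = i} := by
  obtain ⟨χ, h1, _, h3⟩ := greedy_aux (S := S) L χ0 hl h0 ha hc (S \ S0) (Subset.refl _)
  rw [union_sdiff_of_subset hsub] at h1 h3
  exact ⟨χ, h1, h3⟩

end Pool.Agent.DBK
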