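import Pool.Agent.DBK.FlA
import Pool.Agent.DBK.FlC

/-! # DBK: colouring the violator

Let `ℓ = Ls.card ≥ 7`. None of the four vertices is in `Ls` (no loops), so `U.card = ℓ + 4`. For `a` one of the four, all of `Ls` are
out-neighbours, so `(L a).card ≥ ℓ - 1`. There are colours `α ≠ β` such that `α ∈ L z` if `z ∈ S`, `α ∈ L w` if `w ∈ S`, `β ∈ L z'` if
`z' ∈ S`, `β ∈ L w'` if `w' ∈ S`: for each of the two pairs there are at least two possible colours; if both `z, w ∈ S` then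
`|L z ∩ L w| ≥ 2 (ℓ - 1) - |L(S)| ≥ 2 (ℓ - 1) - (ℓ + 3) = ℓ - 5 ≥ 2`. Let `S0 = S ∩ {z, w, z', w'}` and `χ0 = α` on `z, w`, `χ0 = β` on `z', w'`;
the classes are acyclic by `acy_pair`. Apply `greedy`: for `u ∈ S \ S0 ⊆ Ls` at most two colours occur on `S0`, and
`outd A u (S \ S0) ≤ outd A u Ls = outd A u U - 4 ≤ (L u).card - 3`.
-/

namespace Pool.Agent.DBK

open Finset
open scoped Classical

variable {V : Type*} [Fintype V] {A : V → V → Prop}

theorem four_card {z w z' w' : V} (d1 : z ≠ w) (d2 : z ≠ z') (d3 : z ≠ w')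
    (d4 : w ≠ z') (d5 : w ≠ w') (d6 : z' ≠ w') (Q : Finset V) (hQ : z ∉ Q ∧ w ∉ Q ∧ z' ∉ Q ∧ w' ∉ Q) :
    (insert z (insert w (insert z' (insert w' Q)))).card = Q.card + 4 := by
  obtain ⟨h1, h2, h3, h4⟩ := hQ
  rw [card_insert_of_notMem, card_insert_of_notMem, card_insert_of_notMem, card_insert_of_notMem h4]
  · simp only [mem_insert, not_or]
    exact ⟨d6, h3⟩
  · simp only [mem_insert, not_or]
    exact ⟨d4, d5, h2⟩
  · simp only [mem_insert, not_or]
    exact ⟨d1, d2, d3, h1⟩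

theorem pair_cols {S : Finset V} {L : V → Finset ℕ} {l : ℕ} (h7 : 7 ≤ l)
    (hB : (S.biUnion L).card ≤ l + 3) {p q : V} (hp : l ≤ (L p).card + 1)
    (hq : l ≤ (L q).card + 1) :
    ∃ E : Finset ℕ, 2 ≤ E.card ∧ ∀ α ∈ E, (p ∈ S → α ∈ L p) ∧ (q ∈ S → α ∈ L q) := by
  by_cases h1 : p ∈ S
  · by_cases h2 : q ∈ S
    · refine ⟨L p ∩ L q, ?_, fun α hα => ⟨fun _ => (mem_inter.1 hα).1, fun _ => (mem_inter.1 hα).2⟩⟩
      have h3 := card_union_add_card_inter (L p) (L q)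
      have h4 : (L p ∪ L q).card ≤ (S.biUnion L).card := card_le_card
        (union_subset (subset_biUnion_of_mem L h1) (subset_biUnion_of_mem L h2))
      omega
    · exact ⟨L p, by omega, fun α hα => ⟨fun _ => hα, fun h => absurd h h2⟩⟩
  · by_cases h2 : q ∈ S
    · exact ⟨L q, by omega, fun α hα => ⟨fun h => absurd h h1, fun _ => hα⟩⟩
    · exact ⟨{0, 1}, by simp, fun α _ => ⟨fun h => absurd h h1, fun h => absurd h h2⟩⟩

theorem flD (hl : ∀ v, ¬ A v v) {z w z' w' : V} (d1 : z ≠ w) (d2 : z ≠ z') (d3 : z ≠ w')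
    (d4 : w ≠ z') (d5 : w ≠ w') (d6 : z' ≠ w') (n1 : ¬ (A z w ∧ A w z))
    (n2 : ¬ (A z' w' ∧ A w' z')) (Ls : Finset V) (h7 : 7 ≤ Ls.card)
    (hL : ∀ u ∈ Ls, ∀ a, (a = z ∨ a = w ∨ a = z' ∨ a = w') → A u a ∧ A a u)
    (L : V → Finset ℕ) (U : Finset V) (hU : U = insert z (insert w (insert z' (insert w' Ls))))
    (hout : ∀ u ∈ U, outd A u U ≤ (L u).card + 1) {S : Finset V} (hSU : S ⊆ U)
    (hS : (S.biUnion L).card < S.card) :
    ∃ χ : V → ℕ, (∀ u ∈ S, χ u ∈ L u) ∧ ∀ i, AcyclicOn A {v | v ∈ S ∧ χ v = i} := by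
  have hno : ∀ a, (a = z ∨ a = w ∨ a = z' ∨ a = w') → a ∉ Ls := fun a ha haL =>
    hl a (hL a haL a ha).1
  have hnL : z ∉ Ls ∧ w ∉ Ls ∧ z' ∉ Ls ∧ w' ∉ Ls :=
    ⟨hno z (by tauto), hno w (by tauto), hno z' (by tauto), hno w' (by tauto)⟩
  have hUc : U.card = Ls.card + 4 := by
    rw [hU]
    exact four_card d1 d2 d3 d4 d5 d6 Ls hnL
  have hB : (S.biUnion L).card ≤ Ls.card + 3 := by
    have := card_le_card hSU
    omega
  have hmU : ∀ v, v ∈ U ↔ (v = z ∨ v = w ∨ v = z' ∨ v = w') ∨ v ∈ Ls := by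
    intro v
    rw [hU]
    simp only [mem_insert]
    tauto
  have hfour : ∀ a, (a = z ∨ a = w ∨ a = z' ∨ a = w') → Ls.card ≤ (L a).card + 1 := by
    intro a ha
    refine le_trans (card_le_card ?_) (hout a ((hmU a).2 (Or.inl ha)))
    intro v hv
    exact mem_filter.2 ⟨(hmU v).2 (Or.inr hv), (hL v hv a ha).2⟩
  obtain ⟨E1, hE1, hE1'⟩ := pair_cols h7 hB (hfour z (by tauto)) (hfour w (by tauto))
  obtain ⟨E2, hE2, hE2'⟩ := pair_cols h7 hB (hfour z' (by tauto)) (hfour w' (by tauto))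
  obtain ⟨α, hα⟩ : E1.Nonempty := card_pos.1 (by omega)
  obtain ⟨β, hβ⟩ : (E2.erase α).Nonempty := card_pos.1 (by
    have := pred_card_le_card_erase (s := E2) (a := α)
    omega)
  obtain ⟨hβα, hβ2⟩ := mem_erase.1 hβ
  set S0 : Finset V := S.filter (fun v => v = z ∨ v = w ∨ v = z' ∨ v = w') with hS0
  set χ0 : V → ℕ := fun v => if v = z ∨ v = w then α else β with hχ0
  have hχ0' : ∀ v ∈ S0, (χ0 v = α ∧ (v = z ∨ v = w)) ∨ (χ0 v = β ∧ (v = z' ∨ v = w')) := by
    intro v hv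
    have hv' := (mem_filter.1 hv).2
    by_cases h1 : v = z ∨ v = w
    · exact Or.inl ⟨if_pos h1, h1⟩
    · exact Or.inr ⟨if_neg h1, by tauto⟩
  refine greedy (S0 := S0) (filter_subset _ _) L χ0 hl ?_ ?_ ?_
  · intro u hu
    have huS := (mem_filter.1 hu).1
    rcases hχ0' u hu with ⟨e, h1⟩ | ⟨e, h1⟩
    · rw [e]
      rcases h1 with rfl | rfl
      · exact (hE1' α hα).1 huS
      · exact (hE1' α hα).2 huS
    · rw [e]
      rcases h1 with rfl | rfl
      · exact (hE2' β hβ2).1 huS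
      · exact (hE2' β hβ2).2 huS
  · intro i
    by_cases hi : i = α
    · refine acy_mono (acy_pair hl n1) ?_
      rintro v ⟨hv, hvi⟩
      rcases hχ0' v hv with ⟨e, h1⟩ | ⟨e, h1⟩
      · exact h1
      · exact absurd (e.symm.trans (hvi.trans hi)) hβα
    · refine acy_mono (acy_pair hl n2) ?_
      rintro v ⟨hv, hvi⟩
      rcases hχ0' v hv with ⟨e, h1⟩ | ⟨e, h1⟩
      · exact absurd (hvi.symm.trans e) hi
      · exact h1
  · intro u hu
    obtain ⟨huS, huS0⟩ := mem_sdiff.1 hu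
    have hu4 : ¬ (u = z ∨ u = w ∨ u = z' ∨ u = w') := fun h => huS0 (mem_filter.2 ⟨huS, h⟩)
    have huL : u ∈ Ls := ((hmU u).1 (hSU huS)).resolve_left hu4
    have h1 : ((S0.filter (fun v => A u v)).image χ0).card ≤ 2 := by
      refine le_trans (card_le_card (t := {α, β}) ?_) card_le_two
      intro i hi
      obtain ⟨v, hv, rfl⟩ := mem_image.1 hi
      rcases hχ0' v (mem_filter.1 hv).1 with ⟨e, _⟩ | ⟨e, _⟩
      · rw [e]; simp
      · rw [e]; simp
    have h2 : outd A u (S \ S0) ≤ outd A u Ls := by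
      refine card_le_card ?_
      intro v hv
      obtain ⟨hv1, hv2⟩ := mem_filter.1 hv
      obtain ⟨hvS, hvS0⟩ := mem_sdiff.1 hv1
      have hv4 : ¬ (v = z ∨ v = w ∨ v = z' ∨ v = w') := fun h => hvS0 (mem_filter.2 ⟨hvS, h⟩)
      exact mem_filter.2 ⟨((hmU v).1 (hSU hvS)).resolve_left hv4, hv2⟩
    have h3 : outd A u Ls + 4 ≤ outd A u U := by
      have h4 := four_card d1 d2 d3 d4 d5 d6 (Ls.filter (fun v => A u v))
        ⟨fun h => hnL.1 (mem_filter.1 h).1, fun h => hnL.2.1 (mem_filter.1 h).1,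
          fun h => hnL.2.2.1 (mem_filter.1 h).1, fun h => hnL.2.2.2 (mem_filter.1 h).1⟩
      have h5 : outd A u Ls + 4 =
          (insert z (insert w (insert z' (insert w' (Ls.filter (fun v => A u v)))))).card := h4.symm
      rw [h5]
      refine card_le_card ?_
      intro v hv
      simp only [mem_insert, mem_filter] at hv
      refine mem_filter.2 ⟨(hmU v).2 (by tauto), ?_⟩
      rcases hv with h | h | h | h | h
      · exact (hL u huL v (by tauto)).1
      · exact (hL u huL v (by tauto)).1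
      · exact (hL u huL v (by tauto)).1
      · exact (hL u huL v (by tauto)).1
      · exact h.2
    have h6 := hout u (hSU huS)
    omega

end Pool.Agent.DBK
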