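import Pool.Agent.DBK.FlB
import Pool.Agent.DBK.FlD

/-! # DBK: two disjoint pairs which are not digons have few common digon neighbours

Suppose `7 ≤ Ls.card`, `U = insert z (insert w (insert z' (insert w' Ls)))`. The complement of `U` is colourable (`cr z`,
`col_mono`), by `ψ`. Let `L u = Lst A c U ψ u`. `hall_split` gives `S` and `χ1` on `U \ S`, injective, with colours outside
`S.biUnion L`. If `S` is not empty, `flD` gives `χ2` on `S` (with colours in `S.biUnion L`). The combined colouring of `U` has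
acyclic classes (a class is contained in `S`, or has at most one element). Then `flA` contradicts `nc`.
-/

namespace Pool.Agent.DBK

open Finset
open scoped Classical

variable {V : Type*} [Fintype V] {A : V → V → Prop}


theorem fl {c : ℕ} (hl : ∀ v, ¬ A v v) (nc : ¬ Col A c (univ : Finset V))
    (cr : ∀ v, Col A c ((univ : Finset V).erase v)) (od : ∀ v, outd A v univ ≤ c + 1)
    {z w z' w' : V} (d1 : z ≠ w) (d2 : z ≠ z') (d3 : z ≠ w')
    (d4 : w ≠ z') (d5 : w ≠ w') (d6 : z' ≠ w') (n1 : ¬ (A z w ∧ A w z))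
    (n2 : ¬ (A z' w' ∧ A w' z')) (Ls : Finset V)
    (hL : ∀ u ∈ Ls, ∀ a, (a = z ∨ a = w ∨ a = z' ∨ a = w') → A u a ∧ A a u) :
    Ls.card ≤ 6 := by
  by_contra hcon
  have h7 : 7 ≤ Ls.card := by omega
  obtain ⟨U, hU⟩ : ∃ U : Finset V, U = insert z (insert w (insert z' (insert w' Ls))) := ⟨_, rfl⟩
  have hzU : z ∈ U := by rw [hU]; exact mem_insert_self _ _
  have hcomp : Col A c (Uᶜ) := col_mono (cr z) (by
    intro v hv
    refine mem_erase.2 ⟨?_, mem_univ _⟩
    rintro rfl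
    exact (mem_compl.1 hv) hzU)
  obtain ⟨ψ, hψ, hψa⟩ := hcomp
  have hψ' : ∀ v ∉ U, ψ v < c := fun v hv => hψ v (mem_compl.2 hv)
  have hψa' : ∀ i, AcyclicOn A {v | v ∉ U ∧ ψ v = i} := fun i => acy_mono (hψa i) (by
    rintro v ⟨hv, hvi⟩
    exact ⟨mem_compl.2 hv, hvi⟩)
  obtain ⟨L, hLdef⟩ : ∃ L : V → Finset ℕ, L = fun u => Lst A c U ψ u := ⟨_, rfl⟩
  have hout : ∀ u ∈ U, outd A u U ≤ (L u).card + 1 := by
    intro u _
    rw [hLdef]
    exact lst_card U ψ (od u)
  obtain ⟨S, hSU, hS, χ1, h1, h2⟩ := hall_split U L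
  have hχ2 : ∃ χ : V → ℕ, (∀ u ∈ S, χ u ∈ L u) ∧ ∀ i, AcyclicOn A {v | v ∈ S ∧ χ v = i} := by
    rcases hS with hS | hS
    · subst hS
      refine ⟨fun _ => 0, by simp, fun i => ?_⟩
      refine acy_mono acy_empty ?_
      rintro v ⟨hv, _⟩
      simp at hv
    · exact flD hl d1 d2 d3 d4 d5 d6 n1 n2 Ls h7 hL L U hU hout hSU hS
  obtain ⟨χ2, h3, h4⟩ := hχ2
  have hmem : ∀ u ∈ U, (if u ∈ S then χ2 u else χ1 u) ∈ L u := by
    intro u hu
    by_cases h : u ∈ S
    · simpa [h] using h3 u h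
    · simpa [h] using (h1 u (mem_sdiff.2 ⟨hu, h⟩)).1
  refine nc (flA U (ψ := ψ) (χ := fun u => if u ∈ S then χ2 u else χ1 u) hψ' hψa' ?_ ?_ ?_)
  · intro u hu
    have := hmem u hu
    rw [hLdef] at this
    exact mem_range.1 (mem_filter.1 this).1
  · intro i
    by_cases hi : i ∈ S.biUnion L
    · refine acy_mono (h4 i) ?_
      rintro v ⟨hv, hvi⟩
      by_cases h : v ∈ S
      · refine ⟨h, ?_⟩
        simpa [h] using hvi
      · exfalso
        have hvi' : χ1 v = i := by simpa [h] using hvi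
        exact (h1 v (mem_sdiff.2 ⟨hv, h⟩)).2 (hvi' ▸ hi)
    · by_cases hex : ∃ v0 ∈ U \ S, χ1 v0 = i
      · obtain ⟨v0, hv0, hv0i⟩ := hex
        refine acy_mono (acy_singleton (hl v0)) ?_
        rintro v ⟨hv, hvi⟩
        by_cases h : v ∈ S
        · exfalso
          have hvi' : χ2 v = i := by simpa [h] using hvi
          exact hi (mem_biUnion.2 ⟨v, h, hvi' ▸ h3 v h⟩)
        · have hvi' : χ1 v = i := by simpa [h] using hvi
          exact h2 v (mem_sdiff.2 ⟨hv, h⟩) v0 hv0 (hvi'.trans hv0i.symm)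
      · refine acy_mono acy_empty ?_
        rintro v ⟨hv, hvi⟩
        exfalso
        by_cases h : v ∈ S
        · have hvi' : χ2 v = i := by simpa [h] using hvi
          exact hi (mem_biUnion.2 ⟨v, h, hvi' ▸ h3 v h⟩)
        · have hvi' : χ1 v = i := by simpa [h] using hvi
          exact hex ⟨v, mem_sdiff.2 ⟨hv, h⟩, hvi'⟩
  · intro u hu v hv huv
    have := hmem u hu
    rw [hLdef] at this
    exact (mem_filter.1 this).2 v hv huv

end Pool.Agent.DBK
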