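import Pool.Agent.DBK.SysA

/-! # DBK: joined pairs of parts and pairs of vertices which are not digons

Let `w0 ∈ T A s i`, `z0 ∈ T A s j` be the pair in `hJ`. The state `sw s i w0` is in `O`, clean at `j`, with part `j` equal to
`P s j`; `z0` is adjacent to its token `w0`, so `z0` is in its club (`mem_T_of_adj`), and by `comp_eq` this club is `T A s j`. In the same
way the club of `sw s j z0` in part `i` is `T A s i`; so `z0` is joined by digons to all of `T A s i` (`hS.bic`). Suppose
`Clean A (sw s i y) j`. Its token `y` is adjacent to `z0 ∈ P s j`, so its club in part `j` is `T A s j` again, and `y` forms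
digons with all of `T A s j`, in particular with `w`: contradiction. The second claim is the same with the roles
exchanged (`joined_symm`).
-/

namespace Pool.Agent.DBK

open Finset
open scoped Classical

variable {V : Type*} [Fintype V] {m : ℕ} {A : V → V → Prop}


theorem joinC_aux {b : ℕ} {O : Finset (St V m)} (hS : Sys A m b O) {i j : Fin m} (hij : i ≠ j)
    {s : St V m} (hs : s ∈ O) (hi : Clean A s i) (hj : Clean A s j) (hJ : Joined A s i j)
    {y w : V} (hy : y ∈ T A s i) (hw : w ∈ T A s j) (hnd : ¬ (A y w ∧ A w y)) :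
    ¬ Clean A (sw s i y) j := by
  obtain ⟨w0, hw0, z0, hz0, hcw, hcz, had⟩ := hJ
  have hn := hS.norm s hs
  intro hcy
  have hyP : y ∈ P s i := T_sub s i hy
  have hwP : w ∈ P s j := T_sub s j hw
  have hz0P : z0 ∈ P s j := T_sub s j hz0
  have hw0P : w0 ∈ P s i := T_sub s i hw0
  -- the state `sw s j z0`
  have hsz := hS.swap s hs j hj z0 hz0
  have hPz : P (sw s j z0) i = P s i :=
    P_sw_other hn hij (Finset.mem_insert_of_mem hz0P)
  have hw0T : w0 ∈ T A (sw s j z0) i := by
    refine mem_T_of_adj hS hsz.1 hcz ?_ ?_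
    · rw [hPz]
      exact hw0P
    · show A z0 w0 ∨ A w0 z0
      exact had.symm
  have hTz : T A s i = T A (sw s j z0) i :=
    comp_eq hS hs hsz.1 hi hcz hPz.symm hw0 hw0T
  -- `z0` and `y` form a digon
  have hyT : y ∈ T A (sw s j z0) i := by
    rw [← hTz]
    exact hy
  have hyz : y ≠ z0 := by
    intro he
    have h1 : y ∈ P s i := hyP
    have h2 : y ∈ P s j := by
      rw [he]
      exact hz0P
    simp only [P, Finset.mem_filter] at h1 h2
    have h3 := h1.2.2.symm.trans h2.2.2
    exact hij (Option.some_injective _ h3)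
  have hzy : A z0 y :=
    hS.bic _ hsz.1 i hcz z0 (Finset.mem_insert_self _ _) y
      (Finset.mem_insert_of_mem hyT) (fun h => hyz h.symm)
  -- the state `sw s i y`
  have hsy := hS.swap s hs i hi y hy
  have hPy : P (sw s i y) j = P s j :=
    P_sw_other hn (Ne.symm hij) (Finset.mem_insert_of_mem hyP)
  have hz0T : z0 ∈ T A (sw s i y) j := by
    refine mem_T_of_adj hS hsy.1 hcy ?_ ?_
    · rw [hPy]
      exact hz0P
    · show A y z0 ∨ A z0 y
      exact Or.inr hzy
  have hTy : T A s j = T A (sw s i y) j :=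
    comp_eq hS hs hsy.1 hj hcy hPy.symm hz0 hz0T
  have hwT : w ∈ T A (sw s i y) j := by
    rw [← hTy]
    exact hw
  have hyw : y ≠ w := by
    intro he
    have h1 : y ∈ P s i := hyP
    have h2 : y ∈ P s j := by
      rw [he]
      exact hwP
    simp only [P, Finset.mem_filter] at h1 h2
    have h3 := h1.2.2.symm.trans h2.2.2
    exact hij (Option.some_injective _ h3)
  refine hnd ⟨?_, ?_⟩
  · exact hS.bic _ hsy.1 j hcy y (Finset.mem_insert_self _ _) w
      (Finset.mem_insert_of_mem hwT) hyw
  · exact hS.bic _ hsy.1 j hcy w (Finset.mem_insert_of_mem hwT) y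
      (Finset.mem_insert_self _ _) (fun h => hyw h.symm)

theorem joinC {b : ℕ} {O : Finset (St V m)} (hS : Sys A m b O) {i j : Fin m} (hij : i ≠ j)
    {s : St V m} (hs : s ∈ O) (hi : Clean A s i) (hj : Clean A s j) (hJ : Joined A s i j)
    {y w : V} (hy : y ∈ T A s i) (hw : w ∈ T A s j) (hnd : ¬ (A y w ∧ A w y)) :
    ¬ Clean A (sw s i y) j ∧ ¬ Clean A (sw s j w) i :=
  ⟨joinC_aux hS hij hs hi hj hJ hy hw hnd,
    joinC_aux hS (Ne.symm hij) hs hj hi (joined_symm hJ) hw hy (fun h => hnd ⟨h.2, h.1⟩)⟩

end Pool.Agent.DBK
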