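import Pool.Agent.DBK.OptSys
import Pool.Agent.DBK.Average
import Pool.Agent.DBK.JoinC
import Pool.Agent.DBK.Fl
import Pool.Agent.DBK.Extr

/-! # DBK: the biclique in a critical digraph -/

namespace Pool.Agent.DBK

open Finset
open scoped Classical

variable {V : Type*} [Fintype V] {m : ℕ} {A : V → V → Prop}

theorem T_eq_of_mem {s : St V m} {i j : Fin m} {z : V} (hi : z ∈ T A s i) (hj : z ∈ T A s j) :
    i = j := by
  have h1 := T_sub (A := A) s i hi
  have h2 := T_sub (A := A) s j hj
  simp only [P, mem_filter, mem_univ, true_and] at h1 h2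
  have := h1.2.symm.trans h2.2
  exact Option.some_injective _ this

theorem core {r b : ℕ} (hB : Base A m r b) (hbig : 11 * b ^ 2 + b ≤ m) :
    ∃ K : Finset V, (∀ u ∈ K, ∀ v ∈ K, u ≠ v → A u v) ∧ 3 * m ≤ K.card + 6 * b + 1 := by
  set O : Finset (St V m) := univ.filter (fun s : St V m => IsOpt A r s) with hO
  have hS : Sys A m b O := optSys hB
  have hne : O.Nonempty := by
    obtain ⟨s, hs⟩ := exists_opt hB
    exact ⟨s, by simp [hO, hs]⟩
  obtain ⟨s, hs, hun⟩ := average hS hne
  set I : Finset (Fin m) := univ.filter (fun j => Clean A s j) with hI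
  have hmI : ∀ j, j ∈ I ↔ Clean A s j := fun j => by simp [hI]
  have hcardI : m ≤ I.card + b := by
    have h1 := hS.bad s hs
    have h2 : (univ.filter (fun j => Clean A s j)).card +
        (univ.filter (fun j => ¬ Clean A s j)).card = (univ : Finset (Fin m)).card :=
      card_filter_add_card_filter_not _
    rw [card_univ, Fintype.card_fin] at h2
    have h3 : I.card = (univ.filter (fun j => Clean A s j)).card := rfl
    omega
  let H : V → V → Prop := fun u v => u ≠ v ∧ ¬ (A u v ∧ A v u)
  let un : Fin m → Fin m → Prop := fun i j => ¬ Joined A s i j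
  let bd : V → Fin m → Prop := fun z j =>
    ∃ i, z ∈ T A s i ∧ Clean A s i ∧ ¬ Clean A (sw s i z) j
  have hdig : ∀ i ∈ I, ∀ a ∈ T A s i, A s.1 a ∧ A a s.1 := by
    intro i hi a ha
    have hne' : s.1 ≠ a := by
      intro e
      have := T_sub (A := A) s i ha
      simp only [P, mem_filter] at this
      exact this.2.1 e.symm
    exact ⟨hS.bic s hs i ((hmI i).1 hi) _ (mem_insert_self _ _) _ (mem_insert_of_mem ha) hne',
      hS.bic s hs i ((hmI i).1 hi) _ (mem_insert_of_mem ha) _ (mem_insert_self _ _) hne'.symm⟩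
  have hx : s.1 ∉ I.biUnion (T A s) := by
    intro hx
    obtain ⟨i, hi, hxi⟩ := mem_biUnion.1 hx
    have := (hdig i hi _ hxi).1
    exact hS.loop _ this
  have hE : Ext I (T A s) H un bd b := by
    refine ⟨hB.b2, by omega, ?_, ?_, ?_, ?_, ?_, ?_, ?_, ?_, ?_, ?_⟩
    · intro i hi
      exact hS.card s hs i ((hmI i).1 hi)
    · intro i _ j _ hij
      rw [disjoint_left]
      intro z hz hz'
      exact hij (T_eq_of_mem hz hz')
    · rintro u v ⟨h1, h2⟩
      exact ⟨h1.symm, fun h => h2 ⟨h.2, h.1⟩⟩
    · rintro u ⟨h1, _⟩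
      exact h1 rfl
    · rintro i hi u hu v hv ⟨h1, h2⟩
      exact h2 ⟨hS.bic s hs i ((hmI i).1 hi) _ (mem_insert_of_mem hu) _ (mem_insert_of_mem hv) h1,
        hS.bic s hs i ((hmI i).1 hi) _ (mem_insert_of_mem hv) _ (mem_insert_of_mem hu) h1.symm⟩
    · intro i j h h'
      exact h (joined_symm h')
    · refine le_trans (card_le_card ?_) hun
      intro p hp
      simp only [mem_filter, mem_product, mem_univ, true_and] at hp ⊢
      exact ⟨hp.2.1, (hmI _).1 hp.1.1, (hmI _).1 hp.1.2, hp.2.2⟩
    · intro i hi z hz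
      have h1 := hS.swap s hs i ((hmI i).1 hi) z hz
      refine le_trans (card_le_card ?_) (hS.bad _ h1.1)
      intro j hj
      simp only [mem_filter, mem_univ, true_and] at hj ⊢
      obtain ⟨_, i', hi', _, hc⟩ := hj
      rw [T_eq_of_mem hz hi']
      exact hc
    · intro i hi j hj hij hJ z hz w hw hzw
      have hJ' : Joined A s i j := not_not.1 hJ
      exact ⟨i, hz, (hmI i).1 hi,
        (joinC hS hij hs ((hmI i).1 hi) ((hmI j).1 hj) hJ' hz hw hzw.2).1⟩
    · intro z hz w hw z' hz' w' hw' d2 d3 d4 d5 h1 h2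
      have hU : ∀ a ∈ I.biUnion (T A s), A s.1 a ∧ A a s.1 := by
        intro a ha
        obtain ⟨i, hi, hai⟩ := mem_biUnion.1 ha
        exact hdig i hi a hai
      set Fs := (I.biUnion (T A s)).filter (fun u => u ≠ z ∧ u ≠ w ∧ u ≠ z' ∧ u ≠ w' ∧
        ¬ H u z ∧ ¬ H u w ∧ ¬ H u z' ∧ ¬ H u w') with hFs
      have h6 : (insert s.1 Fs).card ≤ 6 := by
        refine fl (c := 3 * m + r) hB.loop hB.nc hB.cr hB.od h1.1 d2 d3 d4 d5 h2.1 h1.2 h2.2 _ ?_
        intro u hu a ha
        rcases mem_insert.1 hu with rfl | hu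
        · rcases ha with rfl | rfl | rfl | rfl
          · exact hU _ hz
          · exact hU _ hw
          · exact hU _ hz'
          · exact hU _ hw'
        · rw [hFs, mem_filter] at hu
          obtain ⟨_, e1, e2, e3, e4, f1, f2, f3, f4⟩ := hu
          have key : ∀ a, u ≠ a → ¬ H u a → A u a ∧ A a u := by
            intro a hne' hH
            by_contra hc
            exact hH ⟨hne', hc⟩
          rcases ha with rfl | rfl | rfl | rfl
          · exact key _ e1 f1
          · exact key _ e2 f2
          · exact key _ e3 f3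
          · exact key _ e4 f4
      have hxF : s.1 ∉ Fs := fun h => hx (mem_filter.1 h).1
      rw [card_insert_of_notMem hxF] at h6
      have h7 : Fs.card ≤ 5 := by omega
      convert h7
  obtain ⟨C, hC, hcov⟩ := extraction hE
  refine ⟨insert s.1 ((I.biUnion (T A s)) \ C), ?_, ?_⟩
  · intro u hu v hv huv
    rcases mem_insert.1 hu with rfl | hu'
    · rcases mem_insert.1 hv with rfl | hv'
      · exact absurd rfl huv
      · obtain ⟨i, hi, hvi⟩ := mem_biUnion.1 (mem_sdiff.1 hv').1
        exact (hdig i hi v hvi).1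
    · rcases mem_insert.1 hv with rfl | hv'
      · obtain ⟨i, hi, hui⟩ := mem_biUnion.1 (mem_sdiff.1 hu').1
        exact (hdig i hi u hui).2
      · have := hcov u hu' v hv'
        by_contra hc
        exact this ⟨huv, fun h => hc h.1⟩
  · have h1 : (I.biUnion (T A s)).card = 3 * I.card := by
      rw [card_biUnion (fun i hi j hj hij => hE.disj i hi j hj hij),
        sum_congr rfl (fun i hi => hE.card i hi), sum_const, smul_eq_mul, mul_comm]
    have h2 : s.1 ∉ (I.biUnion (T A s)) \ C := fun h => hx (mem_sdiff.1 h).1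
    rw [card_insert_of_notMem h2]
    have h3 := le_card_sdiff C (I.biUnion (T A s))
    omega

end Pool.Agent.DBK
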