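import Mathlib

/-! # DBK: dichromatic Borodin-Kostochka, definitions

`A : V → V → Prop` is the arc relation of a loopless digraph (digons allowed).
-/

namespace Pool.Agent.DBK

open Finset
open scoped Classical

/-- The subdigraph induced by `S` has no directed cycle: no vertex can be reached from itself by
a nonempty directed walk inside `S`. -/
def AcyclicOn {V : Type*} (A : V → V → Prop) (S : Set V) : Prop :=
  ∀ v, ¬ Relation.TransGen (fun x y => x ∈ S ∧ y ∈ S ∧ A x y) v v

/-- `S` can be coloured with the colours `0, ..., r-1` so that every colour class is acyclic. -/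
def Col {V : Type*} (A : V → V → Prop) (r : ℕ) (S : Finset V) : Prop :=
  ∃ φ : V → ℕ, (∀ v ∈ S, φ v < r) ∧ ∀ i, AcyclicOn A {v | v ∈ S ∧ φ v = i}

variable {V : Type*}

/-- number of out-neighbours of `x` in `S` -/
noncomputable def outd (A : V → V → Prop) (x : V) (S : Finset V) : ℕ :=
  (S.filter (fun y => A x y)).card

/-- number of in-neighbours of `x` in `S` -/
noncomputable def ind (A : V → V → Prop) (x : V) (S : Finset V) : ℕ :=
  (S.filter (fun y => A y x)).card

/-- number of arcs between `x` and `S` -/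
noncomputable def deg (A : V → V → Prop) (x : V) (S : Finset V) : ℕ :=
  outd A x S + ind A x S

/-- A state: a token `s.1` and an assignment of the vertices to the parts `some j` (`j < m`), each
with three colours, or to the rest `none`. -/
abbrev St (V : Type*) (m : ℕ) := V × (V → Option (Fin m))

variable [Fintype V] {m : ℕ}

/-- Part `j` of the state `s`; the token does not belong to it. -/
noncomputable def P (s : St V m) (j : Fin m) : Finset V :=
  univ.filter (fun v => v ≠ s.1 ∧ s.2 v = some j)

/-- The rest of the state `s`; the token does not belong to it. -/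
noncomputable def P0 (s : St V m) : Finset V :=
  univ.filter (fun v => v ≠ s.1 ∧ s.2 v = none)

/-- The out-neighbours of the token in part `j`. -/
noncomputable def T (A : V → V → Prop) (s : St V m) (j : Fin m) : Finset V :=
  (P s j).filter (fun y => A s.1 y)

/-- Part `j` is clean at `s`: there are exactly six arcs between the token and part `j`. -/
def Clean (A : V → V → Prop) (s : St V m) (j : Fin m) : Prop :=
  deg A s.1 (P s j) = 6

/-- The assignment obtained by placing the token in part `j`. -/
noncomputable def place (s : St V m) (j : Fin m) : V → Option (Fin m) :=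
  Function.update s.2 s.1 (some j)

/-- Swap: the token is placed in part `j`, and `y` is the new token. -/
noncomputable def sw (s : St V m) (j : Fin m) (y : V) : St V m :=
  (y, Function.update (place s j) y none)

/-- Energy of an assignment: the number of arcs with both ends in the same 3-colour part. -/
noncomputable def energy (A : V → V → Prop) (q : V → Option (Fin m)) : ℕ :=
  ((univ : Finset (V × V)).filter
    (fun e => A e.1 e.2 ∧ ∃ j, q e.1 = some j ∧ q e.2 = some j)).card

/-- `s` is joined at the pair `i, j`: some out-neighbour `w` of the token in part `i` and some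
out-neighbour `z` of the token in part `j`, both good for the pair, are adjacent. -/
def Joined (A : V → V → Prop) (s : St V m) (i j : Fin m) : Prop :=
  ∃ w ∈ T A s i, ∃ z ∈ T A s j, Clean A (sw s i w) j ∧ Clean A (sw s j z) i ∧ (A w z ∨ A z w)

/-- The properties of the set `O` of optimal states used by the combinatorial part. -/
structure Sys (A : V → V → Prop) (m b : ℕ) (O : Finset (St V m)) : Prop where
  loop : ∀ v, ¬ A v v
  norm : ∀ s ∈ O, s.2 s.1 = none
  bad : ∀ s ∈ O, (univ.filter (fun j => ¬ Clean A s j)).card ≤ b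
  card : ∀ s ∈ O, ∀ j, Clean A s j → (T A s j).card = 3
  bic : ∀ s ∈ O, ∀ j, Clean A s j → ∀ u ∈ insert s.1 (T A s j), ∀ v ∈ insert s.1 (T A s j),
    u ≠ v → A u v
  closed : ∀ s ∈ O, ∀ j, Clean A s j → ∀ u ∈ insert s.1 (T A s j), ∀ v ∈ P s j,
    (A u v ∨ A v u) → v ∈ T A s j
  swap : ∀ s ∈ O, ∀ j, Clean A s j → ∀ y ∈ T A s j, sw s j y ∈ O ∧ Clean A (sw s j y) j
  same : ∀ s ∈ O, ∀ s' ∈ O, ∀ j, Clean A s j → Clean A s' j → place s j = place s' j →
    s' = s ∨ ∃ y ∈ T A s j, s' = sw s j y

/-- `φ` is a colouring of `R \ {x}` with three colours and acyclic classes. -/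
def Tok (A : V → V → Prop) (R : Finset V) (x : V) (φ : V → ℕ) : Prop :=
  x ∈ R ∧ (∀ v ∈ R, v ≠ x → φ v < 3) ∧ ∀ i, AcyclicOn A {v | v ∈ R ∧ v ≠ x ∧ φ v = i}

/-- A vertex-critical set for three colours, with all in- and out-degrees equal to three. -/
structure Crit3 (A : V → V → Prop) (R : Finset V) : Prop where
  loop : ∀ v, ¬ A v v
  out3 : ∀ v ∈ R, outd A v R = 3
  in3 : ∀ v ∈ R, ind A v R = 3
  nc : ¬ Col A 3 R
  cr : ∀ v ∈ R, Col A 3 (R.erase v)

/-- The vertices of `s` in part `i` or in part `j`, together with the token. -/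
noncomputable def Vp (s : St V m) (i j : Fin m) : Finset V :=
  insert s.1 (P s i ∪ P s j)

/-- A vertex-critical digraph which is not colourable with `3m+r` colours, with out-degrees at most
`3m+r+1` and in-degrees at most `3m+r-1+b`, and `b < m`. -/
structure Base (A : V → V → Prop) (m r b : ℕ) : Prop where
  loop : ∀ v, ¬ A v v
  od : ∀ v, outd A v univ ≤ 3 * m + r + 1
  id : ∀ v, ind A v univ + 1 ≤ 3 * m + r + b
  b2 : 2 ≤ b
  bm : b < m
  nc : ¬ Col A (3 * m + r) (univ : Finset V)
  cr : ∀ v, Col A (3 * m + r) ((univ : Finset V).erase v)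

/-- A valid state. -/
def Valid (A : V → V → Prop) (r : ℕ) (s : St V m) : Prop :=
  s.2 s.1 = none ∧ (∀ j, Col A 3 (P s j)) ∧ Col A r (P0 s)

/-- An optimal state. -/
def IsOpt (A : V → V → Prop) (r : ℕ) (s : St V m) : Prop :=
  Valid A r s ∧ ∀ s' : St V m, Valid A r s' → ∀ j,
    energy A s.2 + 6 ≤ energy A s'.2 + deg A s'.1 (P s' j)

/-- A directed cycle `x = u 0, u 1, ..., u (L-1)` in `R`, of length at least three, whose vertices
other than `x` have colour `c`, and with no other arc among `u 1, ..., u (L-1)`. -/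
structure Cyc (A : V → V → Prop) (R : Finset V) (x : V) (φ : V → ℕ) (c L : ℕ) (u : ℕ → V) :
    Prop where
  L3 : 3 ≤ L
  u0 : u 0 = x
  mem : ∀ a < L, u a ∈ R
  inj : ∀ a b, a < L → b < L → u a = u b → a = b
  col : ∀ a, 0 < a → a < L → φ (u a) = c
  arc : ∀ a, a + 1 < L → A (u a) (u (a + 1))
  last : A (u (L - 1)) x
  ind : ∀ a b, 0 < a → a < L → 0 < b → b < L → A (u a) (u b) → b = a + 1

/-- A path `v 0, ..., v k` in `R` off the cycle `u`; `v 0` is the only vertex of it adjacent to
`x`, and `v k` is the only vertex of it adjacent to some vertex of the cycle other than `x`. -/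
structure Pth (A : V → V → Prop) (R : Finset V) (x : V) (L : ℕ) (u : ℕ → V) (k : ℕ) (v : ℕ → V) :
    Prop where
  mem : ∀ a ≤ k, v a ∈ R
  inj : ∀ a b, a ≤ k → b ≤ k → v a = v b → a = b
  out : ∀ a ≤ k, ∀ b < L, v a ≠ u b
  adj : ∀ a < k, A (v a) (v (a + 1)) ∨ A (v (a + 1)) (v a)
  fst : A x (v 0) ∨ A (v 0) x
  nx : ∀ a, 0 < a → a ≤ k → ¬ A x (v a) ∧ ¬ A (v a) x
  nY : ∀ a < k, ∀ b, 0 < b → b < L → ¬ A (v a) (u b) ∧ ¬ A (u b) (v a)
  lst : ∃ b, 0 < b ∧ b < L ∧ (A (v k) (u b) ∨ A (u b) (v k))

/-- Kempe relation: `a` and `b` are vertices of `R` other than the token `x`, with colours in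
`{i, j}`, and there is an arc `ab`. -/
def Kr (A : V → V → Prop) (R : Finset V) (x : V) (φ : V → ℕ) (i j : ℕ) (a b : V) : Prop :=
  A a b ∧ (a ∈ R ∧ a ≠ x ∧ (φ a = i ∨ φ a = j)) ∧ (b ∈ R ∧ b ≠ x ∧ (φ b = i ∨ φ b = j))

end Pool.Agent.DBK
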