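import Pool.Agent.DBK.TokB
import Pool.Agent.DBK.Seq

/-! # DBK: the induced directed cycle

Let `c = φ y < 3` and `S = {v ∈ R, v ≠ x, φ v = c}`, which is acyclic. `insert x S` is not acyclic, since otherwise
`R` would be 3-colourable. So there is a closed directed walk in `insert x S`; it passes
through `x` (otherwise it is in `S`). Take a closed walk `x = u 0, u 1, ..., u L = x`, `L ≥ 1`, `u t` in
`insert x S`, with arcs `u t → u (t+1)`, of minimal length `L` (`seq_of_tg`, `Nat.find`). By minimality
`u 0, ..., u (L-1)` are different and there is no arc `u a → u b` with `0 < a`, `a + 1 < b < L`;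
an arc `u a → u b` with `0 < b ≤ a < L` would give a closed walk in `S` (`tg_of_seq`). `u 1 = y` by
`tok_out_inj`, and `u (L-1) ≠ y` since `¬ A y x`. So `L ≥ 3`.
-/

namespace Pool.Agent.DBK

open Finset
open scoped Classical

variable {V : Type*} {A : V → V → Prop}

/-- a walk either avoids `x` or passes through `x` -/
theorem tg_avoid {x : V} {S : Set V} {a b : V}
    (h : Relation.TransGen (fun p q => p ∈ insert x S ∧ q ∈ insert x S ∧ A p q) a b) :
    Relation.TransGen (fun p q => p ∈ S ∧ q ∈ S ∧ A p q) a b ∨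
      (Relation.ReflTransGen (fun p q => p ∈ insert x S ∧ q ∈ insert x S ∧ A p q) a x ∧
        Relation.ReflTransGen (fun p q => p ∈ insert x S ∧ q ∈ insert x S ∧ A p q) x b) := by
  induction h with
  | @single b h1 =>
    by_cases ha : a = x
    · subst ha
      exact Or.inr ⟨Relation.ReflTransGen.refl, Relation.ReflTransGen.single h1⟩
    · by_cases hb : b = x
      · subst hb
        exact Or.inr ⟨Relation.ReflTransGen.single h1, Relation.ReflTransGen.refl⟩
      · exact Or.inl (Relation.TransGen.single
          ⟨h1.1.resolve_left ha, h1.2.1.resolve_left hb, h1.2.2⟩)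
  | @tail b d hab h1 ih =>
    rcases ih with ih | ih
    · by_cases hb : b = x
      · subst hb
        exact Or.inr ⟨hab.to_reflTransGen, Relation.ReflTransGen.single h1⟩
      · by_cases hd : d = x
        · subst hd
          exact Or.inr ⟨(hab.tail h1).to_reflTransGen, Relation.ReflTransGen.refl⟩
        · exact Or.inl (ih.tail ⟨h1.1.resolve_left hb, h1.2.1.resolve_left hd, h1.2.2⟩)
    · exact Or.inr ⟨ih.1, ih.2.tail h1⟩

theorem not_acy_insert {R : Finset V} (hR : Crit3 A R) {x : V} {φ : V → ℕ} (h : Tok A R x φ)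
    {c : ℕ} (hc : c < 3) : ¬ AcyclicOn A (insert x {v | v ∈ R ∧ v ≠ x ∧ φ v = c}) := by
  intro hac
  refine hR.nc ⟨Function.update φ x c, ?_, ?_⟩
  · intro v hv
    by_cases hvx : v = x
    · subst hvx
      rw [Function.update_self]
      exact hc
    · rw [Function.update_of_ne hvx]
      exact h.2.1 v hv hvx
  · intro i
    by_cases hi : i = c
    · subst hi
      refine acy_mono hac ?_
      rintro v ⟨hv, hvi⟩
      by_cases hvx : v = x
      · exact Or.inl hvx
      · rw [Function.update_of_ne hvx] at hvi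
        exact Or.inr ⟨hv, hvx, hvi⟩
    · refine acy_mono (h.2.2 i) ?_
      rintro v ⟨hv, hvi⟩
      by_cases hvx : v = x
      · subst hvx
        rw [Function.update_self] at hvi
        exact absurd hvi.symm hi
      · rw [Function.update_of_ne hvx] at hvi
        exact ⟨hv, hvx, hvi⟩

theorem dirB {R : Finset V} (hR : Crit3 A R) {x : V} {φ : V → ℕ} (h : Tok A R x φ) {y : V}
    (hy : y ∈ R) (hxy : A x y) (hyx : ¬ A y x) : ∃ L u, Cyc A R x φ (φ y) L u := by
  have hyx' : y ≠ x := by
    rintro rfl
    exact hR.loop _ hxy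
  have hc : φ y < 3 := h.2.1 y hy hyx'
  set S : Set V := {v | v ∈ R ∧ v ≠ x ∧ φ v = φ y} with hS
  have hSac : AcyclicOn A S := h.2.2 (φ y)
  have hna := not_acy_insert hR h hc
  rw [← hS] at hna
  set r : V → V → Prop := fun p q => p ∈ insert x S ∧ q ∈ insert x S ∧ A p q with hr
  have hxx : Relation.TransGen r x x := by
    unfold AcyclicOn at hna
    push Not at hna
    obtain ⟨z, hz⟩ := hna
    rcases tg_avoid hz with h1 | h1
    · exact absurd h1 (hSac z)
    · exact (Relation.TransGen.trans_right h1.2 hz).trans_left h1.1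
  have hex : ∃ L, 1 ≤ L ∧ ∃ u : ℕ → V, u 0 = x ∧ u L = x ∧ ∀ t < L, r (u t) (u (t + 1)) := by
    obtain ⟨n, w, hn, h0, h1, h2⟩ := seq_of_tg hxx
    exact ⟨n, hn, w, h0, h1, h2⟩
  obtain ⟨L, ⟨hL1, u, hu0, huL, hur⟩, hmin⟩ : ∃ L, (1 ≤ L ∧ ∃ u : ℕ → V, u 0 = x ∧ u L = x ∧
      ∀ t < L, r (u t) (u (t + 1))) ∧ ∀ L', (1 ≤ L' ∧ ∃ u : ℕ → V, u 0 = x ∧ u L' = x ∧
      ∀ t < L', r (u t) (u (t + 1))) → L ≤ L' :=
    ⟨Nat.find hex, Nat.find_spec hex, fun b hb => Nat.find_min' hex hb⟩
  have hne : ∀ a, 0 < a → a < L → u a ≠ x := by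
    intro a ha0 ha e
    have := hmin a ⟨ha0, u, hu0, e, fun t ht => hur t (by omega)⟩
    omega
  have hmS : ∀ a, 0 < a → a < L → u a ∈ S := fun a ha0 ha =>
    (hur a ha).1.resolve_left (hne a ha0 ha)
  have hshort : ∀ a b, a + 1 < b → b ≤ L → ¬ r (u a) (u b) := by
    intro a b hab hb hrab
    have := hmin (L - (b - a - 1)) ⟨by omega,
      fun t => if t ≤ a then u t else u (t + (b - a - 1)), by simp [hu0], ?_, ?_⟩
    · omega
    · show (if L - (b - a - 1) ≤ a then u (L - (b - a - 1)) else
        u (L - (b - a - 1) + (b - a - 1))) = x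
      rw [if_neg (by omega), show L - (b - a - 1) + (b - a - 1) = L from by omega, huL]
    · intro t ht
      show r (if t ≤ a then u t else u (t + (b - a - 1)))
        (if t + 1 ≤ a then u (t + 1) else u (t + 1 + (b - a - 1)))
      rcases Nat.lt_trichotomy t a with h1 | h1 | h1
      · rw [if_pos (by omega), if_pos (by omega)]
        exact hur t (by omega)
      · subst h1
        rw [if_pos le_rfl, if_neg (by omega), show t + 1 + (b - t - 1) = b from by omega]
        exact hrab
      · rw [if_neg (by omega), if_neg (by omega),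
          show t + 1 + (b - a - 1) = t + (b - a - 1) + 1 from by omega]
        exact hur _ (by omega)
  have hinj : ∀ a b, a < b → b < L → u a ≠ u b := by
    intro a b hab hb e
    refine hshort a (b + 1) (by omega) (by omega) ?_
    rw [e]
    exact hur b hb
  have hlast : A (u (L - 1)) x := by
    have := (hur (L - 1) (by omega)).2.2
    rwa [show L - 1 + 1 = L from by omega, huL] at this
  have hfirst : A x (u 1) := by
    have := (hur 0 (by omega)).2.2
    rwa [hu0] at this
  refine ⟨L, u, ?_, hu0, ?_, ?_, ?_, ?_, hlast, ?_⟩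
  · by_contra hL3
    have hL2 : L = 1 ∨ L = 2 := by omega
    rcases hL2 with rfl | rfl
    · rw [huL] at hfirst
      exact hR.loop _ hfirst
    · have h1 := hmS 1 one_pos (by omega)
      have h2 := tok_out_inj hR h h1.1 hy hfirst hxy h1.2.2
      rw [← h2] at hyx
      exact hyx hlast
  · intro a ha
    rcases Nat.eq_zero_or_pos a with h0 | h0
    · rw [h0, hu0]
      exact h.1
    · exact (hmS a h0 ha).1
  · intro a b ha hb e
    rcases Nat.lt_trichotomy a b with h1 | h1 | h1
    · exact absurd e (hinj a b h1 hb)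
    · exact h1
    · exact absurd e.symm (hinj b a h1 ha)
  · intro a ha0 ha
    exact (hmS a ha0 ha).2.2
  · intro a ha
    exact (hur a (by omega)).2.2
  · intro a b ha0 ha hb0 hb hA
    have hSa := hmS a ha0 ha
    have hSb := hmS b hb0 hb
    rcases Nat.lt_trichotomy b (a + 1) with h1 | h1 | h1
    · exfalso
      rcases Nat.lt_or_ge b a with h2 | h2
      · have h3 := tg_of_seq (r := fun p q => p ∈ S ∧ q ∈ S ∧ A p q) (n := a - b)
          (w := fun t => u (b + t)) (by omega) (fun t ht =>
            ⟨hmS _ (by omega) (by omega), hmS _ (by omega) (by omega),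
              (hur (b + t) (by omega)).2.2⟩)
        have h4 : b + (a - b) = a := by omega
        simp only [h4, Nat.add_zero] at h3
        exact hSac _ (h3.tail ⟨hSa, hSb, hA⟩)
      · have h3 : a = b := by omega
        subst h3
        exact hR.loop _ hA
    · exact h1
    · exact absurd ⟨Or.inr hSa, Or.inr hSb, hA⟩ (hshort a b h1 hb.le)

end Pool.Agent.DBK
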