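import Pool.Agent.DBK.TokK
import Pool.Agent.DBK.Seq

/-! # DBK: the shortest path from the token to the cycle

Let `Y = {u 0, ..., u (L-1)}`. Say that `(k, v)` is a candidate if `v a ∈ R \ Y` for `a ≤ k`, consecutive vertices
are adjacent, `v 0` is adjacent to `x`, and `v k` is adjacent to some `u b`, `0 < b < L`. A candidate
with `k` minimal satisfies `Pth`: if `v a = v b` with `a < b` cut the walk; if `v a` with `0 < a` is
adjacent to `x` start at `v a`; if `v a` with `a < k` is adjacent to some `u b`, `0 < b < L`, stop at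
`v a`. Existence of a candidate: otherwise let `W` be the set of all vertices of `R \ Y` reachable
(by a walk in `R \ Y`, arcs used in both directions) from a neighbour of `x` in `R \ Y`. No vertex of `W` is adjacent to
a vertex of `R \ W` other than `x`. Let `c' < 3`, `c' ≠ c` (`c = φ (u 1) < 3`), and let `v'` be the out-neighbour of `x` of
colour `c'` (`tok_out_exists`); it is not in `Y` (the vertices `u a`, `0 < a`, have colour `c`), so it is in `W`. Let `φ'` be the colouring
with `c` and `c'` exchanged on `W` (`tok_kempe`). Then `φ' (u 1) = c = φ' v'`, and both are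
out-neighbours of `x`; by `tok_out_inj`, `u 1 = v'`, but their colours under `φ` differ.
-/

namespace Pool.Agent.DBK

open Finset
open scoped Classical

variable {V : Type*} {A : V → V → Prop}

/-- candidates for the path -/
structure Cand (A : V → V → Prop) (R : Finset V) (x : V) (L : ℕ) (u : ℕ → V) (k : ℕ) (v : ℕ → V) :
    Prop where
  mem : ∀ a ≤ k, v a ∈ R
  out : ∀ a ≤ k, ∀ b < L, v a ≠ u b
  adj : ∀ a < k, A (v a) (v (a + 1)) ∨ A (v (a + 1)) (v a)
  fst : A x (v 0) ∨ A (v 0) x
  lst : ∃ b, 0 < b ∧ b < L ∧ (A (v k) (u b) ∨ A (u b) (v k))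

theorem pth_of_cand {R : Finset V} {x : V} {L : ℕ} {u : ℕ → V}
    (hex : ∃ k v, Cand A R x L u k v) : ∃ k v, Pth A R x L u k v := by
  obtain ⟨k, ⟨v, hv⟩, hmin⟩ : ∃ k, (∃ v, Cand A R x L u k v) ∧
      ∀ k', (∃ v, Cand A R x L u k' v) → k ≤ k' :=
    ⟨Nat.find hex, Nat.find_spec hex, fun b hb => Nat.find_min' hex hb⟩
  have hinj : ∀ a b, a < b → b ≤ k → v a ≠ v b := by
    intro a b hab hb e
    have hk : ∀ t, t ≤ k - (b - a) → ∃ t' ≤ k, (if t ≤ a then v t else v (t + (b - a))) = v t' := by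
      intro t ht
      split_ifs
      · exact ⟨t, by omega, rfl⟩
      · exact ⟨_, by omega, rfl⟩
    have := hmin (k - (b - a)) ⟨fun t => if t ≤ a then v t else v (t + (b - a)), ?_, ?_, ?_, ?_, ?_⟩
    · omega
    · intro t ht
      obtain ⟨t', ht', e'⟩ := hk t ht
      show (if t ≤ a then v t else v (t + (b - a))) ∈ R
      rw [e']
      exact hv.mem _ ht'
    · intro t ht
      obtain ⟨t', ht', e'⟩ := hk t ht
      show ∀ b_1 < L, (if t ≤ a then v t else v (t + (b - a))) ≠ u b_1
      rw [e']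
      exact hv.out _ ht'
    · intro t ht
      show A (if t ≤ a then v t else v (t + (b - a)))
          (if t + 1 ≤ a then v (t + 1) else v (t + 1 + (b - a))) ∨
        A (if t + 1 ≤ a then v (t + 1) else v (t + 1 + (b - a)))
          (if t ≤ a then v t else v (t + (b - a)))
      rcases Nat.lt_trichotomy t a with h1 | h1 | h1
      · rw [if_pos (by omega), if_pos (by omega)]
        exact hv.adj t (by omega)
      · subst h1
        rw [if_pos le_rfl, if_neg (by omega), show t + 1 + (b - t) = b + 1 from by omega, e]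
        exact hv.adj b (by omega)
      · rw [if_neg (by omega), if_neg (by omega),
          show t + 1 + (b - a) = t + (b - a) + 1 from by omega]
        exact hv.adj _ (by omega)
    · show A x (if 0 ≤ a then v 0 else v (0 + (b - a))) ∨ A (if 0 ≤ a then v 0 else v (0 + (b - a))) x
      rw [if_pos (Nat.zero_le _)]
      exact hv.fst
    · have e2 : (if k - (b - a) ≤ a then v (k - (b - a)) else v (k - (b - a) + (b - a))) = v k := by
        split_ifs with h1
        · rw [show k - (b - a) = a from by omega, e, show b = k from by omega]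
        · rw [show k - (b - a) + (b - a) = k from by omega]
      show ∃ b_1, 0 < b_1 ∧ b_1 < L ∧
        (A (if k - (b - a) ≤ a then v (k - (b - a)) else v (k - (b - a) + (b - a))) (u b_1) ∨
        A (u b_1) (if k - (b - a) ≤ a then v (k - (b - a)) else v (k - (b - a) + (b - a))))
      rw [e2]
      exact hv.lst
  refine ⟨k, v, hv.mem, ?_, hv.out, hv.adj, hv.fst, ?_, ?_, hv.lst⟩
  · intro a b ha hb e
    rcases Nat.lt_trichotomy a b with h1 | h1 | h1
    · exact absurd e (hinj a b h1 hb)
    · exact h1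
    · exact absurd e.symm (hinj b a h1 ha)
  · intro a ha0 ha
    by_contra hcon
    have hadj : A x (v a) ∨ A (v a) x := by tauto
    have := hmin (k - a) ⟨fun t => v (t + a), fun t ht => hv.mem _ (by omega),
      fun t ht => hv.out _ (by omega), ?_, ?_, ?_⟩
    · omega
    · intro t ht
      have := hv.adj (t + a) (by omega)
      show A (v (t + a)) (v (t + 1 + a)) ∨ A (v (t + 1 + a)) (v (t + a))
      rwa [show t + 1 + a = t + a + 1 from by omega]
    · show A x (v (0 + a)) ∨ A (v (0 + a)) x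
      rwa [Nat.zero_add]
    · show ∃ b, 0 < b ∧ b < L ∧ (A (v (k - a + a)) (u b) ∨ A (u b) (v (k - a + a)))
      rw [show k - a + a = k from by omega]
      exact hv.lst
  · intro a ha b hb0 hb
    by_contra hcon
    have hadj : A (v a) (u b) ∨ A (u b) (v a) := by tauto
    have := hmin a ⟨v, fun t ht => hv.mem _ (by omega), fun t ht => hv.out _ (by omega),
      fun t ht => hv.adj _ (by omega), hv.fst, ⟨b, hb0, hb, hadj⟩⟩
    omega

theorem dirC {R : Finset V} (hR : Crit3 A R) {x : V} {φ : V → ℕ} (h : Tok A R x φ) {c L : ℕ}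
    {u : ℕ → V} (hC : Cyc A R x φ c L u) : ∃ k v, Pth A R x L u k v := by
  apply pth_of_cand
  by_contra hno
  have hL := hC.L3
  set Y : Set V := {z | ∃ b < L, z = u b} with hY
  set s : V → V → Prop := fun p q => (p ∈ R ∧ p ∉ Y) ∧ (q ∈ R ∧ q ∉ Y) ∧ (A p q ∨ A q p) with hs
  set W : Set V := {z | ∃ p, (p ∈ R ∧ p ∉ Y) ∧ (A x p ∨ A p x) ∧ Relation.ReflTransGen s p z}
    with hW
  have hWR : ∀ z ∈ W, z ∈ R ∧ z ∉ Y := by
    rintro z ⟨p, hp, _, hpz⟩
    rcases Relation.ReflTransGen.cases_tail hpz with e | ⟨q, _, hq⟩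
    · rw [e]
      exact hp
    · exact hq.2.1
  have hWu : ∀ z ∈ W, ∀ b, 0 < b → b < L → ¬ (A z (u b) ∨ A (u b) z) := by
    rintro z ⟨p, hp, hxp, hpz⟩ b hb0 hb hA
    obtain ⟨n, w, hw0, hwn, hw⟩ := seq_of_rtg hpz
    have hmem : ∀ t ≤ n, w t ∈ R ∧ w t ∉ Y := by
      intro t ht
      rcases Nat.eq_zero_or_pos t with h0 | h0
      · rw [h0, hw0]
        exact hp
      · have := (hw (t - 1) (by omega)).2.1
        rwa [show t - 1 + 1 = t from by omega] at this
    refine hno ⟨n, w, fun a ha => (hmem a ha).1, fun a ha b' hb' e => (hmem a ha).2 ⟨b', hb', e⟩,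
      fun a ha => (hw a ha).2.2, ?_, ⟨b, hb0, hb, ?_⟩⟩
    · rw [hw0]
      exact hxp
    · rw [hwn]
      exact hA
  have hu1x : u 1 ≠ x := by
    intro e
    have := hC.inj 1 0 (by omega) (by omega) (by rw [e, hC.u0])
    omega
  have hc : c < 3 := by
    rw [← hC.col 1 one_pos (by omega)]
    exact h.2.1 _ (hC.mem 1 (by omega)) hu1x
  obtain ⟨c', hc', hcc⟩ : ∃ c' < 3, c' ≠ c := by
    rcases Nat.eq_zero_or_pos c with h0 | h0
    · exact ⟨1, by omega, by omega⟩
    · exact ⟨0, by omega, by omega⟩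
  obtain ⟨y, hyR, hyx, hxy, hyc⟩ := tok_out_exists hR h hc'
  have hyY : y ∉ Y := by
    rintro ⟨b, hb, e⟩
    rcases Nat.eq_zero_or_pos b with h0 | h0
    · rw [h0, hC.u0] at e
      exact hyx e
    · have := hC.col b h0 hb
      rw [← e, hyc] at this
      exact hcc this
  have hyW : y ∈ W := ⟨y, ⟨hyR, hyY⟩, Or.inl hxy, Relation.ReflTransGen.refl⟩
  have hu1Y : u 1 ∈ Y := ⟨1, by omega, rfl⟩
  have hu1W : u 1 ∉ W := fun hh => (hWR _ hh).2 hu1Y
  have hk := tok_kempe h hc hc' W (by
    intro p hp q hq _ hqx hpW hqW _ _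
    have hnot : ¬ (A p q ∨ A q p) := by
      intro hA
      by_cases hqY : q ∈ Y
      · obtain ⟨b, hb, e⟩ := hqY
        rcases Nat.eq_zero_or_pos b with h0 | h0
        · rw [h0, hC.u0] at e
          exact hqx e
        · rw [e] at hA
          exact hWu p hpW b h0 hb hA
      · apply hqW
        obtain ⟨p0, hp0, hxp0, hpp⟩ := hpW
        exact ⟨p0, hp0, hxp0, hpp.tail ⟨hWR p ⟨p0, hp0, hxp0, hpp⟩, ⟨hq, hqY⟩, hA⟩⟩
    tauto)
  have hx1 : A x (u 1) := by
    have := hC.arc 0 (by omega)
    rwa [hC.u0] at this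
  have e := tok_out_inj hR hk (hC.mem 1 (by omega)) hyR hx1 hxy (by
    show (if u 1 ∈ W then Equiv.swap c c' (φ (u 1)) else φ (u 1)) =
      (if y ∈ W then Equiv.swap c c' (φ y) else φ y)
    rw [if_neg hu1W, if_pos hyW, hyc, Equiv.swap_apply_right, hC.col 1 one_pos (by omega)])
  rw [← e] at hyY
  exact hyY hu1Y

end Pool.Agent.DBK
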