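import Pool.Agent.DBK.TokA

/-! # DBK: reversing the cycle and the path

-/

namespace Pool.Agent.DBK

open Finset
open scoped Classical

variable {V : Type*} {A : V → V → Prop}


theorem cyc_rev {R : Finset V} {x : V} {φ : V → ℕ} {c L : ℕ} {u : ℕ → V}
    (hC : Cyc A R x φ c L u) :
    Cyc (fun a b => A b a) R x φ c L (fun a => if a = 0 then x else u (L - a)) := by
  have hL := hC.L3
  have key : ∀ a, a < L → (if a = 0 then x else u (L - a)) = u (if a = 0 then 0 else L - a) := by
    intro a _
    split_ifs
    · exact hC.u0.symm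
    · rfl
  refine ⟨hL, by simp, ?_, ?_, ?_, ?_, ?_, ?_⟩
  · intro a ha
    show (if a = 0 then x else u (L - a)) ∈ R
    rw [key a ha]
    exact hC.mem _ (by split_ifs <;> omega)
  · intro a b ha hb e
    have e' : (if a = 0 then x else u (L - a)) = (if b = 0 then x else u (L - b)) := e
    rw [key a ha, key b hb] at e'
    have := hC.inj _ _ (by split_ifs <;> omega) (by split_ifs <;> omega) e'
    split_ifs at this <;> omega
  · intro a ha0 ha
    show φ (if a = 0 then x else u (L - a)) = c
    rw [if_neg (by omega)]
    exact hC.col _ (by omega) (by omega)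
  · intro a ha
    show A (if a + 1 = 0 then x else u (L - (a + 1))) (if a = 0 then x else u (L - a))
    rw [if_neg (by omega)]
    rcases Nat.eq_zero_or_pos a with h0 | h0
    · rw [if_pos h0, h0]
      exact hC.last
    · rw [if_neg (by omega)]
      have := hC.arc (L - (a + 1)) (by omega)
      rwa [show L - (a + 1) + 1 = L - a from by omega] at this
  · show A x (if L - 1 = 0 then x else u (L - (L - 1)))
    rw [if_neg (by omega), show L - (L - 1) = 1 from by omega]
    have := hC.arc 0 (by omega)
    rwa [hC.u0] at this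
  · intro a b ha0 ha hb0 hb hA
    have hA' : A (if b = 0 then x else u (L - b)) (if a = 0 then x else u (L - a)) := hA
    rw [if_neg (by omega), if_neg (by omega)] at hA'
    have := hC.ind _ _ (by omega) (by omega) (by omega) (by omega) hA'
    omega

theorem pth_rev {R : Finset V} {x : V} {L : ℕ} {u : ℕ → V} {k : ℕ} {v : ℕ → V}
    (hu0 : u 0 = x) (hP : Pth A R x L u k v) :
    Pth (fun a b => A b a) R x L (fun a => if a = 0 then x else u (L - a)) k v := by
  refine ⟨hP.mem, hP.inj, ?_, ?_, ?_, ?_, ?_, ?_⟩
  · intro a ha b hb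
    show v a ≠ (if b = 0 then x else u (L - b))
    split_ifs with h0
    · rw [← hu0]
      exact hP.out a ha 0 (by omega)
    · exact hP.out a ha _ (by omega)
  · intro a ha
    exact (hP.adj a ha).symm
  · exact hP.fst.symm
  · intro a ha0 ha
    exact ⟨(hP.nx a ha0 ha).2, (hP.nx a ha0 ha).1⟩
  · intro a ha b hb0 hb
    show ¬ A (if b = 0 then x else u (L - b)) (v a) ∧ ¬ A (v a) (if b = 0 then x else u (L - b))
    rw [if_neg (by omega)]
    have := hP.nY a ha (L - b) (by omega) (by omega)
    exact ⟨this.2, this.1⟩
  · obtain ⟨b, hb0, hb, hA⟩ := hP.lst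
    refine ⟨L - b, by omega, by omega, ?_⟩
    show A (if L - b = 0 then x else u (L - (L - b))) (v k) ∨
      A (v k) (if L - b = 0 then x else u (L - (L - b)))
    rw [if_neg (by omega), show L - (L - b) = b from by omega]
    exact hA.symm

end Pool.Agent.DBK
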