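import Pool.Agent.DBK.DirA
import Pool.Agent.DBK.DirB
import Pool.Agent.DBK.DirC
import Pool.Agent.DBK.DirD

/-! # DBK: all arcs are digons

By contradiction: `tok_exists`, `dirB`, `dirC`. By `hP.fst` the vertex `v 0` is an in-neighbour of `x`
(use `dirA`) or an out-neighbour (use `dirA` for the reversed digraph, `crit3_flip`, `tok_flip`,
`cyc_rev`, `pth_rev`).
-/

namespace Pool.Agent.DBK

open Finset
open scoped Classical

variable {V : Type*} {A : V → V → Prop}


theorem bidir {R : Finset V} (hR : Crit3 A R) {x y : V} (hx : x ∈ R) (hy : y ∈ R)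
    (hxy : A x y) : A y x := by
  by_contra hyx
  obtain ⟨φ, hφ⟩ := tok_exists hR hx
  obtain ⟨L, u, hC⟩ := dirB hR hφ hy hxy hyx
  obtain ⟨k, v, hP⟩ := dirC hR hφ hC
  rcases hP.fst with h | h
  · exact dirA (crit3_flip hR) (tok_flip hφ) (cyc_rev hC) (pth_rev hC.u0 hP) h
  · exact dirA hR hφ hC hP h

end Pool.Agent.DBK
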