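import Pool.Agent.DBK.Rot

/-! # DBK: the main case of bidirectedness

`v 0` is a neighbour of `x` off the cycle, so `φ (v 0) ≠ c`: the in-neighbour of `x` of colour `c` is
`u (L-1)` (`tok_in_inj`). Let `i` be the least index `0 < i < L` such that `v k` and `u i` are adjacent
(`hP.lst`).
Case `i ≤ L - 2`: apply `rot_in` to the closed walk `x, u 1, ..., u i, v k, v (k-1), ..., v 0`
(`N = i + k + 2`, that is `w t = u t` for `t ≤ i` and `w t = v (i + 1 + k - t)` for `i < t`): the only
in-neighbour of `x` in it is `v 0`, since the vertices `u 1, ..., u i` have colour `c` and the only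
in-neighbour of `x` of colour `c` is `u (L-1)`, and `v 1, ..., v k` are not adjacent to `x`.
Case `i = L - 1`: apply `rot_out` to the closed walk `x, u 1, ..., u (L-1), v k, ..., v 0`
(`N = L + k + 1`), with `e = 1`, `f = 2`: the only out-neighbour of `u 1` in it is `u 2`
(`hC.ind`; `u 1` is not an in-neighbour of `x`, as `u (L-1)` is the only one of colour `c` and
`L ≥ 3`; `v 0, ..., v (k-1)` are not adjacent to `u 1`; `v k` is not adjacent to `u 1` by the choice
of `i`). In both cases `φ (v 0) = φ (u 1) = c`, a contradiction.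
-/

namespace Pool.Agent.DBK

open Finset
open scoped Classical

variable {V : Type*} {A : V → V → Prop}

/-- the closed walk `x, u 1, ..., u i, v k, ..., v 0` -/
def wkA (i k : ℕ) (u v : ℕ → V) (t : ℕ) : V := if t ≤ i then u t else v (i + 1 + k - t)

theorem wkA_le {i k t : ℕ} {u v : ℕ → V} (h : t ≤ i) : wkA i k u v t = u t := by
  simp [wkA, h]

theorem wkA_gt {i k t : ℕ} {u v : ℕ → V} (h : i < t) : wkA i k u v t = v (i + 1 + k - t) := by
  have : ¬ t ≤ i := by omega
  simp [wkA, this]

theorem wkA_inj {R : Finset V} {x : V} {φ : V → ℕ} {c L : ℕ}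
    {u : ℕ → V} (hC : Cyc A R x φ c L u) {k : ℕ} {v : ℕ → V} (hP : Pth A R x L u k v) {i : ℕ}
    (hi : i < L) : ∀ s t, s < i + k + 2 → t < i + k + 2 → wkA i k u v s = wkA i k u v t →
      s = t := by
  intro s t hs ht e
  rcases Nat.lt_or_ge i s with h1 | h1
  · rcases Nat.lt_or_ge i t with h2 | h2
    · rw [wkA_gt h1, wkA_gt h2] at e
      have := hP.inj _ _ (by omega) (by omega) e
      omega
    · rw [wkA_gt h1, wkA_le h2] at e
      exact absurd e (hP.out _ (by omega) _ (by omega))
  · rcases Nat.lt_or_ge i t with h2 | h2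
    · rw [wkA_le h1, wkA_gt h2] at e
      exact absurd e.symm (hP.out _ (by omega) _ (by omega))
    · rw [wkA_le h1, wkA_le h2] at e
      exact hC.inj _ _ (by omega) (by omega) e

theorem wkA_mem {R : Finset V} {x : V} {φ : V → ℕ} {c L : ℕ}
    {u : ℕ → V} (hC : Cyc A R x φ c L u) {k : ℕ} {v : ℕ → V} (hP : Pth A R x L u k v) {i : ℕ}
    (hi : i < L) : ∀ s < i + k + 2, wkA i k u v s ∈ R := by
  intro s hs
  rcases Nat.lt_or_ge i s with h1 | h1
  · rw [wkA_gt h1]
    exact hP.mem _ (by omega)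
  · rw [wkA_le h1]
    exact hC.mem _ (by omega)

theorem wkA_adj {R : Finset V} {x : V} {φ : V → ℕ} {c L : ℕ}
    {u : ℕ → V} (hC : Cyc A R x φ c L u) {k : ℕ} {v : ℕ → V} (hP : Pth A R x L u k v) {i : ℕ}
    (hi : i < L) (hA : A (v k) (u i) ∨ A (u i) (v k)) : ∀ s, s + 1 < i + k + 2 →
      A (wkA i k u v s) (wkA i k u v (s + 1)) ∨ A (wkA i k u v (s + 1)) (wkA i k u v s) := by
  intro s hs
  rcases Nat.lt_or_ge i s with h1 | h1
  · rw [wkA_gt h1, wkA_gt (by omega)]
    have h2 := hP.adj (i + k - s) (by omega)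
    rw [show i + 1 + k - (s + 1) = i + k - s from by omega,
      show i + 1 + k - s = i + k - s + 1 from by omega]
    exact h2.symm
  · rcases Nat.lt_or_ge s i with h2 | h2
    · rw [wkA_le h1, wkA_le (by omega)]
      exact Or.inl (hC.arc _ (by omega))
    · have h3 : s = i := by omega
      subst h3
      rw [wkA_le le_rfl, wkA_gt (by omega), show s + 1 + k - (s + 1) = k from by omega]
      exact hA.symm

theorem dirA {R : Finset V} (hR : Crit3 A R) {x : V} {φ : V → ℕ} (h : Tok A R x φ) {c L : ℕ}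
    {u : ℕ → V} (hC : Cyc A R x φ c L u) {k : ℕ} {v : ℕ → V} (hP : Pth A R x L u k v)
    (h0 : A (v 0) x) : False := by
  have hL := hC.L3
  have hlast : ∀ y ∈ R, A y x → φ y = c → y = u (L - 1) := fun y hy hyx e =>
    tok_in_inj hR h hy (hC.mem _ (by omega)) hyx hC.last
      (by rw [e, hC.col (L - 1) (by omega) (by omega)])
  have hv0 : φ (v 0) ≠ c := fun e =>
    hP.out 0 (Nat.zero_le _) (L - 1) (by omega) (hlast _ (hP.mem 0 (Nat.zero_le _)) h0 e)
  obtain ⟨i, ⟨hi0, hiL, hiA⟩, hmin⟩ : ∃ i, (0 < i ∧ i < L ∧ (A (v k) (u i) ∨ A (u i) (v k))) ∧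
      ∀ b, (0 < b ∧ b < L ∧ (A (v k) (u b) ∨ A (u b) (v k))) → i ≤ b :=
    ⟨Nat.find hP.lst, Nat.find_spec hP.lst, fun b hb => Nat.find_min' hP.lst hb⟩
  have w0 : wkA i k u v 0 = x := by rw [wkA_le (Nat.zero_le _), hC.u0]
  have w1 : wkA i k u v 1 = u 1 := wkA_le hi0
  have wl : wkA i k u v (i + k + 2 - 1) = v 0 := by
    rw [wkA_gt (by omega), show i + 1 + k - (i + k + 2 - 1) = 0 from by omega]
  have hfin : φ (wkA i k u v 1) = φ (wkA i k u v (i + k + 2 - 1)) → False := by
    rw [w1, wl, hC.col 1 one_pos (by omega)]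
    exact fun e => hv0 e.symm
  have hTok : Tok A R (wkA i k u v 0) φ := by rw [w0]; exact h
  have hadjl : A (wkA i k u v (i + k + 2 - 1)) (wkA i k u v 0) ∨
      A (wkA i k u v 0) (wkA i k u v (i + k + 2 - 1)) := by rw [wl, w0]; exact Or.inl h0
  rcases Nat.lt_or_ge i (L - 1) with hc | hc
  · refine hfin (rot_in hR (N := i + k + 2) (by omega) (wkA i k u v) (wkA_inj hC hP hiL)
      (wkA_mem hC hP hiL) (wkA_adj hC hP hiL hiA) hadjl hTok (e := 0) (f := i + k + 2 - 1)
      (by omega) (by omega) (by rw [wl, w0]; exact h0) ?_ 1 (i + k + 2 - 1) (by omega) (by omega)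
      (by omega) (by omega))
    intro g hg hgA
    rw [w0] at hgA
    rcases Nat.lt_or_ge i g with h1 | h1
    · rw [wkA_gt h1] at hgA
      by_contra hne
      exact (hP.nx _ (by omega) (by omega)).2 hgA
    · rw [wkA_le h1] at hgA
      rcases Nat.eq_zero_or_pos g with h2 | h2
      · subst h2
        rw [hC.u0] at hgA
        exact absurd hgA (hR.loop _)
      · have := hC.inj _ _ (by omega) (by omega)
          (hlast _ (hC.mem g (by omega)) hgA (hC.col g h2 (by omega)))
        omega
  · have w2 : wkA i k u v 2 = u 2 := wkA_le (by omega)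
    refine hfin (rot_out hR (N := i + k + 2) (by omega) (wkA i k u v) (wkA_inj hC hP hiL)
      (wkA_mem hC hP hiL) (wkA_adj hC hP hiL hiA) hadjl hTok (e := 1) (f := 2)
      (by omega) (by omega) (by rw [w1, w2]; exact hC.arc 1 (by omega)) ?_ 1 (i + k + 2 - 1)
      (by omega) (by omega) (by omega) (by omega))
    intro g hg hgA
    rw [w1] at hgA
    rcases Nat.lt_or_ge i g with h1 | h1
    · exfalso
      rw [wkA_gt h1] at hgA
      rcases Nat.lt_or_ge (i + 1 + k - g) k with h2 | h2
      · exact (hP.nY _ h2 1 one_pos (by omega)).2 hgA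
      · have h3 : i + 1 + k - g = k := by omega
        rw [h3] at hgA
        have := hmin 1 ⟨one_pos, by omega, Or.inr hgA⟩
        omega
    · rw [wkA_le h1] at hgA
      rcases Nat.eq_zero_or_pos g with h2 | h2
      · exfalso
        subst h2
        rw [hC.u0] at hgA
        have := hC.inj _ _ (by omega) (by omega)
          (hlast _ (hC.mem 1 (by omega)) hgA (hC.col 1 one_pos (by omega)))
        omega
      · exact hC.ind 1 g one_pos (by omega) h2 (by omega) hgA

end Pool.Agent.DBK
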