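import Pool.Agent.DBK.ExDefs

/-! # DBK: essential pairs have many unjoined partners

Let `z, z' ∈ T a`, `w, w' ∈ T d` be the vertices in `ess`. Let `X` be the set of the `j ∈ I` which are not in the set on the right and which are not bad
(`bd`) for any of the four vertices; by `h.bdcard` it suffices to show `X.card ≤ 1`. `a ∉ X`: if `un a d` then `a` is in the set on the right
(`un d a`), otherwise `bd w a` by `h.Hbd`; similarly `d ∉ X`. For `j ∈ X` no vertex of `T j` is `H`-adjacent to one of the four vertices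
(`h.Hbd`, `h.Hsymm`), so `T j` is contained in the set in `h.fl`, which has at most five elements; each `T j` has three elements and they
are disjoint.
-/

namespace Pool.Agent.DBK

open Finset
open scoped Classical

variable {V ι : Type*} {I : Finset ι} {T : ι → Finset V} {H : V → V → Prop}
  {un : ι → ι → Prop} {bd : V → ι → Prop} {b : ℕ}


theorem exA (h : Ext I T H un bd b) {a d : ι} (ha : a ∈ I) (hd : d ∈ I) (had : ess T H a d) :
    I.card ≤ (I.filter (fun j => (j ≠ a ∧ un a j) ∨ (j ≠ d ∧ un d j))).card + 4 * b + 1 := by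
  obtain ⟨hne, z, hz, z', hz', w, hw, w', hw', hzz, hww, H1, H2⟩ := had
  set U := I.filter (fun j => (j ≠ a ∧ un a j) ∨ (j ≠ d ∧ un d j)) with hU
  set B1 := I.filter (fun j => bd z j) with hB1
  set B2 := I.filter (fun j => bd z' j) with hB2
  set B3 := I.filter (fun j => bd w j) with hB3
  set B4 := I.filter (fun j => bd w' j) with hB4
  have c1 := h.bdcard a ha z hz
  have c2 := h.bdcard a ha z' hz'
  have c3 := h.bdcard d hd w hw
  have c4 := h.bdcard d hd w' hw'
  rw [← hB1] at c1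
  rw [← hB2] at c2
  rw [← hB3] at c3
  rw [← hB4] at c4
  set X := I.filter (fun j => j ∉ U ∧ j ∉ B1 ∧ j ∉ B2 ∧ j ∉ B3 ∧ j ∉ B4) with hX
  have hcov : I ⊆ X ∪ (U ∪ (B1 ∪ (B2 ∪ (B3 ∪ B4)))) := by
    intro j hj
    simp only [mem_union]
    by_cases h0 : j ∈ U
    · tauto
    by_cases h1 : j ∈ B1
    · tauto
    by_cases h2 : j ∈ B2
    · tauto
    by_cases h3 : j ∈ B3
    · tauto
    by_cases h4 : j ∈ B4
    · tauto
    left
    rw [hX, mem_filter]
    exact ⟨hj, h0, h1, h2, h3, h4⟩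
  have hcard : I.card ≤ X.card + (U.card + (b + (b + (b + b)))) := by
    refine (card_le_card hcov).trans ((card_union_le _ _).trans ?_)
    refine Nat.add_le_add_left ((card_union_le _ _).trans ?_) _
    refine Nat.add_le_add_left ((card_union_le _ _).trans ?_) _
    refine Nat.add_le_add c1 ((card_union_le _ _).trans ?_)
    refine Nat.add_le_add c2 ((card_union_le _ _).trans ?_)
    exact Nat.add_le_add c3 c4
  have hX1 : X.card ≤ 1 := by
    have memU : ∀ j, j ∈ X → ¬ ((j ≠ a ∧ un a j) ∨ (j ≠ d ∧ un d j)) := by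
      intro j hj hc
      rw [hX, mem_filter] at hj
      exact hj.2.1 (by rw [hU, mem_filter]; exact ⟨hj.1, hc⟩)
    have memB : ∀ j, j ∈ X → ¬ bd z j ∧ ¬ bd z' j ∧ ¬ bd w j ∧ ¬ bd w' j := by
      intro j hj
      rw [hX, mem_filter] at hj
      obtain ⟨hjI, -, h1, h2, h3, h4⟩ := hj
      rw [hB1, mem_filter] at h1
      rw [hB2, mem_filter] at h2
      rw [hB3, mem_filter] at h3
      rw [hB4, mem_filter] at h4
      exact ⟨fun hb => h1 ⟨hjI, hb⟩, fun hb => h2 ⟨hjI, hb⟩, fun hb => h3 ⟨hjI, hb⟩,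
        fun hb => h4 ⟨hjI, hb⟩⟩
    have nea : ∀ j, j ∈ X → j ≠ a := by
      rintro j hj rfl
      by_cases hun : un j d
      · exact memU j hj (Or.inr ⟨hne, h.unsymm _ _ hun⟩)
      · exact (memB j hj).2.2.1 (h.Hbd d hd j ha hne.symm (fun hc => hun (h.unsymm _ _ hc)) w hw
          z hz (h.Hsymm _ _ H1))
    have ned : ∀ j, j ∈ X → j ≠ d := by
      rintro j hj rfl
      by_cases hun : un a j
      · exact memU j hj (Or.inl ⟨hne.symm, hun⟩)
      · exact (memB j hj).1 (h.Hbd a ha j hd hne hun z hz w hw H1)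
    have memI : ∀ j, j ∈ X → j ∈ I := by
      intro j hj
      rw [hX, mem_filter] at hj
      exact hj.1
    have nH : ∀ j ∈ X, ∀ u ∈ T j, u ≠ z ∧ u ≠ w ∧ u ≠ z' ∧ u ≠ w' ∧
        ¬ H u z ∧ ¬ H u w ∧ ¬ H u z' ∧ ¬ H u w' := by
      intro j hj u hu
      have hja := nea j hj
      have hjd := ned j hj
      have hjI := memI j hj
      have hna : ¬ un a j := fun hc => memU j hj (Or.inl ⟨hja, hc⟩)
      have hnd : ¬ un d j := fun hc => memU j hj (Or.inr ⟨hjd, hc⟩)
      have hB := memB j hj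
      have dja := h.disj j hjI a ha hja
      have djd := h.disj j hjI d hd hjd
      rw [disjoint_left] at dja djd
      refine ⟨?_, ?_, ?_, ?_, ?_, ?_, ?_, ?_⟩
      · rintro rfl; exact dja hu hz
      · rintro rfl; exact djd hu hw
      · rintro rfl; exact dja hu hz'
      · rintro rfl; exact djd hu hw'
      · intro hc
        exact hB.1 (h.Hbd a ha j hjI hja.symm hna z hz u hu (h.Hsymm _ _ hc))
      · intro hc
        exact hB.2.2.1 (h.Hbd d hd j hjI hjd.symm hnd w hw u hu (h.Hsymm _ _ hc))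
      · intro hc
        exact hB.2.1 (h.Hbd a ha j hjI hja.symm hna z' hz' u hu (h.Hsymm _ _ hc))
      · intro hc
        exact hB.2.2.2 (h.Hbd d hd j hjI hjd.symm hnd w' hw' u hu (h.Hsymm _ _ hc))
    by_contra hcon
    push Not at hcon
    obtain ⟨j1, hj1, j2, hj2, hj12⟩ := one_lt_card.1 hcon
    have hbU : ∀ i ∈ I, ∀ u ∈ T i, u ∈ I.biUnion T := fun i hi u hu =>
      mem_biUnion.2 ⟨i, hi, hu⟩
    have dad := h.disj a ha d hd hne
    rw [disjoint_left] at dad
    have hfl := h.fl z (hbU a ha z hz) w (hbU d hd w hw) z' (hbU a ha z' hz') w' (hbU d hd w' hw')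
      hzz (fun hc => dad hz (hc ▸ hw')) (fun hc => dad (hc ▸ hz') hw) hww H1 H2
    have hsub : T j1 ∪ T j2 ⊆ ((I.biUnion T).filter (fun u => u ≠ z ∧ u ≠ w ∧ u ≠ z' ∧ u ≠ w' ∧
      ¬ H u z ∧ ¬ H u w ∧ ¬ H u z' ∧ ¬ H u w')) := by
      intro u hu
      rw [mem_filter]
      rcases mem_union.1 hu with hu | hu
      · exact ⟨hbU j1 (memI j1 hj1) u hu, nH j1 hj1 u hu⟩
      · exact ⟨hbU j2 (memI j2 hj2) u hu, nH j2 hj2 u hu⟩
    have h6 : (T j1 ∪ T j2).card = 6 := by
      rw [card_union_of_disjoint (h.disj j1 (memI j1 hj1) j2 (memI j2 hj2) hj12),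
        h.card j1 (memI j1 hj1), h.card j2 (memI j2 hj2)]
    have := (card_le_card hsub).trans hfl
    omega
  omega

end Pool.Agent.DBK
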