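import Pool.Agent.DBK.ExDefs

/-! # DBK: pairs which are not essential are stars

If all pairs in the set have the same first component, the set injects into `Y`; if all have the same
second component, into `X`. Otherwise there are pairs `(z, w)`, `(z', w')` with `z ≠ z'`; so `w = w'`; and a
pair `(p, q)` with `q ≠ w`; then `p = z` and `p = z'`, a contradiction.
-/

namespace Pool.Agent.DBK

open Finset
open scoped Classical

theorem star {V : Type*} {H : V → V → Prop} {X Y : Finset V} (hX : X.card = 3)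
    (hY : Y.card = 3)
    (h : ∀ z ∈ X, ∀ z' ∈ X, ∀ w ∈ Y, ∀ w' ∈ Y, z ≠ z' → w ≠ w' → H z w → ¬ H z' w') :
    ((X ×ˢ Y).filter (fun p => H p.1 p.2)).card ≤ 3 := by
  set S := (X ×ˢ Y).filter (fun p => H p.1 p.2) with hS
  have key : ∀ p ∈ S, ∀ q ∈ S, p.1 ≠ q.1 → p.2 = q.2 := by
    intro p hp q hq hpq
    rw [hS, mem_filter, mem_product] at hp hq
    by_contra hne
    exact h p.1 hp.1.1 q.1 hq.1.1 p.2 hp.1.2 q.2 hq.1.2 hpq hne hp.2 hq.2
  by_cases h1 : ∀ p ∈ S, ∀ q ∈ S, p.1 = q.1
  · rw [← hY]
    apply card_le_card_of_injOn Prod.snd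
    · intro p hp
      have hp' : p ∈ S := hp
      rw [hS, mem_filter, mem_product] at hp'
      exact hp'.1.2
    · intro p hp q hq hpq
      exact Prod.ext (h1 p hp q hq) hpq
  · push Not at h1
    obtain ⟨p, hp, q, hq, hpq⟩ := h1
    have h2 : ∀ r ∈ S, r.2 = p.2 := by
      intro r hr
      by_cases hrp : r.1 = p.1
      · have : r.1 ≠ q.1 := by rw [hrp]; exact hpq
        rw [key r hr q hq this, key p hp q hq hpq]
      · exact key r hr p hp hrp
    rw [← hX]
    apply card_le_card_of_injOn Prod.fst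
    · intro r hr
      have hr' : r ∈ S := hr
      rw [hS, mem_filter, mem_product] at hr'
      exact hr'.1.1
    · intro r hr r' hr' hrr
      exact Prod.ext hrr ((h2 r hr).trans (h2 r' hr').symm)

end Pool.Agent.DBK
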