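import Pool.Agent.DBK.ExA

/-! # DBK: matchings of essential pairs

`exC`: for `e ∈ M` let `X e` be the set of the `j ∈ I \ ends M` with `un e.1 j` or `un e.2 j`. By `exA` and `ends_card`,
`I.card ≤ (X e).card + 4b + 1 + 2 M.card`. The ordered pairs `(a, j)` with `a ∈ ends M`, `j ∈ I \ ends M`, `un a j` are at least `∑ e ∈ M, (X e).card` many
(the edges of `M` are disjoint); together with the reversed pairs and with `Un un (I \ ends M)` they are at most `b * I.card` (`h.uncard`).
`exC'`: `mat_dich` with `n = b / 2 + 1` (`ess` is irreflexive). A matching with exactly `n` edges contradicts `exC`: with `t = 2 n`, `b + 1 ≤ t ≤ b + 2`, it would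
give `(t - b) * I.card ≤ t * (4b + 1 + t)`; here `t = b + 1` gives `I.card ≤ (b+1)(5b+2)`, `t = b + 2` gives
`2 * I.card ≤ (b+2)(5b+3)`, against `11 b² ≤ I.card`, `2 ≤ b`.
-/

namespace Pool.Agent.DBK

open Finset
open scoped Classical

variable {V ι : Type*} {I : Finset ι} {T : ι → Finset V} {H : V → V → Prop}
  {un : ι → ι → Prop} {bd : V → ι → Prop} {b : ℕ}

theorem exC (h : Ext I T H un bd b) {M : Finset (ι × ι)} (hM : IsMat (ess T H) I M) :
    2 * M.card * I.card + (Un un (I \ ends M)).card ≤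
      b * I.card + 2 * M.card * (4 * b + 1 + 2 * M.card) := by
  have hirr : ∀ a, ¬ ess T H a a := fun a h => h.1 rfl
  have hes := ends_sub hM
  have hec := ends_card hirr hM
  let We : ι × ι → Finset (ι × ι) := fun e =>
    (({e.1, e.2} : Finset ι) ×ˢ (I \ ends M)).filter (fun p => un p.1 p.2)
  have hWe : ∀ e p, p ∈ We e ↔ (p.1 = e.1 ∨ p.1 = e.2) ∧ (p.2 ∈ I ∧ p.2 ∉ ends M) ∧
      un p.1 p.2 := by
    intro e p
    simp only [We, mem_filter, mem_product, mem_insert, mem_singleton, mem_sdiff]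
    tauto
  have h1 : ∀ e ∈ M, I.card ≤ (We e).card + (4 * b + 1 + 2 * M.card) := by
    intro e he
    obtain ⟨h1, h2, h3⟩ := hM.1 e he
    have hA := exA h h1 h2 h3
    have hsub : (I.filter (fun j => (j ≠ e.1 ∧ un e.1 j) ∨ (j ≠ e.2 ∧ un e.2 j))) ⊆
        (We e).image Prod.snd ∪ ends M := by
      intro j hj
      rw [mem_filter] at hj
      by_cases hjm : j ∈ ends M
      · exact mem_union_right _ hjm
      · apply mem_union_left
        rw [mem_image]
        rcases hj.2 with ⟨_, hu⟩ | ⟨_, hu⟩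
        · exact ⟨(e.1, j), (hWe _ _).2 ⟨Or.inl rfl, ⟨hj.1, hjm⟩, hu⟩, rfl⟩
        · exact ⟨(e.2, j), (hWe _ _).2 ⟨Or.inr rfl, ⟨hj.1, hjm⟩, hu⟩, rfl⟩
    have h4 := card_le_card hsub
    have h5 := card_union_le ((We e).image Prod.snd) (ends M)
    have h6 : ((We e).image Prod.snd).card ≤ (We e).card := card_image_le
    omega
  have h2 : M.card * I.card ≤ (∑ e ∈ M, (We e).card) + M.card * (4 * b + 1 + 2 * M.card) := by
    have := Finset.sum_le_sum h1
    rw [Finset.sum_const, Finset.sum_add_distrib, Finset.sum_const] at this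
    simpa [smul_eq_mul] using this
  let W : Finset (ι × ι) := (ends M ×ˢ (I \ ends M)).filter (fun p => un p.1 p.2)
  have hW : ∀ p, p ∈ W ↔ p.1 ∈ ends M ∧ (p.2 ∈ I ∧ p.2 ∉ ends M) ∧ un p.1 p.2 := by
    intro p
    simp only [W, mem_filter, mem_product, mem_sdiff]
    tauto
  have h3 : (∑ e ∈ M, (We e).card) ≤ W.card := by
    rw [← Finset.card_biUnion]
    · apply card_le_card
      intro p hp
      rw [mem_biUnion] at hp
      obtain ⟨e, he, hp⟩ := hp
      rw [hWe] at hp
      rw [hW]
      refine ⟨?_, hp.2.1, hp.2.2⟩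
      unfold ends
      rcases hp.1 with h0 | h0
      · rw [h0]
        exact mem_union_left _ (mem_image_of_mem _ he)
      · rw [h0]
        exact mem_union_right _ (mem_image_of_mem _ he)
    · intro e he e' he' hne
      change Disjoint (We e) (We e')
      rw [Finset.disjoint_left]
      intro p hp hp'
      rw [hWe] at hp hp'
      obtain ⟨n1, n2, n3, n4⟩ := hM.2 e he e' he' hne
      rcases hp.1 with h0 | h0 <;> rcases hp'.1 with h0' | h0'
      · exact n1 (h0.symm.trans h0')
      · exact n2 (h0.symm.trans h0')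
      · exact n3 (h0.symm.trans h0')
      · exact n4 (h0.symm.trans h0')
  have hUn : ∀ p, p ∈ Un un (I \ ends M) ↔ (p.1 ∈ I ∧ p.1 ∉ ends M) ∧ (p.2 ∈ I ∧ p.2 ∉ ends M) ∧
      p.1 ≠ p.2 ∧ un p.1 p.2 := by
    intro p
    simp only [Un, mem_filter, mem_product, mem_sdiff]
    tauto
  have h4 : 2 * W.card + (Un un (I \ ends M)).card ≤ b * I.card := by
    refine le_trans ?_ h.uncard
    have hsw : (W.image Prod.swap).card = W.card :=
      card_image_of_injective _ Prod.swap_injective
    have hWs : ∀ p, p ∈ W.image Prod.swap ↔ Prod.swap p ∈ W := by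
      intro p
      rw [mem_image]
      constructor
      · rintro ⟨q, hq, rfl⟩
        simpa using hq
      · intro hp
        exact ⟨Prod.swap p, hp, by simp⟩
    have d1 : Disjoint W (W.image Prod.swap) := by
      rw [Finset.disjoint_left]
      intro p hp hp'
      rw [hWs, hW] at hp'
      rw [hW] at hp
      exact hp'.2.1.2 hp.1
    have d2 : Disjoint (W ∪ W.image Prod.swap) (Un un (I \ ends M)) := by
      rw [Finset.disjoint_left]
      intro p hp hp'
      rw [hUn] at hp'
      rw [mem_union, hWs, hW, hW] at hp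
      rcases hp with hp | hp
      · exact hp'.1.2 hp.1
      · exact hp'.2.1.2 hp.1
    have hc : ((W ∪ W.image Prod.swap) ∪ (Un un (I \ ends M))).card =
        2 * W.card + (Un un (I \ ends M)).card := by
      rw [card_union_of_disjoint d2, card_union_of_disjoint d1, hsw]
      ring
    rw [← hc]
    apply card_le_card
    intro p hp
    rw [mem_union, mem_union, hWs, hW, hW, hUn] at hp
    rw [mem_filter, mem_product]
    rcases hp with (hp | hp) | hp
    · refine ⟨⟨hes hp.1, hp.2.1.1⟩, ?_, hp.2.2⟩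
      intro h0
      exact hp.2.1.2 (h0 ▸ hp.1)
    · refine ⟨⟨hp.2.1.1, hes hp.1⟩, ?_, h.unsymm _ _ hp.2.2⟩
      intro h0
      apply hp.2.1.2
      have h1 : (Prod.swap p).1 ∈ ends M := hp.1
      have e1 : (Prod.swap p).1 = p.2 := rfl
      have e2 : (Prod.swap p).2 = p.1 := rfl
      rw [e1] at h1
      rw [e2, h0]
      exact h1
    · exact ⟨⟨hp.1.1, hp.2.1.1⟩, hp.2.2.1, hp.2.2.2⟩
  nlinarith [h2, h3, h4]

theorem exC' (h : Ext I T H un bd b) : ∃ M : Finset (ι × ι), IsMat (ess T H) I M ∧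
    2 * M.card ≤ b ∧ ∀ i ∈ I \ ends M, ∀ j ∈ I \ ends M, ¬ ess T H i j := by
  have hirr : ∀ a, ¬ ess T H a a := fun a h => h.1 rfl
  rcases mat_dich hirr I (b / 2 + 1) with ⟨M, hM, hc⟩ | ⟨M, hM, hc, hx⟩
  · exfalso
    have h1 := exC h hM
    have hb := h.b2
    have hbig := h.big
    have h2 : 2 * M.card = b + 1 ∨ 2 * M.card = b + 2 := by omega
    have h3 : 2 * M.card * I.card ≤ b * I.card + 2 * M.card * (4 * b + 1 + 2 * M.card) := by
      omega
    rcases h2 with h2 | h2
    · rw [h2] at h3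
      nlinarith
    · rw [h2] at h3
      nlinarith
  · refine ⟨M, hM, by omega, ?_⟩
    intro i hi j hj hij
    rw [mem_sdiff] at hi hj
    rcases hx i hi.1 j hj.1 hij with h0 | h0
    · exact hi.2 h0
    · exact hj.2 h0

end Pool.Agent.DBK
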