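import Pool.Agent.DBK.ExB

/-! # DBK: the degrees of vertices outside the essential parts

`exD`: an `H`-neighbour `u ∈ T j` of `a`: `j ∉ K` (at most `3 * (I \ K).card` vertices), or `j ∈ K` is bad for `a` (at most
`3 * b` vertices), or `j ∈ K` is not bad; then `j ≠ i` (`h.Hin`) and `un i j` (`h.Hbd`), so `(i, j) ∈ Un un K`.
`exD'`: let `X` be the set of all pairs `(a, u)`, `a, u ∈ K.biUnion T`, with `H a u` and `∃ p ∈ Un un K, a ∈ T p.1 ∧ u ∈ T p.2`. By `star`, `X` has at most `3 * (Un un K).card` elements, and it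
is symmetric. The sum is `|X1|` for `X1 = {(a, u) ∈ X, a ∈ Q}`. The reversed set `X2` of `X1` has the same size and is in `X`, and `X1 ∩ X2 ⊆ Q × Q`, so
`2 |X1| ≤ |X| + |Q|²`.
-/

namespace Pool.Agent.DBK

open Finset
open scoped Classical

variable {V ι : Type*} {I : Finset ι} {T : ι → Finset V} {H : V → V → Prop}
  {un : ι → ι → Prop} {bd : V → ι → Prop} {b : ℕ}


/-- The number of `H`-neighbours. -/
noncomputable def dH (I : Finset ι) (T : ι → Finset V) (H : V → V → Prop) (a : V) : ℕ :=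
  ((I.biUnion T).filter (fun u => H a u)).card

theorem exD (h : Ext I T H un bd b) {K : Finset ι} (hK : K ⊆ I) {i : ι} (hi : i ∈ K) {a : V}
    (ha : a ∈ T i) :
    dH I T H a ≤ 3 * (I \ K).card + 3 * b +
      ((K.biUnion T).filter (fun u => H a u ∧ ∃ p ∈ Un un K, a ∈ T p.1 ∧ u ∈ T p.2)).card := by
  have hsub : ((I.biUnion T).filter (fun u => H a u)) ⊆
      ((I \ K).biUnion T ∪ (I.filter (fun j => bd a j)).biUnion T) ∪
      ((K.biUnion T).filter (fun u => H a u ∧ ∃ p ∈ Un un K, a ∈ T p.1 ∧ u ∈ T p.2)) := by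
    intro u hu
    rw [mem_filter, mem_biUnion] at hu
    obtain ⟨⟨j, hj, huj⟩, hau⟩ := hu
    by_cases hjK : j ∈ K
    · by_cases hb : bd a j
      · apply mem_union_left
        apply mem_union_right
        rw [mem_biUnion]
        exact ⟨j, mem_filter.2 ⟨hj, hb⟩, huj⟩
      · apply mem_union_right
        rw [mem_filter]
        refine ⟨mem_biUnion.2 ⟨j, hjK, huj⟩, hau, (i, j), ?_, ha, huj⟩
        have hij : i ≠ j := by
          intro h0
          subst h0
          exact h.Hin i hj a ha u huj hau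
        have hun : un i j := by
          by_contra hn
          exact hb (h.Hbd i (hK hi) j hj hij hn a ha u huj hau)
        unfold Un
        rw [mem_filter, mem_product]
        exact ⟨⟨hi, hjK⟩, hij, hun⟩
    · apply mem_union_left
      apply mem_union_left
      rw [mem_biUnion]
      exact ⟨j, mem_sdiff.2 ⟨hj, hjK⟩, huj⟩
  have h1 := card_le_card hsub
  have h2 := card_union_le ((I \ K).biUnion T ∪ (I.filter (fun j => bd a j)).biUnion T)
      ((K.biUnion T).filter (fun u => H a u ∧ ∃ p ∈ Un un K, a ∈ T p.1 ∧ u ∈ T p.2))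
  have h3 := card_union_le ((I \ K).biUnion T) ((I.filter (fun j => bd a j)).biUnion T)
  have h4 : ∀ S : Finset ι, S ⊆ I → (S.biUnion T).card ≤ 3 * S.card := by
    intro S hS
    refine le_trans card_biUnion_le ?_
    rw [Finset.sum_congr rfl (fun i hi => h.card i (hS hi))]
    simp [mul_comm]
  have h5 := h4 (I \ K) sdiff_subset
  have h6 := h4 (I.filter (fun j => bd a j)) (filter_subset _ _)
  have h7 := h.bdcard i (hK hi) a ha
  unfold dH
  omega

theorem exD' (h : Ext I T H un bd b) {K : Finset ι} (hK : K ⊆ I)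
    (hess : ∀ i ∈ K, ∀ j ∈ K, ¬ ess T H i j) (Q : Finset V) (hQ : Q ⊆ K.biUnion T) :
    2 * (∑ a ∈ Q,
      ((K.biUnion T).filter (fun u => H a u ∧ ∃ p ∈ Un un K, a ∈ T p.1 ∧ u ∈ T p.2)).card) ≤
      3 * (Un un K).card + Q.card ^ 2 := by
  let X : Finset (V × V) := ((K.biUnion T) ×ˢ (K.biUnion T)).filter
    (fun q => H q.1 q.2 ∧ ∃ p ∈ Un un K, q.1 ∈ T p.1 ∧ q.2 ∈ T p.2)
  have hX : ∀ q, q ∈ X ↔ (q.1 ∈ K.biUnion T ∧ q.2 ∈ K.biUnion T) ∧ H q.1 q.2 ∧
      ∃ p ∈ Un un K, q.1 ∈ T p.1 ∧ q.2 ∈ T p.2 := by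
    intro q
    simp only [X, mem_filter, mem_product]
  have hUn : ∀ p, p ∈ Un un K ↔ (p.1 ∈ K ∧ p.2 ∈ K) ∧ p.1 ≠ p.2 ∧ un p.1 p.2 := by
    intro p
    simp only [Un, mem_filter, mem_product]
  have hXc : X.card ≤ 3 * (Un un K).card := by
    have hsub : X ⊆ (Un un K).biUnion
        (fun p => ((T p.1) ×ˢ (T p.2)).filter (fun q => H q.1 q.2)) := by
      intro q hq
      rw [hX] at hq
      obtain ⟨_, hH, p, hp, h1, h2⟩ := hq
      rw [mem_biUnion]
      exact ⟨p, hp, mem_filter.2 ⟨mem_product.2 ⟨h1, h2⟩, hH⟩⟩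
    refine le_trans (card_le_card hsub) (le_trans card_biUnion_le ?_)
    have : ∀ p ∈ Un un K, (((T p.1) ×ˢ (T p.2)).filter (fun q => H q.1 q.2)).card ≤ 3 := by
      intro p hp
      rw [hUn] at hp
      refine star (h.card _ (hK hp.1.1)) (h.card _ (hK hp.1.2)) ?_
      intro z hz z' hz' w hw w' hw' hzz hww h1 h2
      exact hess _ hp.1.1 _ hp.1.2 ⟨hp.2.1, z, hz, z', hz', w, hw, w', hw', hzz, hww, h1, h2⟩
    refine le_trans (Finset.sum_le_sum this) ?_
    simp [mul_comm]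
  let X1 : Finset (V × V) := X.filter (fun q => q.1 ∈ Q)
  have hX1 : (∑ a ∈ Q,
      ((K.biUnion T).filter (fun u => H a u ∧ ∃ p ∈ Un un K, a ∈ T p.1 ∧ u ∈ T p.2)).card) =
      X1.card := by
    rw [← Finset.card_sigma]
    refine Finset.card_bij (fun (q : Sigma (fun _ : V => V)) _ => (q.1, q.2)) ?_ ?_ ?_
    · intro q hq
      rw [mem_sigma, mem_filter] at hq
      rw [mem_filter, hX]
      exact ⟨⟨⟨hQ hq.1, hq.2.1⟩, hq.2.2⟩, hq.1⟩
    · rintro ⟨a, u⟩ _ ⟨a', u'⟩ _ heq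
      simp only [Prod.mk.injEq] at heq
      obtain ⟨rfl, rfl⟩ := heq
      rfl
    · rintro ⟨a, u⟩ hq
      rw [mem_filter, hX] at hq
      refine ⟨⟨a, u⟩, ?_, rfl⟩
      rw [mem_sigma, mem_filter]
      exact ⟨hq.2, hq.1.1.2, hq.1.2⟩
  rw [hX1]
  let X2 : Finset (V × V) := X1.image Prod.swap
  have hX2c : X2.card = X1.card := card_image_of_injective _ Prod.swap_injective
  have hX2 : ∀ q, q ∈ X2 ↔ Prod.swap q ∈ X1 := by
    intro q
    rw [mem_image]
    constructor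
    · rintro ⟨r, hr, rfl⟩
      simpa using hr
    · intro hq
      exact ⟨Prod.swap q, hq, by simp⟩
  have hsubX : X1 ∪ X2 ⊆ X := by
    intro q hq
    rw [mem_union] at hq
    rcases hq with hq | hq
    · exact (mem_filter.1 hq).1
    · rw [hX2] at hq
      have h0 := (mem_filter.1 hq).1
      rw [hX] at h0
      rw [hX]
      obtain ⟨⟨h1, h2⟩, h3, p, hp, h4, h5⟩ := h0
      refine ⟨⟨h2, h1⟩, h.Hsymm _ _ h3, (p.2, p.1), ?_, h5, h4⟩
      rw [hUn] at hp ⊢
      exact ⟨⟨hp.1.2, hp.1.1⟩, fun h0 => hp.2.1 h0.symm, h.unsymm _ _ hp.2.2⟩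
  have hint : X1 ∩ X2 ⊆ Q ×ˢ Q := by
    intro q hq
    rw [mem_inter, hX2] at hq
    rw [mem_product]
    exact ⟨(mem_filter.1 hq.1).2, (mem_filter.1 hq.2).2⟩
  have h1 := card_le_card hsubX
  have h2 := card_le_card hint
  have h3 := card_union_add_card_inter X1 X2
  rw [card_product] at h2
  have h4 : Q.card ^ 2 = Q.card * Q.card := by ring
  rw [h4]
  omega

end Pool.Agent.DBK
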