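import Pool.Agent.DBK.MatA

/-! # DBK: the setting of the extraction

-/

namespace Pool.Agent.DBK

open Finset
open scoped Classical

/-- The setting: disjoint sets `T i`, `i ∈ I`, of size three; a relation `H` (not a digon) on their
union; `un i j`: the pair is unjoined; `bd z j`: the part `j` is not clean at `z`. -/
structure Ext {V ι : Type*} (I : Finset ι) (T : ι → Finset V) (H : V → V → Prop)
    (un : ι → ι → Prop) (bd : V → ι → Prop) (b : ℕ) : Prop where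
  b2 : 2 ≤ b
  big : 11 * b ^ 2 ≤ I.card
  card : ∀ i ∈ I, (T i).card = 3
  disj : ∀ i ∈ I, ∀ j ∈ I, i ≠ j → Disjoint (T i) (T j)
  Hsymm : ∀ u v, H u v → H v u
  Hirr : ∀ u, ¬ H u u
  Hin : ∀ i ∈ I, ∀ u ∈ T i, ∀ v ∈ T i, ¬ H u v
  unsymm : ∀ i j, un i j → un j i
  uncard : ((I ×ˢ I).filter (fun p => p.1 ≠ p.2 ∧ un p.1 p.2)).card ≤ b * I.card
  bdcard : ∀ i ∈ I, ∀ z ∈ T i, (I.filter (fun j => bd z j)).card ≤ b
  Hbd : ∀ i ∈ I, ∀ j ∈ I, i ≠ j → ¬ un i j → ∀ z ∈ T i, ∀ w ∈ T j, H z w → bd z j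
  fl : ∀ z ∈ I.biUnion T, ∀ w ∈ I.biUnion T, ∀ z' ∈ I.biUnion T, ∀ w' ∈ I.biUnion T,
    z ≠ z' → z ≠ w' → w ≠ z' → w ≠ w' → H z w → H z' w' →
    ((I.biUnion T).filter (fun u => u ≠ z ∧ u ≠ w ∧ u ≠ z' ∧ u ≠ w' ∧
      ¬ H u z ∧ ¬ H u w ∧ ¬ H u z' ∧ ¬ H u w')).card ≤ 5

/-- Two disjoint `H`-edges between `T i` and `T j`. -/
def ess {V ι : Type*} (T : ι → Finset V) (H : V → V → Prop) (i j : ι) : Prop :=
  i ≠ j ∧ ∃ z ∈ T i, ∃ z' ∈ T i, ∃ w ∈ T j, ∃ w' ∈ T j, z ≠ z' ∧ w ≠ w' ∧ H z w ∧ H z' w'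

/-- Ordered unjoined pairs inside `K`. -/
noncomputable def Un {ι : Type*} (un : ι → ι → Prop) (K : Finset ι) : Finset (ι × ι) :=
  (K ×ˢ K).filter (fun p => p.1 ≠ p.2 ∧ un p.1 p.2)

end Pool.Agent.DBK
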