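import Pool.Agent.DBK.ColA

/-! # DBK: passing to a critical subdigraph

`exists_critical`: a set `W` of minimal size which is not colourable. `col_sub`: restrict and extend colourings (a walk in
the subtype is a walk in `V`; a walk in the image lifts to the subtype).
-/

namespace Pool.Agent.DBK

open Finset
open scoped Classical

variable {V : Type*} {A : V → V → Prop}


theorem exists_critical [Fintype V] {c : ℕ} (h : ¬ Col A c (univ : Finset V)) :
    ∃ W : Finset V, ¬ Col A c W ∧ ∀ v ∈ W, Col A c (W.erase v) := by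
  obtain ⟨W, hW, hmin⟩ := Finset.exists_min_image
    ((univ : Finset (Finset V)).filter (fun W => ¬ Col A c W)) Finset.card
    ⟨univ, mem_filter.2 ⟨mem_univ _, h⟩⟩
  refine ⟨W, (mem_filter.1 hW).2, fun v hv => ?_⟩
  by_contra hc
  have h1 := hmin (W.erase v) (mem_filter.2 ⟨mem_univ _, hc⟩)
  have h2 := card_erase_lt_of_mem hv
  omega

private theorem finA_acy {W : Finset V} (S : Set {v // v ∈ W}) :
    AcyclicOn (fun a b : {v // v ∈ W} => A a b) S ↔ AcyclicOn A (Subtype.val '' S) := by
  constructor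
  · intro h v hv
    have key : ∀ x y, Relation.TransGen
        (fun x y => x ∈ Subtype.val '' S ∧ y ∈ Subtype.val '' S ∧ A x y) x y →
        ∀ a b : {v // v ∈ W}, a.1 = x → b.1 = y →
        Relation.TransGen (fun x y : {v // v ∈ W} => x ∈ S ∧ y ∈ S ∧ A x y) a b := by
      intro x y hxy
      induction hxy with
      | single h1 =>
        intro a b ha hb
        obtain ⟨⟨a', ha', hax⟩, ⟨b', hb', hby⟩, h2⟩ := h1
        have e1 : a' = a := Subtype.ext (hax.trans ha.symm)
        have e2 : b' = b := Subtype.ext (hby.trans hb.symm)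
        rw [e1] at ha'
        rw [e2] at hb'
        refine Relation.TransGen.single ⟨ha', hb', ?_⟩
        rw [ha, hb]
        exact h2
      | tail _ h1 ih =>
        intro a b ha hb
        obtain ⟨⟨a', ha', hax⟩, ⟨b', hb', hby⟩, h2⟩ := h1
        have e2 : b' = b := Subtype.ext (hby.trans hb.symm)
        rw [e2] at hb'
        refine (ih a a' ha hax).tail ⟨ha', hb', ?_⟩
        rw [hax, hb]
        exact h2
    obtain ⟨w, hw, _⟩ := Relation.TransGen.head'_iff.1 hv
    obtain ⟨a, ha, hav⟩ := hw.1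
    exact h a (key v v hv a a hav hav)
  · intro h a ha
    have hsub : ∀ x y : {v // v ∈ W}, (x ∈ S ∧ y ∈ S ∧ A x.1 y.1) →
        (x.1 ∈ Subtype.val '' S ∧ y.1 ∈ Subtype.val '' S ∧ A x.1 y.1) :=
      fun x y hxy => ⟨⟨x, hxy.1, rfl⟩, ⟨y, hxy.2.1, rfl⟩, hxy.2.2⟩
    have key : ∀ x y : {v // v ∈ W}, Relation.TransGen
        (fun x y : {v // v ∈ W} => x ∈ S ∧ y ∈ S ∧ A x.1 y.1) x y →
        Relation.TransGen
        (fun x y => x ∈ Subtype.val '' S ∧ y ∈ Subtype.val '' S ∧ A x y) x.1 y.1 := by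
      intro x y hxy
      induction hxy with
      | single h1 => exact Relation.TransGen.single (hsub _ _ h1)
      | tail _ h1 ih => exact ih.tail (hsub _ _ h1)
    exact h a.1 (key a a ha)

theorem col_sub {c : ℕ} {W : Finset V} (S : Finset {v // v ∈ W}) :
    Col (fun a b : {v // v ∈ W} => A a b) c S ↔
      Col A c (S.map (Function.Embedding.subtype _)) := by
  constructor
  · rintro ⟨φ, h1, h2⟩
    refine ⟨fun v => if h : v ∈ W then φ ⟨v, h⟩ else 0, ?_, ?_⟩
    · intro v hv
      obtain ⟨a, ha, rfl⟩ := mem_map.1 hv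
      have e : (if h : (Function.Embedding.subtype fun v => v ∈ W) a ∈ W then
        φ ⟨(Function.Embedding.subtype fun v => v ∈ W) a, h⟩ else 0) = φ a := dif_pos a.2
      exact lt_of_eq_of_lt e (h1 a ha)
    · intro i
      have h3 := (finA_acy _).1 (h2 i)
      refine acy_mono h3 ?_
      rintro v ⟨hv, hvi⟩
      obtain ⟨a, ha, rfl⟩ := mem_map.1 hv
      have e : (if h : (Function.Embedding.subtype fun v => v ∈ W) a ∈ W then
        φ ⟨(Function.Embedding.subtype fun v => v ∈ W) a, h⟩ else 0) = φ a := dif_pos a.2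
      exact ⟨a, ⟨ha, e.symm.trans hvi⟩, rfl⟩
  · rintro ⟨ψ, h1, h2⟩
    refine ⟨fun a => ψ a.1, ?_, ?_⟩
    · intro a ha
      exact h1 a.1 (mem_map.2 ⟨a, ha, rfl⟩)
    · intro i
      rw [finA_acy]
      refine acy_mono (h2 i) ?_
      rintro _ ⟨a, ⟨ha, hai⟩, rfl⟩
      exact ⟨mem_map.2 ⟨a, ha, rfl⟩, hai⟩

theorem col_sub_univ {c : ℕ} {W : Finset V} :
    Col (fun a b : {v // v ∈ W} => A a b) c univ ↔ Col A c W := by
  rw [col_sub]
  have e : (univ : Finset {v // v ∈ W}).map (Function.Embedding.subtype _) = W := by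
    ext v
    rw [mem_map]
    constructor
    · rintro ⟨a, _, rfl⟩
      exact a.2
    · intro hv
      exact ⟨⟨v, hv⟩, mem_univ _, rfl⟩
  rw [e]

theorem col_sub_erase {c : ℕ} {W : Finset V} (v : {v // v ∈ W}) :
    Col (fun a b : {v // v ∈ W} => A a b) c (univ.erase v) ↔ Col A c (W.erase v) := by
  rw [col_sub]
  have e : ((univ : Finset {v // v ∈ W}).erase v).map (Function.Embedding.subtype _) =
      W.erase v.1 := by
    ext u
    rw [mem_map, mem_erase]
    constructor
    · rintro ⟨a, ha, rfl⟩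
      refine ⟨fun h => ?_, a.2⟩
      exact (mem_erase.1 ha).1 (Subtype.ext h)
    · rintro ⟨h1, h2⟩
      refine ⟨⟨u, h2⟩, mem_erase.2 ⟨fun h => h1 ?_, mem_univ _⟩, rfl⟩
      exact congrArg Subtype.val h
  rw [e]

theorem outd_sub [Fintype V] {W : Finset V} (v : {v // v ∈ W}) :
    outd (fun a b : {v // v ∈ W} => A a b) v univ ≤ outd A v.1 univ := by
  unfold outd
  refine Finset.card_le_card_of_injOn Subtype.val ?_ (Subtype.val_injective.injOn)
  intro a ha
  have h := (mem_filter.1 (mem_coe.1 ha)).2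
  exact mem_coe.2 (mem_filter.2 ⟨mem_univ _, h⟩)

theorem ind_sub [Fintype V] {W : Finset V} (v : {v // v ∈ W}) :
    ind (fun a b : {v // v ∈ W} => A a b) v univ ≤ ind A v.1 univ := by
  unfold ind
  refine Finset.card_le_card_of_injOn Subtype.val ?_ (Subtype.val_injective.injOn)
  intro a ha
  have h := (mem_filter.1 (mem_coe.1 ha)).2
  exact mem_coe.2 (mem_filter.2 ⟨mem_univ _, h⟩)

end Pool.Agent.DBK
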