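import Pool.Agent.DBK.ColA

/-! # DBK: extending a colouring by lists of colours

`flA`: colour `v` by `χ v` on `U` and by `ψ v` outside `U`; every class is a union of two acyclic sets and has no arc
from the part in `U` to the part outside (`acy_union`). `lst_card`: at most `outd A u Uᶜ` colours are excluded, and
`outd A u univ = outd A u U + outd A u Uᶜ`. `acy_pair`: `acy_insert_sink` or `acy_insert_source`.
-/

namespace Pool.Agent.DBK

open Finset
open scoped Classical

variable {V : Type*} [Fintype V] {A : V → V → Prop}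


theorem flA {c : ℕ} (U : Finset V) {ψ χ : V → ℕ} (hψ : ∀ v ∉ U, ψ v < c)
    (hψa : ∀ i, AcyclicOn A {v | v ∉ U ∧ ψ v = i}) (hχ : ∀ u ∈ U, χ u < c)
    (hχa : ∀ i, AcyclicOn A {v | v ∈ U ∧ χ v = i})
    (hl : ∀ u ∈ U, ∀ v ∉ U, A u v → ψ v ≠ χ u) : Col A c (univ : Finset V) := by
  refine ⟨fun v => if v ∈ U then χ v else ψ v, ?_, ?_⟩
  · intro v _
    by_cases h : v ∈ U
    · simpa [h] using hχ v h
    · simpa [h] using hψ v h
  · intro i
    have := acy_union (S := {v | v ∉ U ∧ ψ v = i}) (T := {v | v ∈ U ∧ χ v = i}) (hψa i) (hχa i) (by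
      rintro x ⟨hx, hxi⟩ y ⟨hy, hyi⟩ hxy
      exact hl x hx y hy hxy (hyi.trans hxi.symm))
    refine acy_mono this ?_
    rintro v ⟨_, hv⟩
    by_cases h : v ∈ U
    · right
      exact ⟨h, by simpa [h] using hv⟩
    · left
      exact ⟨h, by simpa [h] using hv⟩

/-- The colours `< c` which do not occur on the out-neighbours of `u` outside `U`. -/
noncomputable def Lst (A : V → V → Prop) (c : ℕ) (U : Finset V) (ψ : V → ℕ) (u : V) : Finset ℕ :=
  (range c).filter (fun a => ∀ v ∉ U, A u v → ψ v ≠ a)

theorem lst_card {c : ℕ} (U : Finset V) (ψ : V → ℕ) {u : V} (hu : outd A u univ ≤ c + 1) :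
    outd A u U ≤ (Lst A c U ψ u).card + 1 := by
  have h1 : outd A u U + outd A u Uᶜ = outd A u univ := by
    unfold outd
    rw [← card_union_of_disjoint, ← filter_union, union_compl]
    exact disjoint_filter_filter disjoint_compl_right
  have h2 : range c ⊆ Lst A c U ψ u ∪ ((Uᶜ).filter (fun v => A u v)).image ψ := by
    intro a ha
    by_cases h : a ∈ Lst A c U ψ u
    · exact mem_union_left _ h
    · refine mem_union_right _ ?_
      unfold Lst at h
      rw [mem_filter] at h
      push Not at h
      obtain ⟨v, hv, hv2, hv3⟩ := h ha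
      exact mem_image.2 ⟨v, by simp [hv, hv2], hv3⟩
  have h3 := card_le_card h2
  have h4 := card_union_le (Lst A c U ψ u) (((Uᶜ).filter (fun v => A u v)).image ψ)
  have h5 : (((Uᶜ).filter (fun v => A u v)).image ψ).card ≤ outd A u Uᶜ := by
    unfold outd
    exact card_image_le
  rw [card_range] at h3
  omega

theorem acy_pair {z w : V} (hl : ∀ v, ¬ A v v) (h : ¬ (A z w ∧ A w z)) :
    AcyclicOn A {z, w} := by
  by_cases h1 : A z w
  · have h2 : ¬ A w z := fun h2 => h ⟨h1, h2⟩
    refine acy_insert_source (acy_singleton (hl w)) (hl z) ?_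
    intro y hy
    rw [Set.mem_singleton_iff.1 hy]
    exact h2
  · refine acy_insert_sink (acy_singleton (hl w)) (hl z) ?_
    intro y hy
    rw [Set.mem_singleton_iff.1 hy]
    exact h1

end Pool.Agent.DBK
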