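import Pool.Agent.DBK.Defs

/-! # DBK: a maximal violator of the condition of Hall

Choose `S ⊆ U` with `|S| - |L(S)|` (an integer) maximal, `S = ∅` if the maximum is `0`. For `X ⊆ U \ S` maximality, applied to
`S ∪ X`, gives `|X| ≤ |L(X) \ L(S)|`. By the theorem of Hall (`Finset.all_card_le_biUnion_card_iff_exists_injective`, for the
subtype of the elements of `U \ S` and the lists `L u \ L(S)`) there is an injective choice.
-/

namespace Pool.Agent.DBK

open Finset
open scoped Classical

theorem hall_max {α : Type*} (U : Finset α) (L : α → Finset ℕ) (S : Finset α) (hS : S ⊆ U)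
    (hmax : ∀ T ⊆ U, (T.card : ℤ) - (T.biUnion L).card ≤ S.card - (S.biUnion L).card) :
    ∃ χ : α → ℕ,
      (∀ u ∈ U \ S, χ u ∈ L u ∧ χ u ∉ S.biUnion L) ∧
      (∀ u ∈ U \ S, ∀ v ∈ U \ S, χ u = χ v → u = v) := by
  have hall : ∀ s : Finset {u // u ∈ U \ S},
      s.card ≤ (s.biUnion (fun u => L u.1 \ S.biUnion L)).card := by
    intro s
    have hX : s.map (Function.Embedding.subtype _) ⊆ U \ S := by
      intro u hu
      rw [mem_map] at hu
      obtain ⟨v, _, rfl⟩ := hu
      exact v.2
    set X := s.map (Function.Embedding.subtype (fun u => u ∈ U \ S)) with hXdef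
    have hd : Disjoint S X := by
      rw [disjoint_left]
      intro a ha hb
      exact (mem_sdiff.1 (hX hb)).2 ha
    have h1 := hmax (S ∪ X) (union_subset hS (hX.trans sdiff_subset))
    rw [card_union_of_disjoint hd, union_biUnion] at h1
    have h2 : (S.biUnion L ∪ X.biUnion L).card =
        (S.biUnion L).card + (X.biUnion L \ S.biUnion L).card := by
      rw [← union_sdiff_self_eq_union, card_union_of_disjoint disjoint_sdiff]
    rw [h2] at h1
    have h3 : X.biUnion L \ S.biUnion L ⊆ s.biUnion (fun u => L u.1 \ S.biUnion L) := by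
      intro a ha
      rw [mem_sdiff, mem_biUnion] at ha
      obtain ⟨⟨u, hu, hua⟩, hna⟩ := ha
      rw [hXdef, mem_map] at hu
      obtain ⟨v, hv, rfl⟩ := hu
      exact mem_biUnion.2 ⟨v, hv, mem_sdiff.2 ⟨hua, hna⟩⟩
    have h4 := card_le_card h3
    have h5 : X.card = s.card := card_map _
    push_cast at h1
    omega
  obtain ⟨f, hf, hf2⟩ := (Finset.all_card_le_biUnion_card_iff_exists_injective
    (fun u : {u // u ∈ U \ S} => L u.1 \ S.biUnion L)).1 hall
  refine ⟨fun u => if h : u ∈ U \ S then f ⟨u, h⟩ else 0, ?_, ?_⟩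
  · intro u hu
    have := hf2 ⟨u, hu⟩
    rw [mem_sdiff] at this
    simpa [hu] using this
  · intro u hu v hv huv
    beta_reduce at huv
    rw [dif_pos hu, dif_pos hv] at huv
    have := hf huv
    exact congrArg Subtype.val this

theorem hall_split {α : Type*} (U : Finset α) (L : α → Finset ℕ) :
    ∃ S ⊆ U, (S = ∅ ∨ (S.biUnion L).card < S.card) ∧ ∃ χ : α → ℕ,
      (∀ u ∈ U \ S, χ u ∈ L u ∧ χ u ∉ S.biUnion L) ∧
      (∀ u ∈ U \ S, ∀ v ∈ U \ S, χ u = χ v → u = v) := by
  obtain ⟨S, hS, hmax⟩ := exists_max_image U.powerset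
    (fun T => (T.card : ℤ) - (T.biUnion L).card) ⟨∅, by simp⟩
  rw [mem_powerset] at hS
  have hmax' : ∀ T ⊆ U, (T.card : ℤ) - (T.biUnion L).card ≤ S.card - (S.biUnion L).card :=
    fun T hT => hmax T (mem_powerset.2 hT)
  by_cases h : (S.biUnion L).card < S.card
  · exact ⟨S, hS, Or.inr h, hall_max U L S hS hmax'⟩
  · refine ⟨∅, empty_subset _, Or.inl rfl, hall_max U L ∅ (empty_subset _) ?_⟩
    intro T hT
    have h1 := hmax' T hT
    have h2 : ((∅ : Finset α).card : ℤ) - ((∅ : Finset α).biUnion L).card = 0 := by simp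
    rw [h2]
    omega

end Pool.Agent.DBK
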