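import Pool.Agent.DBK.TokK

/-! # DBK: vertices reachable from the token inside two colours

By induction on the walk from `x` to `v`: there is `φ'` with `Tok A R v φ'`, with `φ' u = φ u` for
`u ∈ R`, `u ≠ x`, `φ u ∉ {i, j}`, and with `φ' u ∈ {i, j}` for all `u ∈ R`, `u ≠ v` with `u = x` or `φ u ∈ {i, j}`;
also `v = x` or `φ v ∈ {i, j}`. In the step the token moves along the arc (`tok_move`). Then use
`tok_out_exists` and `tok_out_inj` for the token `v`, the colouring `φ'` and the colour `k`.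
-/

namespace Pool.Agent.DBK

open Finset
open scoped Classical

variable {V : Type*} {A : V → V → Prop}

theorem kemA_aux {R : Finset V} (hR : Crit3 A R) {x : V} {φ : V → ℕ} (h : Tok A R x φ) {i j : ℕ}
    {v : V}
    (hv : Relation.ReflTransGen
      (fun a b => A a b ∧ b ∈ R ∧ (b = x ∨ φ b = i ∨ φ b = j)) x v) :
    (v = x ∨ φ v = i ∨ φ v = j) ∧ ∃ φ' : V → ℕ, Tok A R v φ' ∧
      (∀ u ∈ R, u ≠ x → φ u ≠ i → φ u ≠ j → φ' u = φ u) ∧
      ∀ u ∈ R, u ≠ v → (u = x ∨ φ u = i ∨ φ u = j) → φ' u = i ∨ φ' u = j := by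
  induction hv with
  | refl =>
    refine ⟨Or.inl rfl, φ, h, fun _ _ _ _ _ => rfl, ?_⟩
    intro u _ hux hu
    rcases hu with hu | hu
    · exact absurd hu hux
    · exact hu
  | @tail v w _ hvw ih =>
    obtain ⟨hv1, φ', hT, h1, h2⟩ := ih
    obtain ⟨hA, hwR, hw⟩ := hvw
    have hwv : w ≠ v := by
      rintro rfl
      exact hR.loop _ hA
    refine ⟨hw, Function.update φ' v (φ' w), tok_move hR hT hwR (Or.inl hA), ?_, ?_⟩
    · intro u hu hux hui huj
      have huv : u ≠ v := by
        rintro rfl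
        rcases hv1 with h3 | h3 | h3
        · exact hux h3
        · exact hui h3
        · exact huj h3
      rw [Function.update_of_ne huv]
      exact h1 u hu hux hui huj
    · intro u hu huw hux
      by_cases huv : u = v
      · rw [huv, Function.update_self]
        exact h2 w hwR hwv hw
      · rw [Function.update_of_ne huv]
        exact h2 u hu huv hux

theorem kemA {R : Finset V} (hR : Crit3 A R) {x : V} {φ : V → ℕ} (h : Tok A R x φ) {i j k : ℕ}
    (hk : k < 3) (hki : k ≠ i) (hkj : k ≠ j) {v : V}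
    (hv : Relation.ReflTransGen
      (fun a b => A a b ∧ b ∈ R ∧ (b = x ∨ φ b = i ∨ φ b = j)) x v) :
    (∃ u ∈ R, u ≠ x ∧ A v u ∧ φ u = k) ∧
      ∀ u ∈ R, ∀ u' ∈ R, u ≠ x → u' ≠ x → A v u → A v u' → φ u = k → φ u' = k → u = u' := by
  obtain ⟨_, φ', hT, h1, h2⟩ := kemA_aux hR h hv
  constructor
  · obtain ⟨u, hu, huv, hvu, e⟩ := tok_out_exists hR hT hk
    have h3 : ¬ (u = x ∨ φ u = i ∨ φ u = j) := by
      intro h3
      rcases h2 u hu huv h3 with h4 | h4
      · exact hki (e.symm.trans h4)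
      · exact hkj (e.symm.trans h4)
    push Not at h3
    refine ⟨u, hu, h3.1, hvu, ?_⟩
    rw [← h1 u hu h3.1 h3.2.1 h3.2.2]
    exact e
  · intro u hu u' hu' hux hux' hvu hvu' e e'
    have e1 : φ' u = k := by
      rw [h1 u hu hux (by rw [e]; exact hki) (by rw [e]; exact hkj)]
      exact e
    have e2 : φ' u' = k := by
      rw [h1 u' hu' hux' (by rw [e']; exact hki) (by rw [e']; exact hkj)]
      exact e'
    exact tok_out_inj hR hT hu hu' hvu hvu' (e1.trans e2.symm)

end Pool.Agent.DBK
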