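import Pool.Agent.DBK.TokK

/-! # DBK: the Kempe chain between two neighbours of the token

Otherwise let `W` be the set of all vertices reachable from `y`; by `tok_kempe` the colours `i`, `j`
can be exchanged on `W`, and then `y` and `z` are out-neighbours of `x` with the same colour `j`, against
`tok_out_inj`.
-/

namespace Pool.Agent.DBK

open Finset
open scoped Classical

variable {V : Type*} {A : V → V → Prop}


theorem kemB {R : Finset V} (hR : Crit3 A R) (hb : ∀ u ∈ R, ∀ v ∈ R, A u v → A v u) {x : V}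
    {φ : V → ℕ} (h : Tok A R x φ) {i j : ℕ} (hi : i < 3) (hj : j < 3) (hij : i ≠ j) {y z : V}
    (hy : y ∈ R) (hz : z ∈ R) (hxy : A x y) (hxz : A x z) (ey : φ y = i) (ez : φ z = j) :
    Relation.ReflTransGen (Kr A R x φ i j) y z := by
  by_contra hz'
  have hT := tok_kempe h hi hj {v | Relation.ReflTransGen (Kr A R x φ i j) y v} (by
    intro u hu v hv hux hvx huW hvW hcu hcv
    have key : ¬ A u v := fun ha =>
      hvW (Relation.ReflTransGen.tail huW ⟨ha, ⟨hu, hux, hcu⟩, ⟨hv, hvx, hcv⟩⟩)
    exact ⟨key, fun ha => key (hb v hv u hu ha)⟩)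
  have hyW : y ∈ {v | Relation.ReflTransGen (Kr A R x φ i j) y v} := Relation.ReflTransGen.refl
  have hzW : z ∉ {v | Relation.ReflTransGen (Kr A R x φ i j) y v} := hz'
  have e := tok_out_inj hR hT hy hz hxy hxz (by
    show (if y ∈ {v | Relation.ReflTransGen (Kr A R x φ i j) y v} then Equiv.swap i j (φ y)
      else φ y) = (if z ∈ {v | Relation.ReflTransGen (Kr A R x φ i j) y v} then
      Equiv.swap i j (φ z) else φ z)
    rw [if_pos hyW, if_neg hzW, ey, ez, Equiv.swap_apply_left])
  exact hz' (e ▸ Relation.ReflTransGen.refl)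

end Pool.Agent.DBK
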