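import Pool.Agent.DBK.Defs

/-! # DBK: a finite bipartite multigraph with enough edges has a subgraph without leaves

Strong induction on `E.card`. If `E` itself does not work there is `s ∈ E` such that no other element of `E` has the
same value of `f` (or of `g`). Remove `s`: one of the two images loses one element, so the inequality remains true. The set
without `s` is not empty, because for a set with one element the inequality says `2 ≤ 1`.
-/

namespace Pool.Agent.DBK

open Finset
open scoped Classical

theorem leaf_aux {α δ ε : Type*} (E : Finset α) (p : α → δ) (q : α → ε) (s : α) (hs : s ∈ E)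
    (hp : ∀ s' ∈ E, s' ≠ s → p s' ≠ p s) :
    ((E.erase s).image p).card + ((E.erase s).image q).card + 1 ≤
      (E.image p).card + (E.image q).card := by
  have h1 : (E.erase s).image p ⊆ (E.image p).erase (p s) := by
    intro y hy
    obtain ⟨t, ht, rfl⟩ := Finset.mem_image.1 hy
    refine Finset.mem_erase.2 ⟨hp t (Finset.mem_of_mem_erase ht)
      (Finset.ne_of_mem_erase ht), Finset.mem_image_of_mem _ (Finset.mem_of_mem_erase ht)⟩
  have h2 := Finset.card_le_card h1
  rw [Finset.card_erase_of_mem (Finset.mem_image_of_mem _ hs)] at h2
  have h3 : 0 < (E.image p).card :=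
    Finset.card_pos.2 ⟨p s, Finset.mem_image_of_mem _ hs⟩
  have h4 : ((E.erase s).image q).card ≤ (E.image q).card :=
    Finset.card_le_card (Finset.image_subset_image (Finset.erase_subset _ _))
  omega

theorem leaf {α β γ : Type*} (E : Finset α) (f : α → β) (g : α → γ) (hE : E.Nonempty)
    (h : (E.image f).card + (E.image g).card ≤ E.card) :
    ∃ F : Finset α, F ⊆ E ∧ F.Nonempty ∧ (∀ s ∈ F, ∃ s' ∈ F, s' ≠ s ∧ f s' = f s) ∧
      (∀ s ∈ F, ∃ s' ∈ F, s' ≠ s ∧ g s' = g s) := by
  induction hn : E.card using Nat.strong_induction_on generalizing E with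
  | _ n ih =>
    by_cases hgood : (∀ s ∈ E, ∃ s' ∈ E, s' ≠ s ∧ f s' = f s) ∧
        (∀ s ∈ E, ∃ s' ∈ E, s' ≠ s ∧ g s' = g s)
    · exact ⟨E, Finset.Subset.refl _, hE, hgood.1, hgood.2⟩
    · -- one can remove an element
      have hrem : ∃ s ∈ E, ((E.erase s).image f).card + ((E.erase s).image g).card + 1 ≤
          (E.image f).card + (E.image g).card := by
        rcases not_and_or.1 hgood with h1 | h1
        · push Not at h1
          obtain ⟨s, hs, hp⟩ := h1
          exact ⟨s, hs, leaf_aux E f g s hs hp⟩
        · push Not at h1
          obtain ⟨s, hs, hp⟩ := h1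
          refine ⟨s, hs, ?_⟩
          have := leaf_aux E g f s hs hp
          omega
      obtain ⟨s, hs, hle⟩ := hrem
      have hcard := Finset.card_erase_of_mem hs
      have hpos : 0 < E.card := Finset.card_pos.2 hE
      have hne : (E.erase s).Nonempty := by
        rw [Finset.nonempty_iff_ne_empty]
        intro he
        have h1 : 0 < (E.image f).card := Finset.card_pos.2 (hE.image f)
        have h2 : 0 < (E.image g).card := Finset.card_pos.2 (hE.image g)
        rw [he, Finset.card_empty] at hcard
        omega
      obtain ⟨F, hF, hF1, hF2, hF3⟩ := ih (E.erase s).card (by omega) (E.erase s) hne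
        (by omega) rfl
      exact ⟨F, hF.trans (Finset.erase_subset _ _), hF1, hF2, hF3⟩

end Pool.Agent.DBK
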