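import Pool.Agent.DBK.Core
import Pool.Agent.DBK.FinA

/-! # DBK: the main theorem -/

namespace Pool.Agent.DBK

open Finset
open scoped Classical

theorem map_erase_sub {V : Type*} {W : Finset V} [i : DecidableEq {v // v ∈ W}]
    (v : {v // v ∈ W}) :
    ((univ : Finset {v // v ∈ W}).erase v).map (Function.Embedding.subtype _) =
      W.erase v.1 := by
  ext a
  rw [mem_map, mem_erase]
  constructor
  · rintro ⟨⟨b, hb⟩, h1, rfl⟩
    exact ⟨fun e => (mem_erase.1 h1).1 (Subtype.ext e), hb⟩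
  · rintro ⟨h1, h2⟩
    exact ⟨⟨a, h2⟩, mem_erase.2 ⟨fun e => h1 (congrArg Subtype.val e), mem_univ _⟩, rfl⟩

theorem mainThm {V : Type*} [Fintype V] {A : V → V → Prop} {g D : ℕ} (hl : ∀ v, ¬ A v v)
    (hD : 36 * (g + 2) ^ 2 ≤ D) (hout : ∀ v, outd A v univ ≤ D)
    (hin : ∀ v, ind A v univ ≤ D + g)
    (hbic : ∀ K : Finset V, (∀ u ∈ K, ∀ v ∈ K, u ≠ v → A u v) → K.card + 6 * g + 17 ≤ D) :
    Col A (D - 1) (univ : Finset V) := by
  by_contra hnc
  obtain ⟨W, hW, hcr⟩ := exists_critical hnc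
  have hg : 36 * 2 ^ 2 ≤ 36 * (g + 2) ^ 2 := by gcongr; omega
  have hsq : (g + 2) ^ 2 = g * g + 4 * g + 4 := by ring
  set m := (D - 1) / 3 with hm
  set r := (D - 1) % 3 with hr
  have hmr : 3 * m + r = D - 1 := Nat.div_add_mod _ _
  have hr3 : r < 3 := Nat.mod_lt _ (by norm_num)
  have hgg : g ≤ g * g ∨ g = 0 := by
    rcases Nat.eq_zero_or_pos g with h | h
    · exact Or.inr h
    · exact Or.inl (Nat.le_mul_of_pos_left g h)
  have hbig : 11 * (g + 2) ^ 2 + (g + 2) ≤ m := by
    rw [hsq] at hD ⊢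
    generalize g * g = q at *
    omega
  have hB : Base (fun a b : {v // v ∈ W} => A a b) m r (g + 2) := by
    refine ⟨fun v => hl v, fun v => ?_, fun v => ?_, by omega, ?_, ?_, fun v => ?_⟩
    · have h1 := outd_sub (A := A) v
      have h2 := hout v.1
      omega
    · have h1 := ind_sub (A := A) v
      have h2 := hin v.1
      omega
    · rw [hsq] at hbig
      generalize g * g = q at *
      omega
    · rw [hmr]
      intro h
      exact hW (col_sub_univ.1 h)
    · rw [hmr]
      refine (col_sub _).2 ?_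
      rw [map_erase_sub (i := fun a b => Classical.propDecidable (a = b)) v]
      exact hcr v.1 v.2
  obtain ⟨K, hK, hcard⟩ := core hB hbig
  have h1 := hbic (K.map (Function.Embedding.subtype _)) (by
    intro u hu v hv huv
    rw [mem_map] at hu hv
    obtain ⟨u', hu', rfl⟩ := hu
    obtain ⟨v', hv', rfl⟩ := hv
    exact hK u' hu' v' hv' (fun e => huv (by rw [e])))
  rw [card_map] at h1
  omega

end Pool.Agent.DBK
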