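import Pool.Agent.DBK.Defs

/-! # DBK: matchings

`mat_dich`: induction on `n`. If there is a matching `M` with `n` edges, then either it is maximal (second case for `n + 1`), or
there are `a, b ∈ S`, `E a b`, not in `ends M`, and `insert (a, b) M` is a matching with `n + 1` edges.
-/

namespace Pool.Agent.DBK

open Finset
open scoped Classical

/-- `M` is a matching of the relation `E` in the set `S`. -/
def IsMat {α : Type*} (E : α → α → Prop) (S : Finset α) (M : Finset (α × α)) : Prop :=
  (∀ e ∈ M, e.1 ∈ S ∧ e.2 ∈ S ∧ E e.1 e.2) ∧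
    ∀ e ∈ M, ∀ e' ∈ M, e ≠ e' → e.1 ≠ e'.1 ∧ e.1 ≠ e'.2 ∧ e.2 ≠ e'.1 ∧ e.2 ≠ e'.2

/-- The set of the ends of the edges of `M`. -/
noncomputable def ends {α : Type*} (M : Finset (α × α)) : Finset α :=
  M.image Prod.fst ∪ M.image Prod.snd

theorem ends_sub {α : Type*} {E : α → α → Prop} {S : Finset α} {M : Finset (α × α)}
    (h : IsMat E S M) : ends M ⊆ S := by
  intro a ha
  rcases Finset.mem_union.1 ha with h1 | h1
  · obtain ⟨e, he, rfl⟩ := Finset.mem_image.1 h1
    exact (h.1 e he).1
  · obtain ⟨e, he, rfl⟩ := Finset.mem_image.1 h1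
    exact (h.1 e he).2.1

theorem ends_card {α : Type*} {E : α → α → Prop} (hirr : ∀ a, ¬ E a a) {S : Finset α}
    {M : Finset (α × α)} (h : IsMat E S M) : (ends M).card = 2 * M.card := by
  have hd : Disjoint (M.image Prod.fst) (M.image Prod.snd) := by
    rw [Finset.disjoint_left]
    intro a h1 h2
    obtain ⟨e, he, h3⟩ := Finset.mem_image.1 h1
    obtain ⟨e', he', h4⟩ := Finset.mem_image.1 h2
    by_cases hee : e = e'
    · subst hee
      have h5 := (h.1 e he).2.2
      rw [h3, h4] at h5
      exact hirr a h5
    · exact (h.2 e he e' he' hee).2.1 (h3.trans h4.symm)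
  have h1 : (M.image Prod.fst).card = M.card := by
    refine Finset.card_image_of_injOn ?_
    intro e he e' he' hee
    by_contra hne
    exact (h.2 e he e' he' hne).1 hee
  have h2 : (M.image Prod.snd).card = M.card := by
    refine Finset.card_image_of_injOn ?_
    intro e he e' he' hee
    by_contra hne
    exact (h.2 e he e' he' hne).2.2.2 hee
  unfold ends
  rw [Finset.card_union_of_disjoint hd, h1, h2]
  ring

theorem mat_dich {α : Type*} {E : α → α → Prop} (hirr : ∀ a, ¬ E a a) (S : Finset α) (n : ℕ) :
    (∃ M, IsMat E S M ∧ M.card = n) ∨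
      ∃ M, IsMat E S M ∧ M.card < n ∧ ∀ a ∈ S, ∀ b ∈ S, E a b → a ∈ ends M ∨ b ∈ ends M := by
  induction n with
  | zero =>
    left
    refine ⟨∅, ⟨?_, ?_⟩, Finset.card_empty⟩
    · intro e he
      exact absurd he (Finset.notMem_empty e)
    · intro e he
      exact absurd he (Finset.notMem_empty e)
  | succ n ih =>
    rcases ih with ⟨M, hM, hc⟩ | ⟨M, hM, hc, hmax⟩
    · by_cases hmax : ∀ a ∈ S, ∀ b ∈ S, E a b → a ∈ ends M ∨ b ∈ ends M
      · right
        exact ⟨M, hM, by omega, hmax⟩
      · left
        push Not at hmax
        obtain ⟨a, ha, b, hb, hab, haM, hbM⟩ := hmax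
        have hfst : ∀ e ∈ M, e.1 ∈ ends M := fun e he =>
          Finset.mem_union_left _ (Finset.mem_image_of_mem _ he)
        have hsnd : ∀ e ∈ M, e.2 ∈ ends M := fun e he =>
          Finset.mem_union_right _ (Finset.mem_image_of_mem _ he)
        have hnew : (a, b) ∉ M := fun h => haM (hfst _ h)
        refine ⟨insert (a, b) M, ⟨?_, ?_⟩, ?_⟩
        · intro e he
          rcases Finset.mem_insert.1 he with h1 | h1
          · subst h1
            exact ⟨ha, hb, hab⟩
          · exact hM.1 e h1
        · intro e he e' he' hne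
          rcases Finset.mem_insert.1 he with h1 | h1
          · rcases Finset.mem_insert.1 he' with h2 | h2
            · exact absurd (h1.trans h2.symm) hne
            · subst h1
              refine ⟨?_, ?_, ?_, ?_⟩
              · intro h; exact haM (by rw [show a = e'.1 from h]; exact hfst _ h2)
              · intro h; exact haM (by rw [show a = e'.2 from h]; exact hsnd _ h2)
              · intro h; exact hbM (by rw [show b = e'.1 from h]; exact hfst _ h2)
              · intro h; exact hbM (by rw [show b = e'.2 from h]; exact hsnd _ h2)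
          · rcases Finset.mem_insert.1 he' with h2 | h2
            · subst h2
              refine ⟨?_, ?_, ?_, ?_⟩
              · intro h; exact haM (by rw [← show e.1 = a from h]; exact hfst _ h1)
              · intro h; exact hbM (by rw [← show e.1 = b from h]; exact hfst _ h1)
              · intro h; exact haM (by rw [← show e.2 = a from h]; exact hsnd _ h1)
              · intro h; exact hbM (by rw [← show e.2 = b from h]; exact hsnd _ h1)
            · exact hM.2 e h1 e' h2 hne
        · rw [Finset.card_insert_of_notMem hnew, hc]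
    · right
      exact ⟨M, hM, by omega, hmax⟩

end Pool.Agent.DBK
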