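import Pool.Agent.DBK.SysA

/-! # DBK: joinedness goes back along a swap

`joined_back`. Let `x = s.1`, `s' = sw s i y`, so `P s' j = P s j` and `Vp s' i j = Vp s i j`. Let `w' ∈ T A s' i`,
`z' ∈ T A s' j` be the two vertices in `hJ`. By `hS.bic` for `s'` and `s`, `T A s' i` is `insert x (T A s i)` without
`y` (each of the four vertices of the club of `s` has exactly the three others as neighbours in the club; `hS.closed`,
`hS.card`).
Case `w' = x`. Then `z' ∈ P s j` is adjacent to `x`, so `z' ∈ T A s j` (`mem_T_of_adj`). The pair `y`, `z'` shows that `s` is joined: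
`y` and `z'` are adjacent since `z' ∈ T A s' j`; `Clean A (sw s i y) j` is `hyj`; `Clean A (sw s j z') i` by
`good_transfer` from the state `sw s' j z'`.
Case `w' ≠ x`. Then `w' ∈ T A s i`. Consider `s3 = sw s' j z'`, with token `z'`, clean at `j` (`hS.swap`) and at `i` (by `hJ`). `w' ∈ P s3 i = P s' i` is
adjacent to `z'`, so `w' ∈ T A s3 i`; by `comp_eq` for `s'`, `s3`, `T A s3 i = T A s' i`, which contains `x`. So `z'` is adjacent to
`x`, and `z' ∈ T A s j` (`mem_T_of_adj`). The pair `w'`, `z'` shows that `s` is joined; goodness of `w'` and of `z'` by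
`good_transfer` from `sw s' i w'` and `sw s' j z'`.
`joined_place`: by `hS.same` `s' = s` or `s'` is a swap of `s` in part `i` or `j`; for `j` use `joined_symm`.
-/

namespace Pool.Agent.DBK

open Finset
open scoped Classical

variable {V : Type*} [Fintype V] {m : ℕ} {A : V → V → Prop}


theorem joined_back {b : ℕ} {O : Finset (St V m)} (hS : Sys A m b O) {i j : Fin m}
    (hij : i ≠ j) {s : St V m} (hs : s ∈ O) (hi : Clean A s i) (hj : Clean A s j) {y : V}
    (hy : y ∈ T A s i) (hyj : Clean A (sw s i y) j) (hJ : Joined A (sw s i y) i j) :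
    Joined A s i j := by
  have hn := hS.norm s hs
  obtain ⟨hs', hi'⟩ := hS.swap s hs i hi y hy
  have hyP : y ∈ P s i := T_sub s i hy
  have hyI : y ∈ insert s.1 (P s i) := mem_insert_of_mem hyP
  have hyx : y ≠ s.1 := by
    intro e
    rw [e] at hyP
    simp [P] at hyP
  have hPj : P (sw s i y) j = P s j := P_sw_other hn hij.symm hyI
  have hPi : P (sw s i y) i = insert s.1 ((P s i).erase y) := P_sw_self hn hyP
  have hV : Vp (sw s i y) i j = Vp s i j := Vp_sw_left hn hij hyI
  have hn' : (sw s i y).2 (sw s i y).1 = none := sw_norm s i y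
  obtain ⟨w', hw', z', hz', hcw, hcz, hadj⟩ := hJ
  have hz'P : z' ∈ P (sw s i y) j := T_sub _ j hz'
  have hz'Ps : z' ∈ P s j := hPj ▸ hz'P
  have hz'I : z' ∈ insert (sw s i y).1 (P (sw s i y) j) := mem_insert_of_mem hz'P
  have hyz : A y z' := (mem_filter.1 hz').2
  obtain ⟨hs3, hj3⟩ := hS.swap _ hs' j hyj z' hz'
  have key : z' ∈ T A s j → Clean A (sw s j z') i := by
    intro hz
    obtain ⟨hs4, hj4⟩ := hS.swap s hs j hj z' hz
    have hVV : Vp (sw (sw s i y) j z') i j = Vp (sw s j z') i j := by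
      rw [Vp_sw_right hn' hij hz'I, hV,
        Vp_sw_right hn hij (mem_insert_of_mem hz'Ps)]
    exact (good_transfer hS hij hs3 hs4 rfl hVV hcz hj3 (Or.inr hj4)).1
  by_cases hwx : w' = s.1
  · subst hwx
    have hz : z' ∈ T A s j := mem_T_of_adj hS hs hj hz'Ps hadj
    exact ⟨y, hy, z', hz, hyj, key hz, Or.inl hyz⟩
  · have hw'P : w' ∈ P (sw s i y) i := T_sub _ i hw'
    have hw'I : w' ∈ insert (sw s i y).1 (P (sw s i y) i) := mem_insert_of_mem hw'P
    have hw'Ps : w' ∈ P s i := by
      rw [hPi] at hw'P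
      rcases mem_insert.1 hw'P with h | h
      · exact absurd h hwx
      · exact mem_of_mem_erase h
    have hyw : A y w' := (mem_filter.1 hw').2
    have hw : w' ∈ T A s i :=
      hS.closed s hs i hi y (mem_insert_of_mem hy) w' hw'Ps (Or.inl hyw)
    have hxT : s.1 ∈ T A (sw s i y) i := by
      refine mem_filter.2 ⟨?_, ?_⟩
      · rw [hPi]
        exact mem_insert_self _ _
      · exact hS.bic s hs i hi y (mem_insert_of_mem hy) s.1 (mem_insert_self _ _) hyx
    have hP3 : P (sw (sw s i y) j z') i = P (sw s i y) i := P_sw_other hn' hij hz'I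
    have hw3 : w' ∈ T A (sw (sw s i y) j z') i :=
      mem_T_of_adj hS hs3 hcz (hP3 ▸ hw'P) hadj.symm
    have hTT : T A (sw (sw s i y) j z') i = T A (sw s i y) i :=
      comp_eq hS hs3 hs' hcz hi' hP3 hw3 hw'
    have hzx : A z' s.1 := by
      have : s.1 ∈ T A (sw (sw s i y) j z') i := hTT ▸ hxT
      exact (mem_filter.1 this).2
    have hz : z' ∈ T A s j := mem_T_of_adj hS hs hj hz'Ps (Or.inr hzx)
    obtain ⟨hs5, hi5⟩ := hS.swap _ hs' i hi' w' hw'
    obtain ⟨hs6, hi6⟩ := hS.swap s hs i hi w' hw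
    have hVV : Vp (sw (sw s i y) i w') i j = Vp (sw s i w') i j := by
      rw [Vp_sw_left hn' hij hw'I, hV,
        Vp_sw_left hn hij (mem_insert_of_mem hw'Ps)]
    exact ⟨w', hw, z', hz, (good_transfer hS hij hs5 hs6 rfl hVV hi5 hcw (Or.inl hi6)).2,
      key hz, hadj⟩

theorem joined_place {b : ℕ} {O : Finset (St V m)} (hS : Sys A m b O) {i j : Fin m}
    (hij : i ≠ j) {s s' : St V m} (hs : s ∈ O) (hs' : s' ∈ O) (hi : Clean A s i)
    (hj : Clean A s j) (hi' : Clean A s' i) (hj' : Clean A s' j)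
    (hp : place s i = place s' i ∨ place s j = place s' j) (hJ : Joined A s' i j) :
    Joined A s i j := by
  rcases hp with hp | hp
  · rcases hS.same s hs s' hs' i hi hi' hp with h | ⟨y, hy, h⟩
    · rw [h] at hJ
      exact hJ
    · rw [h] at hJ hj'
      exact joined_back hS hij hs hi hj hy hj' hJ
  · rcases hS.same s hs s' hs' j hj hj' hp with h | ⟨y, hy, h⟩
    · rw [h] at hJ
      exact hJ
    · rw [h] at hJ hi'
      exact joined_symm (joined_back hS hij.symm hs hj hi hy hi' (joined_symm hJ))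

end Pool.Agent.DBK
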