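import Pool.Agent.DBK.ValE

/-! # DBK: the system of optimal states

`club`, `valid_bad`, `opt_move` (with `club`: every `y ∈ T A s j` satisfies the colourability condition). For `same`:
`place s j = place s' j` gives `insert s.1 (P s j) = insert s'.1 (P s' j)` (`P_self`), so `s'.1` is in
`insert s.1 (P s j)`, and removing it leaves `P s' j`, which is `Col A 3`; by `club` `s'.1 = s.1` or
`s'.1 ∈ T A s j`. Use `eq_sw_of_place` (and `sw_token`).
-/

namespace Pool.Agent.DBK

open Finset
open scoped Classical

variable {V : Type*} [Fintype V] {m : ℕ} {A : V → V → Prop}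


theorem optSys {r b : ℕ} (hB : Base A m r b) :
    Sys A m b (univ.filter (fun s : St V m => IsOpt A r s)) := by
  have hO : ∀ s : St V m, s ∈ univ.filter (fun s : St V m => IsOpt A r s) ↔ IsOpt A r s :=
    fun s => by simp
  have hTP : ∀ (s : St V m) (j : Fin m), T A s j ⊆ P s j := fun s j => Finset.filter_subset _ _
  refine
    { loop := hB.loop
      norm := fun s hs => ((hO s).1 hs).1.1
      bad := fun s hs => valid_bad hB ((hO s).1 hs).1
      card := fun s hs j hj => (club hB ((hO s).1 hs) hj).2.1
      bic := fun s hs j hj => (club hB ((hO s).1 hs) hj).2.2.1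
      closed := fun s hs j hj => (club hB ((hO s).1 hs) hj).2.2.2
      swap := ?_
      same := ?_ }
  · intro s hs j hj y hy
    have hs' := (hO s).1 hs
    have hyP : y ∈ insert s.1 (P s j) := Finset.mem_insert_of_mem (hTP s j hy)
    have hc := ((club hB hs' hj).1 y hyP).2 (Finset.mem_insert_of_mem hy)
    have h := opt_move hB hs' hj hyP hc
    exact ⟨(hO _).2 h.1, h.2.1⟩
  · intro s hs s' hs' j hj _ hpl
    have h1 := (hO s).1 hs
    have h2 := (hO s').1 hs'
    have e1 := P_self (s := s) h1.1.1 j
    have e2 := P_self (s := s') h2.1.1 j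
    have e3 : insert s.1 (P s j) = insert s'.1 (P s' j) := by
      rw [e1, e2, hpl]
    have hmem : s'.1 ∈ insert s.1 (P s j) := by
      rw [e3]
      exact Finset.mem_insert_self _ _
    have hnot : s'.1 ∉ P s' j := by
      simp [P]
    have her : (insert s.1 (P s j)).erase s'.1 = P s' j := by
      rw [e3]
      exact Finset.erase_insert hnot
    have hc : Col A 3 ((insert s.1 (P s j)).erase s'.1) := by
      rw [her]
      exact h2.1.2.1 j
    have h3 := ((club hB h1 hj).1 s'.1 hmem).1 hc
    have h4 := eq_sw_of_place (s := s) (s' := s') h2.1.1 hpl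
    rcases Finset.mem_insert.1 h3 with h5 | h5
    · left
      rw [h4, h5]
      exact sw_token h1.1.1 j
    · right
      exact ⟨s'.1, h5, h4⟩

end Pool.Agent.DBK
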