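import Pool.Agent.DBK.NoF
import Pool.Agent.DBK.Fiber
import Pool.Agent.DBK.Leaf

/-! # DBK: counting unjoined states for a pair of parts

Let `E` be the set on the left, `N1`, `N2` the two sets on the right, and suppose `2 |E| > |N1| + |N2|`; so `E` is not empty. Let
`f s = place s i`, `g s = place s j`. For `q ∈ E.image f` the states `s' ∈ O` with `Clean A s' i`, `f s' = q` are four (`fiber`), and
each of them is in `E` (by `joined_place`, if it is clean at `j`) or in `N1`. Summing up, `4 |E.image f| ≤ |E| + |N1|`, and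
in the same way `4 |E.image g| ≤ |E| + |N2|`. So `|E.image f| + |E.image g| < |E|`; `leaf` gives a set `F`, and `noF` a joined state in
`F ⊆ E`, a contradiction.
-/

namespace Pool.Agent.DBK

open Finset
open scoped Classical

variable {V : Type*} [Fintype V] {m : ℕ} {A : V → V → Prop}

theorem pairCount_aux {α β : Type*} [DecidableEq β] (E N O : Finset α) (f : α → β) (C : α → Prop)
    (h4 : ∀ s ∈ E, (O.filter (fun s' => C s' ∧ f s' = f s)).card = 4)
    (hsub : ∀ s ∈ E, ∀ s' ∈ O, C s' → f s' = f s → s' ∈ E ∨ s' ∈ N) :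
    4 * (E.image f).card ≤ E.card + N.card := by
  set W := (E ∪ N).filter (fun s' => f s' ∈ E.image f) with hW
  have h1 : W.card = ∑ q ∈ E.image f, (W.filter (fun s' => f s' = q)).card :=
    Finset.card_eq_sum_card_fiberwise (fun s' hs' => (Finset.mem_filter.mp hs').2)
  have h2 : ∀ q ∈ E.image f, 4 ≤ (W.filter (fun s' => f s' = q)).card := by
    intro q hq
    obtain ⟨s, hs, rfl⟩ := Finset.mem_image.mp hq
    rw [← h4 s hs]
    apply Finset.card_le_card
    intro s' hs'
    obtain ⟨ha, hb, hc⟩ := Finset.mem_filter.mp hs'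
    rw [Finset.mem_filter, hW, Finset.mem_filter]
    refine ⟨⟨Finset.mem_union.mpr (hsub s hs s' ha hb hc), ?_⟩, hc⟩
    rw [hc]; exact hq
  have h3 : 4 * (E.image f).card ≤ W.card := by
    rw [h1, mul_comm]
    calc (E.image f).card * 4 = ∑ _q ∈ E.image f, 4 := by rw [Finset.sum_const, smul_eq_mul]
      _ ≤ _ := Finset.sum_le_sum h2
  calc 4 * (E.image f).card ≤ W.card := h3
    _ ≤ (E ∪ N).card := Finset.card_le_card (Finset.filter_subset _ _)
    _ ≤ E.card + N.card := Finset.card_union_le _ _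

theorem leaf' {α β γ : Type*} [i1 : DecidableEq β] [i2 : DecidableEq γ] (E : Finset α)
    (f : α → β) (g : α → γ) (hE : E.Nonempty)
    (h : (E.image f).card + (E.image g).card ≤ E.card) :
    ∃ F : Finset α, F ⊆ E ∧ F.Nonempty ∧ (∀ s ∈ F, ∃ s' ∈ F, s' ≠ s ∧ f s' = f s) ∧
      (∀ s ∈ F, ∃ s' ∈ F, s' ≠ s ∧ g s' = g s) := by
  have e1 : i1 = (fun a b => Classical.propDecidable (a = b)) := Subsingleton.elim _ _
  have e2 : i2 = (fun a b => Classical.propDecidable (a = b)) := Subsingleton.elim _ _
  subst e1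
  subst e2
  exact leaf E f g hE h

theorem pairCount {b : ℕ} {O : Finset (St V m)} (hS : Sys A m b O) {i j : Fin m}
    (hij : i ≠ j) :
    2 * (O.filter (fun s => Clean A s i ∧ Clean A s j ∧ ¬ Joined A s i j)).card ≤
      (O.filter (fun s => Clean A s i ∧ ¬ Clean A s j)).card +
        (O.filter (fun s => ¬ Clean A s i ∧ Clean A s j)).card := by
  by_contra hcon
  rw [not_le] at hcon
  set E := O.filter (fun s => Clean A s i ∧ Clean A s j ∧ ¬ Joined A s i j) with hE
  set N1 := O.filter (fun s => Clean A s i ∧ ¬ Clean A s j) with hN1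
  set N2 := O.filter (fun s => ¬ Clean A s i ∧ Clean A s j) with hN2
  have hEm : ∀ s ∈ E, s ∈ O ∧ Clean A s i ∧ Clean A s j ∧ ¬ Joined A s i j := fun s hs =>
    Finset.mem_filter.mp hs
  have h1 : 4 * (E.image (fun s => place s i)).card ≤ E.card + N1.card := by
    refine pairCount_aux E N1 O (fun s => place s i) (fun s => Clean A s i) ?_ ?_
    · intro s hs
      obtain ⟨a, b', c, d⟩ := hEm s hs
      exact fiber hS a b'
    · intro s hs s' hs' hc hf
      obtain ⟨a, b', c, d⟩ := hEm s hs
      rw [hE, hN1, Finset.mem_filter, Finset.mem_filter]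
      by_cases hcj : Clean A s' j
      · refine Or.inl ⟨hs', hc, hcj, fun hJ => d ?_⟩
        exact joined_place hS hij a hs' b' c hc hcj (Or.inl hf.symm) hJ
      · exact Or.inr ⟨hs', hc, hcj⟩
  have h2 : 4 * (E.image (fun s => place s j)).card ≤ E.card + N2.card := by
    refine pairCount_aux E N2 O (fun s => place s j) (fun s => Clean A s j) ?_ ?_
    · intro s hs
      obtain ⟨a, b', c, d⟩ := hEm s hs
      exact fiber hS a c
    · intro s hs s' hs' hc hf
      obtain ⟨a, b', c, d⟩ := hEm s hs
      rw [hE, hN2, Finset.mem_filter, Finset.mem_filter]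
      by_cases hci : Clean A s' i
      · refine Or.inl ⟨hs', hci, hc, fun hJ => d ?_⟩
        exact joined_place hS hij a hs' b' c hci hc (Or.inr hf.symm) hJ
      · exact Or.inr ⟨hs', hci, hc⟩
  have hne : E.Nonempty := by
    rw [← Finset.card_pos]
    omega
  have h3 : (E.image (fun s => place s i)).card + (E.image (fun s => place s j)).card ≤
      E.card := by omega
  obtain ⟨F, hF, hFn, hf, hg⟩ := leaf' E (fun s => place s i) (fun s => place s j) hne h3
  obtain ⟨s, hs, hJ⟩ := noF hS hij F hFn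
    (fun s hs => ⟨(hEm s (hF hs)).1, (hEm s (hF hs)).2.1, (hEm s (hF hs)).2.2.1⟩) hf hg
  exact (hEm s (hF hs)).2.2.2 hJ

end Pool.Agent.DBK
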