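import Pool.Agent.DBK.RotA

/-! # DBK: the rotation lemma

Apply `rotA` to the periodic sequence `fun i => w (i % N)`. Let `f ≡ e + k` modulo `N`, `0 < k < N`
(`e ≠ f` since there is no loop). At the times `e + t * N` the token is at `w e`; its out-neighbours
are `w f` and two vertices off the walk (`hR.out3`, `huniq`), whose colours are never changed; since the three colours are different
(`tok_out_inj`, all colours `< 3`), the colour of `w f` at that time, `C (e + t * N + k)`, does not depend on `t`.
By `C (n + (N-1)) = C n` it equals `C (e + k + t)`. So `C` is constant on `n ≥ e + k`, hence on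
`n ≥ 1` by periodicity, and `φ (w i) = ψ 0 (w (0 + i)) = C i`. `rot_in` is `rot_out` for the reversed
digraph.
-/

namespace Pool.Agent.DBK

open Finset
open scoped Classical

variable {V : Type*} {A : V → V → Prop}


theorem rot_out {R : Finset V} (hR : Crit3 A R) {φ : V → ℕ} {N : ℕ} (hN : 2 ≤ N) (w : ℕ → V)
    (inj : ∀ i j, i < N → j < N → w i = w j → i = j) (mem : ∀ i < N, w i ∈ R)
    (adj : ∀ i, i + 1 < N → A (w i) (w (i + 1)) ∨ A (w (i + 1)) (w i))
    (adjl : A (w (N - 1)) (w 0) ∨ A (w 0) (w (N - 1)))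
    (h0 : Tok A R (w 0) φ) {e f : ℕ} (he : e < N) (hf : f < N) (hef : A (w e) (w f))
    (huniq : ∀ g < N, A (w e) (w g) → g = f) :
    ∀ i j, 0 < i → i < N → 0 < j → j < N → φ (w i) = φ (w j) := by
  have hN0 : 0 < N := by omega
  let w' : ℕ → V := fun i => w (i % N)
  have hw' : ∀ i < N, w' i = w i := by
    intro i hi
    change w (i % N) = w i
    rw [Nat.mod_eq_of_lt hi]
  have per' : ∀ i, w' (i + N) = w' i := by
    intro i
    change w ((i + N) % N) = w (i % N)
    rw [Nat.add_mod_right]
  have inj' : ∀ i j, i < N → j < N → w' i = w' j → i = j := by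
    intro i j hi hj h
    rw [hw' i hi, hw' j hj] at h
    exact inj i j hi hj h
  have mem' : ∀ i, w' i ∈ R := fun i => mem _ (Nat.mod_lt _ hN0)
  have adj' : ∀ i, A (w' i) (w' (i + 1)) ∨ A (w' (i + 1)) (w' i) := by
    intro i
    change A (w (i % N)) (w ((i + 1) % N)) ∨ A (w ((i + 1) % N)) (w (i % N))
    have hlt := Nat.mod_lt i hN0
    rcases lt_or_eq_of_le (show i % N + 1 ≤ N by omega) with h1 | h1
    · have e1 : (i + 1) % N = i % N + 1 := by
        rw [Nat.add_mod, Nat.mod_eq_of_lt (show 1 < N by omega), Nat.mod_eq_of_lt h1]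
      rw [e1]
      exact adj _ h1
    · have e1 : (i + 1) % N = 0 := by
        rw [Nat.add_mod, Nat.mod_eq_of_lt (show 1 < N by omega), h1, Nat.mod_self]
      have e2 : i % N = N - 1 := by omega
      rw [e1, e2]
      exact adjl
  have h0' : Tok A R (w' 0) φ := by
    rw [hw' 0 hN0]
    exact h0
  obtain ⟨ψ, C, hψ0, htok, hoff, hwalk, hCper⟩ := rotA hR hN w' per' inj' mem' adj' h0'
  have hfe : e ≠ f := by
    intro h
    rw [h] at hef
    exact hR.loop _ hef
  obtain ⟨k, hk0, hkN, hk⟩ : ∃ k, 0 < k ∧ k < N ∧ (e + k) % N = f := by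
    rcases lt_or_gt_of_ne hfe with h | h
    · refine ⟨f - e, by omega, by omega, ?_⟩
      rw [show e + (f - e) = f by omega]
      exact Nat.mod_eq_of_lt hf
    · refine ⟨f + N - e, by omega, by omega, ?_⟩
      rw [show e + (f + N - e) = f + N by omega, Nat.add_mod_right]
      exact Nat.mod_eq_of_lt hf
  -- the three out-neighbours
  let O : Finset V := R.filter (fun y => A (w e) y)
  have hO3 : O.card = 3 := hR.out3 _ (mem e he)
  have hwf : w f ∈ O := mem_filter.2 ⟨mem f hf, hef⟩
  have hsum : ∀ χ : V → ℕ, Tok A R (w e) χ → ∑ y ∈ O, χ y = 3 := by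
    intro χ hχ
    have hinj : Set.InjOn χ (O : Set V) := by
      intro y hy y' hy' h
      rw [mem_coe, mem_filter] at hy hy'
      exact tok_out_inj hR hχ hy.1 hy'.1 hy.2 hy'.2 h
    have himg : O.image χ = Finset.range 3 := by
      apply Finset.eq_of_subset_of_card_le
      · intro c hc
        rw [mem_image] at hc
        obtain ⟨y, hy, rfl⟩ := hc
        rw [mem_filter] at hy
        rw [mem_range]
        apply hχ.2.1 y hy.1
        intro h
        rw [h] at hy
        exact hR.loop _ hy.2
      · rw [card_range, card_image_of_injOn hinj, hO3]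
    have h1 : ∑ c ∈ O.image χ, c = ∑ y ∈ O, χ y := Finset.sum_image hinj
    rw [← h1, himg]
    rfl
  have hconst : ∀ t, C (e + t * N + k) + ∑ y ∈ O.erase (w f), φ y = 3 := by
    intro t
    have e1 : w' (e + t * N) = w e := by
      change w ((e + t * N) % N) = w e
      rw [Nat.add_mul_mod_self_right, Nat.mod_eq_of_lt he]
    have e2 : w' (e + t * N + k) = w f := by
      change w ((e + t * N + k) % N) = w f
      rw [show e + t * N + k = e + k + t * N by ring, Nat.add_mul_mod_self_right, hk]
    have h1 : Tok A R (w e) (ψ (e + t * N)) := by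
      have := htok (e + t * N)
      rw [e1] at this
      exact this
    have h2 := hsum _ h1
    rw [← Finset.add_sum_erase _ _ hwf] at h2
    have h3 : ψ (e + t * N) (w f) = C (e + t * N + k) := by
      rw [← e2]
      exact hwalk _ _ hk0 hkN
    have h4 : ∑ y ∈ O.erase (w f), ψ (e + t * N) y = ∑ y ∈ O.erase (w f), φ y := by
      apply Finset.sum_congr rfl
      intro y hy
      rw [mem_erase, mem_filter] at hy
      apply hoff
      intro s hs
      have h5 : A (w e) (w (s % N)) := by
        have : y = w (s % N) := hs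
        rw [← this]
        exact hy.2.2
      have h6 := huniq _ (Nat.mod_lt _ hN0) h5
      apply hy.1
      have : y = w (s % N) := hs
      rw [this, h6]
    rw [h3, h4] at h2
    exact h2
  have hCper' : ∀ t n, 0 < n → C (n + t * (N - 1)) = C n := by
    intro t
    induction t with
    | zero =>
      intro n _
      simp
    | succ t ih =>
      intro n hn
      rw [show n + (t + 1) * (N - 1) = (n + t * (N - 1)) + (N - 1) by ring]
      rw [hCper _ (by omega)]
      exact ih n hn
  have hC1 : ∀ t, C (e + k + t) + ∑ y ∈ O.erase (w f), φ y = 3 := by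
    intro t
    have h1 := hconst t
    have e1 : e + t * N + k = (e + k + t) + t * (N - 1) := by
      obtain ⟨M, rfl⟩ : ∃ M, N = M + 1 := ⟨N - 1, by omega⟩
      rw [Nat.add_sub_cancel]
      ring
    rw [e1, hCper' t _ (by omega)] at h1
    exact h1
  have hC2 : ∀ n, 0 < n → C n + ∑ y ∈ O.erase (w f), φ y = 3 := by
    intro n hn
    have h1 := hCper' (e + k) n hn
    have h2 : e + k ≤ n + (e + k) * (N - 1) := by
      have : (e + k) * 1 ≤ (e + k) * (N - 1) := Nat.mul_le_mul_left _ (by omega)
      omega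
    obtain ⟨t, ht⟩ := Nat.exists_eq_add_of_le h2
    rw [← h1, ht]
    exact hC1 t
  have hφ : ∀ i, 0 < i → i < N → φ (w i) = C i := by
    intro i hi hiN
    have h1 := hwalk 0 i hi hiN
    rw [Nat.zero_add, hψ0, hw' i hiN] at h1
    exact h1
  intro i j hi hiN hj hjN
  rw [hφ i hi hiN, hφ j hj hjN]
  have h1 := hC2 i hi
  have h2 := hC2 j hj
  omega

theorem rot_in {R : Finset V} (hR : Crit3 A R) {φ : V → ℕ} {N : ℕ} (hN : 2 ≤ N) (w : ℕ → V)
    (inj : ∀ i j, i < N → j < N → w i = w j → i = j) (mem : ∀ i < N, w i ∈ R)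
    (adj : ∀ i, i + 1 < N → A (w i) (w (i + 1)) ∨ A (w (i + 1)) (w i))
    (adjl : A (w (N - 1)) (w 0) ∨ A (w 0) (w (N - 1)))
    (h0 : Tok A R (w 0) φ) {e f : ℕ} (he : e < N) (hf : f < N) (hef : A (w f) (w e))
    (huniq : ∀ g < N, A (w g) (w e) → g = f) :
    ∀ i j, 0 < i → i < N → 0 < j → j < N → φ (w i) = φ (w j) :=
  rot_out (A := fun u v => A v u) (crit3_flip hR) hN w inj mem
    (fun i hi => (adj i hi).symm) adjl.symm (tok_flip h0) he hf hef huniq

end Pool.Agent.DBK
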