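import Pool.Agent.DBK.ValB

/-! # DBK: first consequences of the properties of a system

`comp_eq`: `T A s j` is a biclique with three vertices (`hS.bic`, `hS.card`), and every vertex of `P s j` adjacent to
a vertex of `T A s j` is in `T A s j` (`hS.closed`); the same for `s'`. `good_transfer`: `deg_Vp` says that the sum
of the two degrees is twelve for both states, and one of them is six.
-/

namespace Pool.Agent.DBK

open Finset
open scoped Classical

variable {V : Type*} [Fintype V] {m : ℕ} {A : V → V → Prop}


theorem mem_T_of_adj {b : ℕ} {O : Finset (St V m)} (hS : Sys A m b O) {s : St V m} (hs : s ∈ O)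
    {j : Fin m} (hj : Clean A s j) {v : V} (hv : v ∈ P s j) (h : A s.1 v ∨ A v s.1) :
    v ∈ T A s j :=
  hS.closed s hs j hj s.1 (mem_insert_self _ _) v hv h

theorem T_sub (s : St V m) (j : Fin m) : T A s j ⊆ P s j := filter_subset _ _

theorem deg_Vp (hl : ∀ v, ¬ A v v) {s : St V m} {i j : Fin m} (hij : i ≠ j) :
    deg A s.1 (Vp s i j) = deg A s.1 (P s i) + deg A s.1 (P s j) := by
  have hd : Disjoint (P s i) (P s j) := by
    rw [Finset.disjoint_left]
    intro v hv hv'
    simp only [P, mem_filter, mem_univ, true_and] at hv hv'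
    exact hij (Option.some_injective _ (hv.2.symm.trans hv'.2))
  have h1 : outd A s.1 (Vp s i j) = outd A s.1 (P s i) + outd A s.1 (P s j) := by
    unfold outd Vp
    rw [filter_insert, if_neg (hl s.1), filter_union,
      card_union_of_disjoint (disjoint_filter_filter hd)]
  have h2 : ind A s.1 (Vp s i j) = ind A s.1 (P s i) + ind A s.1 (P s j) := by
    unfold ind Vp
    rw [filter_insert, if_neg (hl s.1), filter_union,
      card_union_of_disjoint (disjoint_filter_filter hd)]
  unfold deg
  rw [h1, h2]
  omega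

theorem Vp_comm (s : St V m) (i j : Fin m) : Vp s i j = Vp s j i := by
  unfold Vp
  rw [union_comm]

theorem Vp_sw_left {s : St V m} (hn : s.2 s.1 = none) {i j : Fin m} (hij : i ≠ j) {y : V}
    (hy : y ∈ insert s.1 (P s i)) : Vp (sw s i y) i j = Vp s i j := by
  unfold Vp
  rw [P_sw_self' hn hy, P_sw_other hn hij.symm hy]
  have h1 : (sw s i y).1 = y := rfl
  rw [h1, ← insert_union, insert_erase hy, insert_union]

theorem Vp_sw_right {s : St V m} (hn : s.2 s.1 = none) {i j : Fin m} (hij : i ≠ j) {y : V}
    (hy : y ∈ insert s.1 (P s j)) : Vp (sw s j y) i j = Vp s i j := by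
  rw [Vp_comm, Vp_sw_left hn hij.symm hy, Vp_comm]

/-- Two clubs with a common vertex in the same part coincide. -/
theorem comp_eq {b : ℕ} {O : Finset (St V m)} (hS : Sys A m b O) {s s' : St V m} (hs : s ∈ O)
    (hs' : s' ∈ O) {j : Fin m} (hc : Clean A s j) (hc' : Clean A s' j) (hP : P s j = P s' j)
    {z : V} (hz : z ∈ T A s j) (hz' : z ∈ T A s' j) : T A s j = T A s' j := by
  apply Finset.Subset.antisymm
  · intro w hw
    by_cases hzw : z = w
    · rw [← hzw]; exact hz'
    · exact hS.closed s' hs' j hc' z (mem_insert_of_mem hz') w (hP ▸ T_sub s j hw)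
        (Or.inl (hS.bic s hs j hc z (mem_insert_of_mem hz) w (mem_insert_of_mem hw) hzw))
  · intro w hw
    by_cases hzw : z = w
    · rw [← hzw]; exact hz
    · exact hS.closed s hs j hc z (mem_insert_of_mem hz) w (hP ▸ T_sub s' j hw)
        (Or.inl (hS.bic s' hs' j hc' z (mem_insert_of_mem hz') w (mem_insert_of_mem hw) hzw))

/-- Whether the token is good for the pair `i`, `j` depends only on the token and on `Vp`. -/
theorem good_transfer {b : ℕ} {O : Finset (St V m)} (hS : Sys A m b O) {i j : Fin m}
    (hij : i ≠ j) {s s' : St V m} (hs : s ∈ O) (hs' : s' ∈ O) (h1 : s.1 = s'.1)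
    (hV : Vp s i j = Vp s' i j) (hi : Clean A s i) (hj : Clean A s j)
    (hc' : Clean A s' i ∨ Clean A s' j) : Clean A s' i ∧ Clean A s' j := by
  have e1 := deg_Vp (s := s) hS.loop hij
  have e2 := deg_Vp (s := s') hS.loop hij
  rw [h1, hV] at e1
  unfold Clean at *
  rw [h1] at hi hj
  omega

theorem joined_symm {s : St V m} {i j : Fin m} (h : Joined A s i j) : Joined A s j i := by
  obtain ⟨w, hw, z, hz, h1, h2, h3⟩ := h
  exact ⟨z, hz, w, hw, h2, h1, h3.symm⟩

end Pool.Agent.DBK
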