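import Pool.Agent.DBK.ColA

/-! # DBK: reversing all arcs; token colourings exist

`Relation.TransGen` of the reversed relation is the reversed relation of `Relation.TransGen`
(`Relation.transGen_swap`). `tok_exists` is `hR.cr`.
-/

namespace Pool.Agent.DBK

open Finset
open scoped Classical

variable {V : Type*} {A : V → V → Prop}

theorem acy_flip_aux {S : Set V} (h : AcyclicOn A S) : AcyclicOn (fun u v => A v u) S := by
  intro v hv
  have hv' : Relation.TransGen (Function.swap (fun x y => x ∈ S ∧ y ∈ S ∧ A x y)) v v := by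
    refine Relation.TransGen.mono ?_ _ _ hv
    intro x y hxy
    exact ⟨hxy.2.1, hxy.1, hxy.2.2⟩
  rw [Relation.transGen_swap] at hv'
  exact h v hv'

theorem acy_flip {S : Set V} : AcyclicOn (fun u v => A v u) S ↔ AcyclicOn A S :=
  ⟨fun h => acy_flip_aux h, fun h => acy_flip_aux h⟩

theorem col_flip {r : ℕ} {S : Finset V} : Col (fun u v => A v u) r S ↔ Col A r S := by
  constructor
  · rintro ⟨φ, h1, h2⟩
    exact ⟨φ, h1, fun i => acy_flip.1 (h2 i)⟩
  · rintro ⟨φ, h1, h2⟩
    exact ⟨φ, h1, fun i => acy_flip.2 (h2 i)⟩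

theorem tok_flip {R : Finset V} {x : V} {φ : V → ℕ} (h : Tok A R x φ) :
    Tok (fun u v => A v u) R x φ :=
  ⟨h.1, h.2.1, fun i => acy_flip.2 (h.2.2 i)⟩

theorem crit3_flip {R : Finset V} (h : Crit3 A R) : Crit3 (fun u v => A v u) R where
  loop := fun v => h.loop v
  out3 := fun v hv => h.in3 v hv
  in3 := fun v hv => h.out3 v hv
  nc := fun hc => h.nc (col_flip.1 hc)
  cr := fun v hv => col_flip.2 (h.cr v hv)

theorem tok_exists {R : Finset V} (hR : Crit3 A R) {x : V} (hx : x ∈ R) : ∃ φ, Tok A R x φ := by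
  obtain ⟨φ, h1, h2⟩ := hR.cr x hx
  refine ⟨φ, hx, fun v hv hvx => h1 v (Finset.mem_erase.2 ⟨hvx, hv⟩), fun i => ?_⟩
  refine acy_mono (h2 i) ?_
  intro v hv
  exact ⟨Finset.mem_erase.2 ⟨hv.2.1, hv.1⟩, hv.2.2⟩

end Pool.Agent.DBK
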