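import Pool.Agent.DBK.TokA

/-! # DBK: the neighbours of the token, and token moves

If the token `x` had no out-neighbour of colour `i < 3` then `x` could be coloured `i` (`exists_out`,
with `φ' = Function.update φ x i`), so `R` would be colourable, against `hR.nc`. The three colours
occur on the three out-neighbours (`hR.out3`), hence every colour occurs exactly once
(`tok_out_inj`: map the 3-element set of out-neighbours onto the colours `0, 1, 2`). The in-versions
follow from the out-versions for the reversed digraph (`crit3_flip`, `tok_flip`). `tok_move`: `y` is the only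
out-neighbour (or in-neighbour) of `x` in the class of `y`, so `x` is a sink (source) of the new class.
-/

namespace Pool.Agent.DBK

open Finset
open scoped Classical

variable {V : Type*} {A : V → V → Prop}


theorem tok_out_exists {R : Finset V} (hR : Crit3 A R) {x : V} {φ : V → ℕ} (h : Tok A R x φ)
    {i : ℕ} (hi : i < 3) : ∃ y ∈ R, y ≠ x ∧ A x y ∧ φ y = i := by
  by_contra hc
  push Not at hc
  apply hR.nc
  refine ⟨Function.update φ x i, ?_, ?_⟩
  · intro v hv
    by_cases hvx : v = x
    · subst hvx; simpa using hi
    · rw [Function.update_of_ne hvx]; exact h.2.1 v hv hvx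
  · intro j
    by_cases hj : j = i
    · subst hj
      refine acy_mono (T := insert x {v | v ∈ R ∧ v ≠ x ∧ φ v = j})
        (acy_insert_sink (h.2.2 j) (hR.loop x) ?_) ?_
      · intro y hy hxy
        exact hc y hy.1 hy.2.1 hxy hy.2.2
      · intro v hv
        by_cases hvx : v = x
        · exact Or.inl hvx
        · right
          refine ⟨hv.1, hvx, ?_⟩
          have := hv.2
          rwa [Function.update_of_ne hvx] at this
    · refine acy_mono (h.2.2 j) ?_
      intro v hv
      have hvx : v ≠ x := by
        rintro rfl
        have := hv.2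
        rw [Function.update_self] at this
        exact hj this.symm
      refine ⟨hv.1, hvx, ?_⟩
      have := hv.2
      rwa [Function.update_of_ne hvx] at this

theorem tok_out_inj {R : Finset V} (hR : Crit3 A R) {x : V} {φ : V → ℕ} (h : Tok A R x φ)
    {y y' : V} (hy : y ∈ R) (hy' : y' ∈ R) (hxy : A x y) (hxy' : A x y') (e : φ y = φ y') :
    y = y' := by
  have hcard : (R.filter (fun y => A x y)).card = 3 := hR.out3 x h.1
  have hsub : Finset.range 3 ⊆ (R.filter (fun y => A x y)).image φ := by
    intro i hi
    obtain ⟨z, hz, _, hxz, hzi⟩ := tok_out_exists hR h (Finset.mem_range.1 hi)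
    exact Finset.mem_image.2 ⟨z, Finset.mem_filter.2 ⟨hz, hxz⟩, hzi⟩
  have h1 := Finset.card_le_card hsub
  rw [Finset.card_range] at h1
  have h2 : ((R.filter (fun y => A x y)).image φ).card = (R.filter (fun y => A x y)).card :=
    le_antisymm Finset.card_image_le (by rw [hcard]; exact h1)
  have hinj := Finset.card_image_iff.1 h2
  exact hinj (by simpa using ⟨hy, hxy⟩) (by simpa using ⟨hy', hxy'⟩) e

theorem tok_in_exists {R : Finset V} (hR : Crit3 A R) {x : V} {φ : V → ℕ} (h : Tok A R x φ)
    {i : ℕ} (hi : i < 3) : ∃ y ∈ R, y ≠ x ∧ A y x ∧ φ y = i :=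
  tok_out_exists (A := fun u v => A v u) (crit3_flip hR) (tok_flip h) hi

theorem tok_in_inj {R : Finset V} (hR : Crit3 A R) {x : V} {φ : V → ℕ} (h : Tok A R x φ)
    {y y' : V} (hy : y ∈ R) (hy' : y' ∈ R) (hxy : A y x) (hxy' : A y' x) (e : φ y = φ y') :
    y = y' :=
  tok_out_inj (A := fun u v => A v u) (crit3_flip hR) (tok_flip h) hy hy' hxy hxy' e

/-- The token moves along an arc, in either direction, and the old place of the token gets the
colour of the new one. -/
theorem tok_move {R : Finset V} (hR : Crit3 A R) {x : V} {φ : V → ℕ} (h : Tok A R x φ)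
    {y : V} (hy : y ∈ R) (hxy : A x y ∨ A y x) : Tok A R y (Function.update φ x (φ y)) := by
  have hyx : y ≠ x := by
    rintro rfl
    rcases hxy with h1 | h1 <;> exact hR.loop _ h1
  refine ⟨hy, ?_, ?_⟩
  · intro v hv hvy
    by_cases hvx : v = x
    · subst hvx; rw [Function.update_self]; exact h.2.1 y hy hyx
    · rw [Function.update_of_ne hvx]; exact h.2.1 v hv hvx
  · intro i
    by_cases hi : i = φ y
    · subst hi
      have hsub : {v | v ∈ R ∧ v ≠ y ∧ Function.update φ x (φ y) v = φ y} ⊆
          insert x ({v | v ∈ R ∧ v ≠ x ∧ φ v = φ y} \ {y}) := by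
        intro v hv
        by_cases hvx : v = x
        · exact Or.inl hvx
        · right
          refine ⟨⟨hv.1, hvx, ?_⟩, hv.2.1⟩
          have := hv.2.2
          rwa [Function.update_of_ne hvx] at this
      have hS : AcyclicOn A ({v | v ∈ R ∧ v ≠ x ∧ φ v = φ y} \ {y}) :=
        acy_mono (h.2.2 (φ y)) Set.sdiff_subset
      refine acy_mono ?_ hsub
      rcases hxy with h1 | h1
      · refine acy_insert_sink hS (hR.loop x) ?_
        intro z hz hxz
        exact hz.2 (tok_out_inj hR h hz.1.1 hy hxz h1 hz.1.2.2)
      · refine acy_insert_source hS (hR.loop x) ?_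
        intro z hz hzx
        exact hz.2 (tok_in_inj hR h hz.1.1 hy hzx h1 hz.1.2.2)
    · refine acy_mono (h.2.2 i) ?_
      intro v hv
      have hvx : v ≠ x := by
        rintro rfl
        have := hv.2.2
        rw [Function.update_self] at this
        exact hi this.symm
      refine ⟨hv.1, hvx, ?_⟩
      have := hv.2.2
      rwa [Function.update_of_ne hvx] at this

end Pool.Agent.DBK
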