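import Pool.Agent.DBK.TokB

/-! # DBK: Kempe changes

The new class of the colour `c` is a union of two old classes cut with `W` and its complement; use
`acy_union` and `acy_mono`.
-/

namespace Pool.Agent.DBK

open Finset
open scoped Classical

variable {V : Type*} {A : V → V → Prop}


theorem tok_kempe {R : Finset V} {x : V} {φ : V → ℕ} (h : Tok A R x φ) {i j : ℕ} (hi : i < 3)
    (hj : j < 3) (W : Set V)
    (hW : ∀ u ∈ R, ∀ v ∈ R, u ≠ x → v ≠ x → u ∈ W → v ∉ W → (φ u = i ∨ φ u = j) →
      (φ v = i ∨ φ v = j) → ¬ A u v ∧ ¬ A v u) :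
    Tok A R x (fun v => if v ∈ W then Equiv.swap i j (φ v) else φ v) := by
  refine ⟨h.1, ?_, ?_⟩
  · intro v hv hvx
    have h1 := h.2.1 v hv hvx
    by_cases hw : v ∈ W
    · simp only [hw, if_true]
      rw [Equiv.swap_apply_def]
      split_ifs <;> assumption
    · simp only [hw, if_false]; exact h1
  · intro c
    -- the class of `c`
    have hsub : {v | v ∈ R ∧ v ≠ x ∧ (if v ∈ W then Equiv.swap i j (φ v) else φ v) = c} ⊆
        ({v | v ∈ R ∧ v ≠ x ∧ φ v = c} \ W) ∪
        ({v | v ∈ R ∧ v ≠ x ∧ φ v = Equiv.swap i j c} ∩ W) := by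
      intro v hv
      by_cases hw : v ∈ W
      · right
        have h1 := hv.2.2
        simp only [hw, if_true] at h1
        refine ⟨⟨hv.1, hv.2.1, ?_⟩, hw⟩
        rw [← h1, Equiv.swap_apply_self]
      · left
        have h1 := hv.2.2
        simp only [hw, if_false] at h1
        exact ⟨⟨hv.1, hv.2.1, h1⟩, hw⟩
    by_cases hc : c = i ∨ c = j
    · refine acy_mono (acy_union (acy_mono (h.2.2 c) Set.sdiff_subset)
        (acy_mono (h.2.2 (Equiv.swap i j c)) Set.inter_subset_left) ?_) hsub
      intro u hu v hv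
      have hcu : φ u = i ∨ φ u = j := by
        rw [hu.1.2.2]
        rcases hc with rfl | rfl
        · right; exact Equiv.swap_apply_left _ _
        · left; exact Equiv.swap_apply_right _ _
      have hcv : φ v = i ∨ φ v = j := by rw [hv.1.2.2]; exact hc
      exact (hW u hu.1.1 v hv.1.1 hu.1.2.1 hv.1.2.1 hu.2 hv.2 hcu hcv).1
    · push Not at hc
      refine acy_mono (h.2.2 c) (hsub.trans ?_)
      rw [Equiv.swap_apply_of_ne_of_ne hc.1 hc.2]
      intro v hv
      rcases hv with hv | hv
      · exact hv.1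
      · exact hv.1

end Pool.Agent.DBK
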