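import Pool.Agent.DBK.ColB
import Pool.Agent.DBK.ColC

/-! # DBK: degrees of the token of a valid state

`valid_part`, `valid_rest`: otherwise `univ` would be colourable with `3m+r` colours by `col_glue` (with the
assignment `place s j`, or `s.2`, whose part `none` contains the token). Then `outd_ge`, `ind_ge`.
`exists_valid`: `V` is not empty (`hB.nc`, `col_empty`); `hB.cr v` and `col_split` give an assignment; set it to
`none` at `v`.
-/

namespace Pool.Agent.DBK

open Finset
open scoped Classical

variable {V : Type*} [Fintype V] {m : ℕ} {A : V → V → Prop}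


theorem valid_part {r b : ℕ} (hB : Base A m r b) {s : St V m} (hs : Valid A r s) (j : Fin m) :
    ¬ Col A 3 (insert s.1 (P s j)) := by
  intro hc
  obtain ⟨_, h3, h0⟩ := hs
  apply hB.nc
  refine col_glue (place s j) (col_mono h0 ?_) ?_
  · intro v hv
    rw [Finset.mem_filter] at hv
    have hv2 := hv.2
    rw [P0, Finset.mem_filter]
    by_cases h : v = s.1
    · rw [h] at hv2
      simp [place] at hv2
    · simp only [place, Function.update_of_ne h] at hv2
      exact ⟨Finset.mem_univ _, h, hv2⟩
  · intro i
    by_cases hij : i = j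
    · refine col_mono hc ?_
      intro v hv
      rw [Finset.mem_filter] at hv
      have hv2 := hv.2
      rw [Finset.mem_insert]
      by_cases h : v = s.1
      · exact Or.inl h
      · right
        simp only [place, Function.update_of_ne h] at hv2
        rw [P, Finset.mem_filter]
        exact ⟨Finset.mem_univ _, h, by rw [hv2, hij]⟩
    · refine col_mono (h3 i) ?_
      intro v hv
      rw [Finset.mem_filter] at hv
      have hv2 := hv.2
      by_cases h : v = s.1
      · rw [h] at hv2
        simp only [place, Function.update_self, Option.some.injEq] at hv2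
        exact absurd hv2.symm hij
      · simp only [place, Function.update_of_ne h] at hv2
        rw [P, Finset.mem_filter]
        exact ⟨Finset.mem_univ _, h, hv2⟩

theorem valid_rest {r b : ℕ} (hB : Base A m r b) {s : St V m} (hs : Valid A r s) :
    ¬ Col A r (insert s.1 (P0 s)) := by
  intro hc
  obtain ⟨hn, h3, h0⟩ := hs
  apply hB.nc
  refine col_glue s.2 (col_mono hc ?_) ?_
  · intro v hv
    rw [Finset.mem_filter] at hv
    rw [Finset.mem_insert]
    by_cases h : v = s.1
    · exact Or.inl h
    · right
      rw [P0, Finset.mem_filter]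
      exact ⟨Finset.mem_univ _, h, hv.2⟩
  · intro i
    refine col_mono (h3 i) ?_
    intro v hv
    rw [Finset.mem_filter] at hv
    by_cases h : v = s.1
    · have hv2 := hv.2
      rw [h, hn] at hv2
      exact absurd hv2 (by simp)
    · rw [P, Finset.mem_filter]
      exact ⟨Finset.mem_univ _, h, hv.2⟩

theorem tok_notin_P (s : St V m) (j : Fin m) : s.1 ∉ P s j := by
  simp [P]

theorem tok_notin_P0 (s : St V m) : s.1 ∉ P0 s := by
  simp [P0]

theorem valid_out {r b : ℕ} (hB : Base A m r b) {s : St V m} (hs : Valid A r s) (j : Fin m) :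
    3 ≤ outd A s.1 (P s j) :=
  outd_ge (tok_notin_P s j) (hB.loop _) (hs.2.1 j) (valid_part hB hs j)

theorem valid_in {r b : ℕ} (hB : Base A m r b) {s : St V m} (hs : Valid A r s) (j : Fin m) :
    3 ≤ ind A s.1 (P s j) :=
  ind_ge (tok_notin_P s j) (hB.loop _) (hs.2.1 j) (valid_part hB hs j)

theorem exists_valid {r b : ℕ} (hB : Base A m r b) : ∃ s : St V m, Valid A r s := by
  have hne : Nonempty V := by
    by_contra hne
    rw [not_nonempty_iff] at hne
    apply hB.nc
    rw [Finset.univ_eq_empty]
    exact col_le col_empty (Nat.zero_le _)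
  obtain ⟨v⟩ := hne
  obtain ⟨p, h0, h3⟩ := col_split (hB.cr v)
  refine ⟨(v, Function.update p v none), ?_, ?_, ?_⟩
  · simp
  · intro j
    refine col_mono (h3 j) ?_
    intro u hu
    rw [P, Finset.mem_filter] at hu
    obtain ⟨_, hu1, hu2⟩ := hu
    have hu1' : u ≠ v := hu1
    have hu2' : Function.update p v none u = some j := hu2
    rw [Function.update_of_ne hu1'] at hu2'
    rw [Finset.mem_filter]
    exact ⟨Finset.mem_erase.2 ⟨hu1', Finset.mem_univ _⟩, hu2'⟩
  · refine col_mono h0 ?_
    intro u hu
    rw [P0, Finset.mem_filter] at hu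
    obtain ⟨_, hu1, hu2⟩ := hu
    have hu1' : u ≠ v := hu1
    have hu2' : Function.update p v none u = none := hu2
    rw [Function.update_of_ne hu1'] at hu2'
    rw [Finset.mem_filter]
    exact ⟨Finset.mem_erase.2 ⟨hu1', Finset.mem_univ _⟩, hu2'⟩

end Pool.Agent.DBK
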