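import Pool.Agent.DBK.ColA

/-! # DBK: the parts after a swap, and the energy

Unfold the definitions. `energy_place`: the arcs counted on the left are those not at the token
`s.1` (counted in `energy A s.2`; no arc at the token is counted there because `s.2 s.1 = none`) and those
from the token to `P s j`, and from `P s j` to the token.
-/

namespace Pool.Agent.DBK

open Finset
open scoped Classical

variable {V : Type*} [Fintype V] {m : ℕ} {A : V → V → Prop}


theorem vB_place_self (s : St V m) (j : Fin m) : place s j s.1 = some j := by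
  simp [place]

theorem vB_place_ne (s : St V m) (j : Fin m) {v : V} (hv : v ≠ s.1) : place s j v = s.2 v := by
  simp [place, hv]

theorem vB_mem_P {s : St V m} {j : Fin m} {v : V} : v ∈ P s j ↔ v ≠ s.1 ∧ s.2 v = some j := by
  simp [P]

theorem vB_mem_P0 {s : St V m} {v : V} : v ∈ P0 s ↔ v ≠ s.1 ∧ s.2 v = none := by
  simp [P0]

theorem P_self {s : St V m} (hn : s.2 s.1 = none) (j : Fin m) :
    insert s.1 (P s j) = univ.filter (fun v => place s j v = some j) := by
  ext v
  rw [mem_insert, vB_mem_P, mem_filter]
  by_cases hv : v = s.1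
  · subst hv
    simp [vB_place_self]
  · simp [hv, vB_place_ne s j hv]

theorem vB_sw_snd (s : St V m) (j : Fin m) (y v : V) :
    (sw s j y).2 v = if v = y then none else if v = s.1 then some j else s.2 v := by
  by_cases h1 : v = y
  · subst h1
    simp [sw]
  · by_cases h2 : v = s.1
    · subst h2
      simp [sw, h1, vB_place_self]
    · simp [sw, h1, h2, vB_place_ne s j h2]

theorem vB_sw_fst (s : St V m) (j : Fin m) (y : V) : (sw s j y).1 = y := rfl

theorem P_sw_self' {s : St V m} (hn : s.2 s.1 = none) {j : Fin m} {y : V}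
    (hy : y ∈ insert s.1 (P s j)) : P (sw s j y) j = (insert s.1 (P s j)).erase y := by
  ext v
  rw [vB_mem_P, mem_erase, mem_insert, vB_mem_P, vB_sw_fst, vB_sw_snd]
  by_cases h1 : v = y
  · simp [h1]
  · by_cases h2 : v = s.1
    · simp [h1, h2]
    · simp [h1, h2]

theorem P_sw_self {s : St V m} (hn : s.2 s.1 = none) {j : Fin m} {y : V} (hy : y ∈ P s j) :
    P (sw s j y) j = insert s.1 ((P s j).erase y) := by
  rw [P_sw_self' hn (mem_insert_of_mem hy), erase_insert_of_ne]
  exact fun h => (vB_mem_P.1 hy).1 h.symm

theorem P_sw_other {s : St V m} (hn : s.2 s.1 = none) {i j : Fin m} (hij : i ≠ j) {y : V}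
    (hy : y ∈ insert s.1 (P s j)) : P (sw s j y) i = P s i := by
  ext v
  rw [vB_mem_P, vB_mem_P, vB_sw_fst, vB_sw_snd]
  rw [mem_insert, vB_mem_P] at hy
  by_cases h1 : v = y
  · subst h1
    simp only [if_true, ne_eq, not_true_eq_false, false_and, false_iff, not_and]
    intro h2
    rcases hy with h3 | h3
    · exact absurd h3 h2
    · rw [h3.2]
      intro h4
      exact hij (Option.some.inj h4).symm
  · by_cases h2 : v = s.1
    · subst h2
      simp only [h1, if_false, if_true, ne_eq, not_true_eq_false, false_and, iff_false, not_and]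
      intro _ h4
      exact hij (Option.some.inj h4).symm
    · simp [h1, h2]

theorem P0_sw {s : St V m} (hn : s.2 s.1 = none) {j : Fin m} {y : V}
    (hy : y ∈ insert s.1 (P s j)) : P0 (sw s j y) = P0 s := by
  ext v
  rw [vB_mem_P0, vB_mem_P0, vB_sw_fst, vB_sw_snd]
  rw [mem_insert, vB_mem_P] at hy
  by_cases h1 : v = y
  · subst h1
    simp only [if_true, ne_eq, not_true_eq_false, false_and, false_iff, not_and]
    intro h2
    rcases hy with h3 | h3
    · exact absurd h3 h2
    · rw [h3.2]
      simp
  · by_cases h2 : v = s.1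
    · subst h2
      simp [h1]
    · simp [h1, h2]

theorem place_sw {s : St V m} (hn : s.2 s.1 = none) {j : Fin m} {y : V}
    (hy : y ∈ insert s.1 (P s j)) : place (sw s j y) j = place s j := by
  rw [mem_insert, vB_mem_P] at hy
  funext v
  by_cases h1 : v = y
  · subst h1
    rw [show place (sw s j v) j v = some j from vB_place_self (sw s j v) j]
    rcases hy with h3 | h3
    · subst h3
      rw [vB_place_self]
    · rw [vB_place_ne s j h3.1, h3.2]
  · rw [vB_place_ne (sw s j y) j h1, vB_sw_snd, if_neg h1]
    by_cases h2 : v = s.1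
    · subst h2
      rw [if_pos rfl, vB_place_self]
    · rw [if_neg h2, vB_place_ne s j h2]

theorem sw_token {s : St V m} (hn : s.2 s.1 = none) (j : Fin m) : sw s j s.1 = s := by
  refine Prod.ext rfl ?_
  funext v
  rw [vB_sw_snd]
  by_cases h : v = s.1
  · subst h
    rw [if_pos rfl, hn]
  · rw [if_neg h, if_neg h]

theorem sw_norm (s : St V m) (j : Fin m) (y : V) : (sw s j y).2 (sw s j y).1 = none := by
  rw [vB_sw_fst, vB_sw_snd, if_pos rfl]

/-- The colouring of the vertices other than the token changes only at the old and the new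
token. -/
theorem sw_apply {s : St V m} {j : Fin m} {y v : V} (hvx : v ≠ s.1) (hvy : v ≠ y) :
    (sw s j y).2 v = s.2 v := by
  rw [vB_sw_snd, if_neg hvy, if_neg hvx]

theorem sw_apply_old {s : St V m} {j : Fin m} {y : V} (hy : y ≠ s.1) :
    (sw s j y).2 s.1 = some j := by
  rw [vB_sw_snd, if_neg (fun h => hy h.symm), if_pos rfl]

/-- Two states with the same assignment after placing the token, the second token being `y`. -/
theorem eq_sw_of_place {s s' : St V m} (hn' : s'.2 s'.1 = none) {j : Fin m}
    (h : place s j = place s' j) : s' = sw s j s'.1 := by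
  refine Prod.ext rfl ?_
  funext v
  rw [vB_sw_snd]
  by_cases h1 : v = s'.1
  · subst h1
    rw [if_pos rfl, hn']
  · rw [if_neg h1]
    have h2 : place s j v = place s' j v := by rw [h]
    rw [vB_place_ne s' j h1] at h2
    rw [← h2]
    by_cases h3 : v = s.1
    · subst h3
      rw [if_pos rfl, vB_place_self]
    · rw [if_neg h3, vB_place_ne s j h3]

theorem energy_place (hl : ∀ v, ¬ A v v) {s : St V m} (hn : s.2 s.1 = none) (j : Fin m) :
    energy A (place s j) = energy A s.2 + deg A s.1 (P s j) := by
  have h1 : ((univ : Finset (V × V)).filter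
      (fun e => A e.1 e.2 ∧ ∃ i, place s j e.1 = some i ∧ place s j e.2 = some i)) =
      (((univ : Finset (V × V)).filter
        (fun e => A e.1 e.2 ∧ ∃ i, s.2 e.1 = some i ∧ s.2 e.2 = some i)) ∪
      ((P s j).filter (fun y => A s.1 y)).image (fun y => (s.1, y))) ∪
      ((P s j).filter (fun y => A y s.1)).image (fun y => (y, s.1)) := by
    ext ⟨a, b⟩
    simp only [mem_union, mem_filter, mem_univ, true_and, mem_image, Prod.mk.injEq, vB_mem_P]
    by_cases ha : a = s.1
    · by_cases hb : b = s.1
      · subst ha
        subst hb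
        constructor
        · rintro ⟨h, _⟩
          exact absurd h (hl _)
        · rintro ((h | ⟨y, hy, _, h⟩) | ⟨y, hy, h, _⟩)
          · exact absurd h.1 (hl _)
          · exact absurd h hy.1.1
          · exact absurd h hy.1.1
      · subst ha
        rw [vB_place_self, vB_place_ne s j hb]
        constructor
        · rintro ⟨h, i, hi, hi'⟩
          have hij : j = i := Option.some.inj hi
          subst hij
          exact Or.inl (Or.inr ⟨b, ⟨⟨hb, hi'⟩, h⟩, rfl, rfl⟩)
        · rintro ((⟨h, i, hi, hi'⟩ | ⟨y, hy, _, h⟩) | ⟨y, hy, h, _⟩)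
          · rw [hn] at hi
            exact absurd hi (by simp)
          · subst h
            exact ⟨hy.2, j, rfl, hy.1.2⟩
          · exact absurd h hy.1.1
    · by_cases hb : b = s.1
      · subst hb
        rw [vB_place_self, vB_place_ne s j ha]
        constructor
        · rintro ⟨h, i, hi, hi'⟩
          have hij : j = i := Option.some.inj hi'
          subst hij
          exact Or.inr ⟨a, ⟨⟨ha, hi⟩, h⟩, rfl, rfl⟩
        · rintro ((⟨h, i, hi, hi'⟩ | ⟨y, hy, h, _⟩) | ⟨y, hy, h, _⟩)
          · rw [hn] at hi'
            exact absurd hi' (by simp)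
          · exact absurd h.symm ha
          · subst h
            exact ⟨hy.2, j, hy.1.2, rfl⟩
      · rw [vB_place_ne s j ha, vB_place_ne s j hb]
        constructor
        · intro h
          exact Or.inl (Or.inl h)
        · rintro ((h | ⟨y, hy, h, _⟩) | ⟨y, hy, _, h⟩)
          · exact h
          · exact absurd h.symm ha
          · exact absurd h.symm hb
  unfold energy deg outd ind
  rw [h1, card_union_of_disjoint, card_union_of_disjoint, card_image_of_injective,
    card_image_of_injective, add_assoc]
  · intro a b hab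
    exact (Prod.mk.inj hab).1
  · intro a b hab
    exact (Prod.mk.inj hab).2
  · rw [disjoint_left]
    rintro ⟨a, b⟩ hab hab'
    rw [mem_filter] at hab
    rw [mem_image] at hab'
    obtain ⟨y, _, hy⟩ := hab'
    obtain ⟨_, _, i, hi, _⟩ := hab
    have : s.1 = a := (Prod.mk.inj hy).1
    subst this
    simp only at hi
    rw [hn] at hi
    exact absurd hi (by simp)
  · rw [disjoint_left]
    rintro ⟨a, b⟩ hab hab'
    rw [mem_image] at hab'
    obtain ⟨y, hy, hy'⟩ := hab'
    have hb : s.1 = b := (Prod.mk.inj hy').2
    have ha : y = a := (Prod.mk.inj hy').1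
    subst hb
    subst ha
    rw [mem_union] at hab
    rcases hab with h | h
    · rw [mem_filter] at h
      obtain ⟨_, _, i, _, hi⟩ := h
      simp only at hi
      rw [hn] at hi
      exact absurd hi (by simp)
    · rw [mem_image] at h
      obtain ⟨z, _, hz⟩ := h
      have h2 : s.1 = y := (Prod.mk.inj hz).1
      rw [mem_filter, vB_mem_P] at hy
      exact hy.1.1 h2.symm

end Pool.Agent.DBK
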