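import Pool.Agent.DBK.ValD
import Pool.Agent.DBK.ValB

/-! # DBK: moves at an optimal state

`exists_opt`: choose a valid state `s` and a part `j` with `energy A s.2 + deg A s.1 (P s j)` minimal
(finitely many states, `exists_valid`; `m > 0`). There is a clean part `j'` (`exists_clean`), so
`energy A s.2 + 6 = energy A s.2 + deg A s.1 (P s j')` is at least the minimum, and
`deg A s.1 (P s j) ≥ 6` (`valid_out`, `valid_in`), so `energy A s.2 + 6` is the minimum.
`opt_move`: `sw s j y` is valid by `P_sw_self'`, `P_sw_other`, `P0_sw`, `sw_norm`. By `energy_place` for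
`s` and for `sw s j y` (`place_sw`), `energy A (sw s j y).2 + deg A y (P (sw s j y) j) = energy A s.2 + 6`. Since `deg ≥ 6`
and since `sw s j y` has a clean part `j'` (`exists_clean`, and optimality of `s` applied to `(sw s j y, j')`), the
degree is exactly six, the energies are equal, and `sw s j y` is optimal. The degrees of `y` into
`insert s.1 (P s j)` and into this set without `y` are equal as there is no loop; use `clean_out`.
-/

namespace Pool.Agent.DBK

open Finset
open scoped Classical

variable {V : Type*} [Fintype V] {m : ℕ} {A : V → V → Prop}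

theorem vC_valid_deg6 {r b : ℕ} (hB : Base A m r b) {s : St V m} (hs : Valid A r s) (j : Fin m) :
    6 ≤ deg A s.1 (P s j) := by
  have h1 := valid_out hB hs j
  have h2 := valid_in hB hs j
  unfold deg
  omega

theorem exists_opt {r b : ℕ} (hB : Base A m r b) : ∃ s : St V m, IsOpt A r s := by
  obtain ⟨s0, hs0⟩ := exists_valid hB
  have hm : 0 < m := by
    have := hB.bm
    omega
  obtain ⟨⟨s, j⟩, hsj, hmin⟩ := exists_min_image
    ((univ : Finset (St V m × Fin m)).filter (fun p => Valid A r p.1))
    (fun p => energy A p.1.2 + deg A p.1.1 (P p.1 p.2)) ⟨(s0, ⟨0, hm⟩), by simp [hs0]⟩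
  have hs : Valid A r s := (mem_filter.1 hsj).2
  refine ⟨s, hs, fun s' hs' j' => ?_⟩
  have h1 := hmin (s', j') (mem_filter.2 ⟨mem_univ _, hs'⟩)
  have h2 := vC_valid_deg6 hB hs j
  simp only at h1
  omega

theorem vC_outd_erase_self (hl : ∀ v, ¬ A v v) (y : V) (S : Finset V) :
    outd A y (S.erase y) = outd A y S := by
  unfold outd
  congr 1
  ext v
  simp only [mem_filter, mem_erase]
  constructor
  · rintro ⟨⟨_, h1⟩, h2⟩
    exact ⟨h1, h2⟩
  · rintro ⟨h1, h2⟩
    refine ⟨⟨?_, h1⟩, h2⟩
    rintro rfl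
    exact hl _ h2

theorem vC_ind_erase_self (hl : ∀ v, ¬ A v v) (y : V) (S : Finset V) :
    ind A y (S.erase y) = ind A y S := by
  unfold ind
  congr 1
  ext v
  simp only [mem_filter, mem_erase]
  constructor
  · rintro ⟨⟨_, h1⟩, h2⟩
    exact ⟨h1, h2⟩
  · rintro ⟨h1, h2⟩
    refine ⟨⟨?_, h1⟩, h2⟩
    rintro rfl
    exact hl _ h2

theorem opt_move {r b : ℕ} (hB : Base A m r b) {s : St V m} (hs : IsOpt A r s) {j : Fin m}
    (hj : Clean A s j) {y : V} (hy : y ∈ insert s.1 (P s j))
    (hc : Col A 3 ((insert s.1 (P s j)).erase y)) :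
    IsOpt A r (sw s j y) ∧ Clean A (sw s j y) j ∧ outd A y (insert s.1 (P s j)) = 3 ∧
      ind A y (insert s.1 (P s j)) = 3 := by
  have hn : s.2 s.1 = none := hs.1.1
  have hv : Valid A r (sw s j y) := by
    refine ⟨sw_norm s j y, ?_, ?_⟩
    · intro i
      by_cases hij : i = j
      · subst hij
        rw [P_sw_self' hn hy]
        exact hc
      · rw [P_sw_other hn hij hy]
        exact hs.1.2.1 i
    · rw [P0_sw hn hy]
      exact hs.1.2.2
  have e1 := energy_place hB.loop hn j
  have e2 := energy_place hB.loop (sw_norm s j y) j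
  rw [place_sw hn hy] at e2
  have e3 : deg A s.1 (P s j) = 6 := hj
  have e4 := vC_valid_deg6 hB hv j
  obtain ⟨i, hi⟩ := exists_clean hB hv
  have e5 := hs.2 _ hv i
  have e6 : deg A (sw s j y).1 (P (sw s j y) i) = 6 := hi
  have hcl : Clean A (sw s j y) j := by
    unfold Clean
    omega
  have hen : energy A (sw s j y).2 = energy A s.2 := by
    omega
  refine ⟨⟨hv, ?_⟩, hcl, ?_⟩
  · intro s' hs' j'
    rw [hen]
    exact hs.2 s' hs' j'
  · have h1 := clean_out hB hv hcl
    rw [P_sw_self' hn hy] at h1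
    have h2 : (sw s j y).1 = y := rfl
    rw [h2, vC_outd_erase_self hB.loop, vC_ind_erase_self hB.loop] at h1
    exact h1

end Pool.Agent.DBK
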