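import Pool.Agent.DBK.ValA

/-! # DBK: few unclean parts

The sets `P s j`, `P0 s` and `{s.1}` partition `univ`, so `outd A s.1 univ = ∑ j, outd A s.1 (P s j) + outd A s.1 (P0 s)`, and
the same for `ind`. All summands are at least three, and `outd A s.1 (P0 s) ≥ r`, `ind A s.1 (P0 s) ≥ r` by
`valid_rest` with `outd_ge`, `ind_ge`. With `hB.od`, `hB.id`: `∑ j, (deg A s.1 (P s j) - 6) ≤ b`, and every unclean
part contributes at least one. `exists_clean` by `hB.bm`.
-/

namespace Pool.Agent.DBK

open Finset
open scoped Classical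

variable {V : Type*} [Fintype V] {m : ℕ} {A : V → V → Prop}


theorem card_split (s : St V m) (Q : V → Prop) (hQ : ¬ Q s.1) :
    ((univ : Finset V).filter Q).card =
      ∑ j, ((P s j).filter Q).card + ((P0 s).filter Q).card := by
  have h1 : ((univ : Finset V).filter Q).card = ∑ o : Option (Fin m),
      (((univ : Finset V).filter Q).filter (fun v => s.2 v = o)).card :=
    Finset.card_eq_sum_card_fiberwise (fun _ _ => Finset.mem_coe.2 (Finset.mem_univ _))
  rw [h1, Fintype.sum_option, add_comm]
  congr 1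
  · refine Finset.sum_congr rfl (fun j _ => ?_)
    congr 1
    ext v
    simp only [Finset.mem_filter, P, Finset.mem_univ, true_and]
    constructor
    · rintro ⟨h2, h3⟩
      exact ⟨⟨fun h => hQ (h ▸ h2), h3⟩, h2⟩
    · rintro ⟨⟨_, h3⟩, h2⟩
      exact ⟨h2, h3⟩
  · congr 1
    ext v
    simp only [Finset.mem_filter, P0, Finset.mem_univ, true_and]
    constructor
    · rintro ⟨h2, h3⟩
      exact ⟨⟨fun h => hQ (h ▸ h2), h3⟩, h2⟩
    · rintro ⟨⟨_, h3⟩, h2⟩
      exact ⟨h2, h3⟩

theorem valid_rest_out {r b : ℕ} (hB : Base A m r b) {s : St V m} (hs : Valid A r s) :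
    r ≤ outd A s.1 (P0 s) :=
  outd_ge (tok_notin_P0 s) (hB.loop _) hs.2.2 (valid_rest hB hs)

theorem valid_rest_in {r b : ℕ} (hB : Base A m r b) {s : St V m} (hs : Valid A r s) :
    r ≤ ind A s.1 (P0 s) :=
  ind_ge (tok_notin_P0 s) (hB.loop _) hs.2.2 (valid_rest hB hs)

theorem valid_bad {r b : ℕ} (hB : Base A m r b) {s : St V m} (hs : Valid A r s) :
    (univ.filter (fun j => ¬ Clean A s j)).card ≤ b := by
  have ho := hB.od s.1
  have hi := hB.id s.1
  have eo : outd A s.1 univ = ∑ j, outd A s.1 (P s j) + outd A s.1 (P0 s) :=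
    card_split s (fun y => A s.1 y) (hB.loop _)
  have ei : ind A s.1 univ = ∑ j, ind A s.1 (P s j) + ind A s.1 (P0 s) :=
    card_split s (fun y => A y s.1) (hB.loop _)
  have h1 := valid_rest_out hB hs
  have h2 := valid_rest_in hB hs
  have h3 : ∑ j, deg A s.1 (P s j) = ∑ j, outd A s.1 (P s j) + ∑ j, ind A s.1 (P s j) := by
    rw [← Finset.sum_add_distrib]
    rfl
  have h4 : ∑ j : Fin m, (6 + if ¬ Clean A s j then 1 else 0) ≤ ∑ j, deg A s.1 (P s j) := by
    refine Finset.sum_le_sum (fun j _ => ?_)
    have a1 := valid_out hB hs j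
    have a2 := valid_in hB hs j
    by_cases hc : Clean A s j
    · rw [if_neg (not_not.2 hc)]
      unfold Clean at hc
      omega
    · rw [if_pos hc]
      unfold Clean at hc
      unfold deg at hc ⊢
      omega
  have h5 : ∑ j : Fin m, (6 + if ¬ Clean A s j then 1 else 0) =
      6 * m + (univ.filter (fun j => ¬ Clean A s j)).card := by
    rw [Finset.sum_add_distrib, Finset.card_filter]
    simp [mul_comm]
  omega

theorem exists_clean {r b : ℕ} (hB : Base A m r b) {s : St V m} (hs : Valid A r s) :
    ∃ j, Clean A s j := by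
  by_contra hc
  push Not at hc
  have h := valid_bad hB hs
  have h2 : (univ.filter (fun j => ¬ Clean A s j)) = (univ : Finset (Fin m)) := by
    rw [Finset.filter_eq_self]
    intro j _
    exact hc j
  rw [h2, Finset.card_univ, Fintype.card_fin] at h
  have := hB.bm
  omega

/-- A clean part has exactly three out-neighbours and three in-neighbours of the token. -/
theorem clean_out {r b : ℕ} (hB : Base A m r b) {s : St V m} (hs : Valid A r s) {j : Fin m}
    (hj : Clean A s j) : outd A s.1 (P s j) = 3 ∧ ind A s.1 (P s j) = 3 := by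
  have h1 := valid_out hB hs j
  have h2 := valid_in hB hs j
  unfold Clean deg at hj
  omega

end Pool.Agent.DBK
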