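import Pool.Agent.DBK.ValC
import Pool.Agent.DBK.Brooks3

/-! # DBK: the club of a clean part

Let `G = insert s.1 (P s j)` and `R = {y ∈ G | Col A 3 (G.erase y)}`; `s.1 ∈ R` by validity. By `opt_move` every `y ∈ R` has out-degree and
in-degree three in `G`. If `y ∈ R` and `v ∈ G` is an out-neighbour of `y`, then `v ∈ R`: `swap_out` for `G.erase y`
and the vertex `y` gives `Col A 3 (insert y ((G.erase y).erase v))`, which is `G.erase v`. The same for in-neighbours
(`swap_in`). So `R` has no arcs to or from `G \ R`, and the degrees of `y ∈ R` into `R` are three. `R` is not `Col A 3`: otherwise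
`G = R ∪ (G \ R)` would be (`col_union`; `G \ R ⊆ G.erase s.1`), against `valid_part`. `R.erase y ⊆ G.erase y` is
`Col A 3` for `y ∈ R`. So `Crit3 A R`, and `brooks3` says that `R` is a biclique with four vertices. Hence
`T A s j = R.erase s.1`: the out-neighbours of `s.1` in `P s j` are in `R`, and all of `R.erase s.1` are out-neighbours.
-/

namespace Pool.Agent.DBK

open Finset
open scoped Classical

variable {V : Type*} [Fintype V] {m : ℕ} {A : V → V → Prop}


theorem club {r b : ℕ} (hB : Base A m r b) {s : St V m} (hs : IsOpt A r s) {j : Fin m}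
    (hj : Clean A s j) :
    (∀ y ∈ insert s.1 (P s j), Col A 3 ((insert s.1 (P s j)).erase y) ↔
      y ∈ insert s.1 (T A s j)) ∧
    (T A s j).card = 3 ∧
    (∀ u ∈ insert s.1 (T A s j), ∀ v ∈ insert s.1 (T A s j), u ≠ v → A u v) ∧
    (∀ u ∈ insert s.1 (T A s j), ∀ v ∈ P s j, (A u v ∨ A v u) → v ∈ T A s j) := by
  have hxP : s.1 ∉ P s j := by
    unfold P
    simp
  obtain ⟨G, hG⟩ : ∃ G, G = insert s.1 (P s j) := ⟨_, rfl⟩
  obtain ⟨R, hR⟩ : ∃ R, R = G.filter (fun y => Col A 3 (G.erase y)) := ⟨_, rfl⟩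
  have memR : ∀ y, y ∈ R ↔ y ∈ G ∧ Col A 3 (G.erase y) := by
    intro y
    rw [hR, mem_filter]
  have hxG : s.1 ∈ G := by
    rw [hG]
    exact mem_insert_self _ _
  have hPG : ∀ v ∈ P s j, v ∈ G := by
    intro v hv
    rw [hG]
    exact mem_insert_of_mem hv
  have hGx : G.erase s.1 = P s j := by
    rw [hG]
    exact erase_insert hxP
  have hxR : s.1 ∈ R := by
    rw [memR]
    refine ⟨hxG, ?_⟩
    rw [hGx]
    exact hs.1.2.1 j
  have hdeg : ∀ y ∈ R, outd A y G = 3 ∧ ind A y G = 3 := by
    intro y hy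
    rw [memR] at hy
    have h := opt_move hB hs hj (y := y) (by rw [← hG]; exact hy.1) (by rw [← hG]; exact hy.2)
    rw [← hG] at h
    exact ⟨h.2.2.1, h.2.2.2⟩
  have hins : ∀ y ∈ G, ∀ v ∈ G, y ≠ v → insert y ((G.erase y).erase v) = G.erase v := by
    intro y hy v _ hyv
    ext z
    simp only [mem_insert, mem_erase]
    constructor
    · rintro (rfl | ⟨h1, -, h3⟩)
      · exact ⟨hyv, hy⟩
      · exact ⟨h1, h3⟩
    · rintro ⟨h1, h2⟩
      by_cases hz : z = y
      · exact Or.inl hz
      · exact Or.inr ⟨h1, hz, h2⟩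
  have hout : ∀ y ∈ R, ∀ v ∈ G, A y v → v ∈ R := by
    intro y hy v hv hyv
    have hne : y ≠ v := by
      rintro rfl
      exact hB.loop _ hyv
    have hy' := (memR y).1 hy
    have hle : outd A y (G.erase y) ≤ 3 := by
      rw [← (hdeg y hy).1]
      unfold outd
      exact card_le_card (filter_subset_filter _ (erase_subset _ _))
    have h := swap_out (S := G.erase y) (x := y) (y := v) (by simp) (hB.loop y) hy'.2 hle
      (mem_erase.2 ⟨hne.symm, hv⟩) hyv
    rw [hins y hy'.1 v hv hne] at h
    exact (memR v).2 ⟨hv, h⟩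
  have hin : ∀ y ∈ R, ∀ v ∈ G, A v y → v ∈ R := by
    intro y hy v hv hyv
    have hne : y ≠ v := by
      rintro rfl
      exact hB.loop _ hyv
    have hy' := (memR y).1 hy
    have hle : ind A y (G.erase y) ≤ 3 := by
      rw [← (hdeg y hy).2]
      unfold ind
      exact card_le_card (filter_subset_filter _ (erase_subset _ _))
    have h := swap_in (S := G.erase y) (x := y) (y := v) (by simp) (hB.loop y) hy'.2 hle
      (mem_erase.2 ⟨hne.symm, hv⟩) hyv
    rw [hins y hy'.1 v hv hne] at h
    exact (memR v).2 ⟨hv, h⟩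
  have hRG : R ⊆ G := by
    intro y hy
    exact ((memR y).1 hy).1
  have hcrit : Crit3 A R := by
    refine ⟨hB.loop, ?_, ?_, ?_, ?_⟩
    · intro y hy
      rw [← (hdeg y hy).1]
      unfold outd
      congr 1
      ext v
      simp only [mem_filter]
      exact ⟨fun h => ⟨hRG h.1, h.2⟩, fun h => ⟨hout y hy v h.1 h.2, h.2⟩⟩
    · intro y hy
      rw [← (hdeg y hy).2]
      unfold ind
      congr 1
      ext v
      simp only [mem_filter]
      exact ⟨fun h => ⟨hRG h.1, h.2⟩, fun h => ⟨hin y hy v h.1 h.2, h.2⟩⟩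
    · intro hc
      have h1 : Col A 3 (G \ R) := by
        refine col_mono (T := G.erase s.1) ?_ ?_
        · rw [hGx]
          exact hs.1.2.1 j
        · intro v hv
          rw [mem_sdiff] at hv
          rw [mem_erase]
          refine ⟨?_, hv.1⟩
          rintro rfl
          exact hv.2 hxR
      have h2 : Col A 3 (R ∪ (G \ R)) := by
        refine col_union hc h1 disjoint_sdiff ?_
        intro a ha c hc' hac
        rw [mem_sdiff] at ha
        exact ha.2 (hin c hc' a ha.1 hac)
      rw [union_sdiff_of_subset hRG] at h2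
      rw [hG] at h2
      exact valid_part hB hs.1 j h2
    · intro v hv
      exact col_mono ((memR v).1 hv).2 (erase_subset_erase v hRG)
  obtain ⟨hcard, hbic⟩ := brooks3 hcrit
  have hT : insert s.1 (T A s j) = R := by
    ext y
    rw [mem_insert]
    unfold T
    rw [mem_filter]
    constructor
    · rintro (rfl | ⟨h1, h2⟩)
      · exact hxR
      · exact hout s.1 hxR y (hPG y h1) h2
    · intro hy
      by_cases hyx : y = s.1
      · exact Or.inl hyx
      · refine Or.inr ⟨?_, hbic s.1 hxR y hy (Ne.symm hyx)⟩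
        rw [← hGx]
        exact mem_erase.2 ⟨hyx, hRG hy⟩
  have hxT : s.1 ∉ T A s j := by
    unfold T
    rw [mem_filter]
    exact fun h => hxP h.1
  refine ⟨?_, ?_, ?_, ?_⟩
  · intro y hy
    rw [hT, memR, ← hG]
    rw [← hG] at hy
    exact ⟨fun h => ⟨hy, h⟩, fun h => h.2⟩
  · have h1 := card_insert_of_notMem hxT
    rw [hT, hcard] at h1
    omega
  · rw [hT]
    exact hbic
  · intro u hu v hv huv
    rw [hT] at hu
    have hvR : v ∈ R := by
      rcases huv with h | h
      · exact hout u hu v (hPG v hv) h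
      · exact hin u hu v (hPG v hv) h
    rw [← hT, mem_insert] at hvR
    rcases hvR with h | h
    · rw [h] at hv
      exact absurd hv hxP
    · exact h

end Pool.Agent.DBK
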