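import Pool.Agent.DBK.WalkB

/-! # DBK: a closed alternating walk shows joinedness

Let `x = (s 0).1`, `z = (s 1).1 ∈ T A (s 0) j`. By `walk_L` there is an even `k` with `2 ≤ k < L` and `x ∈ T A (s k) j`; take the least one, and let
`w = (s k).1`. By `walk_comp` for `k`: `T A (s 1) j` is closed in `P (s k) j`; it contains `x`, and `T A (s k) j` is closed and a biclique and contains `x`; both
have three vertices, so `T A (s k) j = T A (s 1) j`, and this is `insert x (T A (s 0) j)` without `z` (club of `s 0` in part `j`).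
`w ∈ P (s 0) i`: at the time `k - 1` (odd) `w` is in part `i`, and it was not a token before (`walk_i`, `hw.inj`). `w` is adjacent to `x`, as `x ∈ T A (s k) j`; so `w ∈ T A (s 0) i`
(`mem_T_of_adj`). `Clean A (sw (s 0) i w) j` by `good_transfer` from `s k` (`walk_Vp`, `Vp_sw_left`). Let `t ∈ T A (s 0) j`, `t ≠ z`; then `t ∈ T A (s k) j`, so `w` is adjacent to `t`,
and `t` is in the part `j` of `s' = sw (s 0) i w`, which is `P (s 0) j`. So `t ∈ T A s' j` (`mem_T_of_adj`), and by `comp_eq` `T A s' j = T A (s 0) j`, which contains `z`. So `w`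
and `z` are adjacent. `Clean A (sw (s 0) j z) i` holds because `sw (s 0) j z = s 1`. The pair `w`, `z` shows `Joined A (s 0) i j`.
-/

namespace Pool.Agent.DBK

open Finset
open scoped Classical

variable {V : Type*} [Fintype V] {m : ℕ} {A : V → V → Prop}


theorem walk {b : ℕ} {O : Finset (St V m)} (hS : Sys A m b O) {i j : Fin m} {L : ℕ}
    {s : ℕ → St V m} (hw : AltWalk A O i j L s) : Joined A (s 0) i j := by
  obtain ⟨hL3, hLodd, hxL⟩ := walk_L hS hw
  have hex : ∃ k, Even k ∧ 2 ≤ k ∧ k < L ∧ (s 0).1 ∈ T A (s k) j := by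
    refine ⟨L - 1, ?_, by omega, by omega, hxL⟩
    by_contra h
    apply hLodd
    have h1 : L = (L - 1) + 1 := by omega
    rw [h1, Nat.even_add_one]
    exact h
  obtain ⟨hk, hk2, hkL, hxk⟩ := Nat.find_spec hex
  have hmin : ∀ l, Even l → 2 ≤ l → l < Nat.find hex → (s 0).1 ∉ T A (s l) j := by
    intro l hl hl2 hlk hx
    exact Nat.find_min hex hlk ⟨hl, hl2, by omega, hx⟩
  generalize Nat.find hex = k at hk hk2 hkL hxk hmin
  obtain ⟨hKsub, hKcl⟩ := walk_comp hS hw hk hk2 hkL hmin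
  have hm0 := hw.mem 0 (by omega)
  have hm1 := hw.mem 1 (by omega)
  have hmk := hw.mem k (by omega)
  have hn0 := hS.norm _ hm0.1
  have hxK := walk_x_mem hS hw (by omega)
  -- the first swap
  obtain ⟨z, hz, hs1⟩ := hw.step 0 (by omega)
  rw [if_pos (by simp), zero_add] at hs1
  rw [if_pos (by simp)] at hz
  have hz1 : (s 1).1 = z := by rw [hs1]; rfl
  -- the two clubs coincide
  have hKk : T A (s k) j = T A (s 1) j := by
    refine Finset.eq_of_subset_of_card_le (fun u hu => ?_) ?_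
    · by_cases hux : (s 0).1 = u
      · rw [← hux]
        exact hxK
      · have h2 := hS.bic (s k) hmk.1 j hmk.2.2 (s 0).1 (Finset.mem_insert_of_mem hxk) u
          (Finset.mem_insert_of_mem hu) hux
        exact hKcl (s 0).1 hxK u (T_sub _ _ hu) (Or.inl h2)
    · rw [hS.card _ hmk.1 j hmk.2.2, hS.card _ hm1.1 j hm1.2.2]
  -- the step before time `k`
  obtain ⟨y, hy, hsk⟩ := hw.step (k - 1) (by omega)
  have hodd : ¬ Even (k - 1) := by
    intro h
    have h1 : k = (k - 1) + 1 := by omega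
    rw [h1, Nat.even_add_one] at hk
    exact hk h
  rw [if_neg hodd] at hy hsk
  rw [Nat.sub_add_cancel (by omega)] at hsk
  have hyk : y = (s k).1 := by rw [hsk]; rfl
  rw [hyk] at hy
  have hwP : (s k).1 ∈ P (s 0) i := by
    refine (walk_i hS hw (k := k - 1) (by omega) fun l hl he => ?_).1 (T_sub _ _ hy)
    have := hw.inj l k (by omega) hkL he
    omega
  have hwx : A (s k).1 (s 0).1 := (mem_T.1 hxk).2
  have hwT : (s k).1 ∈ T A (s 0) i := mem_T_of_adj hS hm0.1 hm0.2.1 hwP (Or.inr hwx)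
  have hsw := hS.swap (s 0) hm0.1 i hm0.2.1 (s k).1 hwT
  have hclean : Clean A (sw (s 0) i (s k).1) j := by
    have hV : Vp (s k) i j = Vp (sw (s 0) i (s k).1) i j := by
      rw [walk_Vp hS hw k (by omega)]
      exact (Vp_sw_left hn0 hw.ij (Finset.mem_insert_of_mem hwP)).symm
    exact (good_transfer hS hw.ij hmk.1 hsw.1 rfl hV hmk.2.1 hmk.2.2 (Or.inl hsw.2)).2
  have hPj : P (s 0) j = P (sw (s 0) i (s k).1) j :=
    (P_sw_other hn0 hw.ij.symm (Finset.mem_insert_of_mem hwP)).symm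
  -- another member of the first club
  obtain ⟨t, ht, htz⟩ : ∃ t ∈ T A (s 0) j, t ≠ z := by
    have hc := hS.card _ hm0.1 j hm0.2.2
    have h2 : 0 < ((T A (s 0) j).erase z).card := by
      rw [Finset.card_erase_of_mem hz, hc]
      norm_num
    obtain ⟨t, ht⟩ := Finset.card_pos.1 h2
    exact ⟨t, Finset.mem_of_mem_erase ht, Finset.ne_of_mem_erase ht⟩
  have htK : t ∈ T A (s 1) j := by
    have h2 : t ∈ P (s 1) j := by
      rw [hs1, P_sw_self hn0 (T_sub _ _ hz)]
      exact Finset.mem_insert_of_mem (Finset.mem_erase.2 ⟨htz, T_sub _ _ ht⟩)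
    refine mem_T_of_adj hS hm1.1 hm1.2.2 h2 (Or.inl ?_)
    rw [hz1]
    exact hS.bic (s 0) hm0.1 j hm0.2.2 z (Finset.mem_insert_of_mem hz) t
      (Finset.mem_insert_of_mem ht) (Ne.symm htz)
  have hwt : A (s k).1 t := by
    rw [← hKk] at htK
    exact (mem_T.1 htK).2
  have htT' : t ∈ T A (sw (s 0) i (s k).1) j := by
    refine mem_T_of_adj hS hsw.1 hclean ?_ (Or.inl hwt)
    rw [← hPj]
    exact T_sub _ _ ht
  have hTT := comp_eq hS hm0.1 hsw.1 hm0.2.2 hclean hPj ht htT'
  have hwz : A (s k).1 z := by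
    rw [hTT] at hz
    exact (mem_T.1 hz).2
  refine ⟨(s k).1, hwT, z, hz, hclean, ?_, Or.inl hwz⟩
  rw [← hs1]
  exact hm1.2.1

end Pool.Agent.DBK
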