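import Pool.Agent.DBK.SysA

/-! # DBK: the club is kept along a walk

All by induction on the time, with `sw_apply`, `sw_apply_old`, `sw_norm`, `Vp_sw_left`, `Vp_sw_right`. A swap changes only the
parts of the old token and of the new token; at an even time the old token goes to part `j` and the new
one comes from part `j`, at an odd time the same with `i`. `walk_L`: the last step picks the vertex `(s 0).1`,
which is in part `j` (`walk_x`) if `L - 1 > 0`, so `L - 1` is even; `L = 1` is impossible because `(s 0).1` is not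
in `P (s 0) j`.
-/

namespace Pool.Agent.DBK

open Finset
open scoped Classical

variable {V : Type*} [Fintype V] {m : ℕ} {A : V → V → Prop}


/-- A walk of swaps, alternately in part `j` and in part `i`; tokens are different, except that
the last token is the first one. -/
structure AltWalk (A : V → V → Prop) (O : Finset (St V m)) (i j : Fin m) (L : ℕ)
    (s : ℕ → St V m) : Prop where
  ij : i ≠ j
  L1 : 1 ≤ L
  mem : ∀ k ≤ L, s k ∈ O ∧ Clean A (s k) i ∧ Clean A (s k) j
  step : ∀ k < L, ∃ y ∈ T A (s k) (if Even k then j else i),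
    s (k + 1) = sw (s k) (if Even k then j else i) y
  inj : ∀ k l, k < L → l < L → (s k).1 = (s l).1 → k = l
  close : (s L).1 = (s 0).1

theorem mem_P {s : St V m} {j : Fin m} {v : V} : v ∈ P s j ↔ v ≠ s.1 ∧ s.2 v = some j := by
  simp [P]

theorem mem_T {s : St V m} {j : Fin m} {v : V} : v ∈ T A s j ↔ v ∈ P s j ∧ A s.1 v := by
  simp [T]

/-- The first token is in part `j` as long as it does not come back. -/
theorem walk_x {b : ℕ} {O : Finset (St V m)} (hS : Sys A m b O) {i j : Fin m} {L : ℕ}
    {s : ℕ → St V m} (hw : AltWalk A O i j L s) :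
    ∀ k, 0 < k → k < L → (s 0).1 ∈ P (s k) j := by
  have key : ∀ k, k + 1 < L → (s (k + 1)).2 (s 0).1 = some j := by
    intro k
    induction k with
    | zero =>
      intro h
      obtain ⟨y, hy, hs⟩ := hw.step 0 (by omega)
      rw [if_pos (by simp)] at hy hs
      have hne : y ≠ (s 0).1 := (mem_P.1 (T_sub _ _ hy)).1
      rw [zero_add, hs]
      exact sw_apply_old hne
    | succ k ih =>
      intro h
      obtain ⟨y, hy, hs⟩ := hw.step (k + 1) (by omega)
      have hy1 : (s (k + 1 + 1)).1 = y := by rw [hs]; rfl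
      rw [hs]
      have h1 : (s 0).1 ≠ (s (k + 1)).1 := by
        intro he
        have := hw.inj 0 (k + 1) (by omega) (by omega) he
        omega
      have h2 : (s 0).1 ≠ y := by
        intro he
        rw [← hy1] at he
        have := hw.inj 0 (k + 1 + 1) (by omega) h he
        omega
      rw [sw_apply h1 h2]
      exact ih (by omega)
  intro k hk hkL
  obtain ⟨l, rfl⟩ : ∃ l, k = l + 1 := ⟨k - 1, by omega⟩
  rw [mem_P]
  refine ⟨fun he => ?_, key l hkL⟩
  have := hw.inj 0 (l + 1) (by omega) hkL he
  omega

/-- A vertex which is not a token before time `k` and is in part `i` at time `k` was there at the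
beginning. -/
theorem walk_i {b : ℕ} {O : Finset (St V m)} (hS : Sys A m b O) {i j : Fin m} {L : ℕ}
    {s : ℕ → St V m} (hw : AltWalk A O i j L s) {v : V} {k : ℕ} (hk : k ≤ L)
    (hv : ∀ l ≤ k, (s l).1 ≠ v) : v ∈ P (s k) i ↔ v ∈ P (s 0) i := by
  have key : ∀ l ≤ k, (s l).2 v = (s 0).2 v := by
    intro l
    induction l with
    | zero => intro _; rfl
    | succ l ih =>
      intro h
      obtain ⟨y, hy, hs⟩ := hw.step l (by omega)
      have hy1 : (s (l + 1)).1 = y := by rw [hs]; rfl
      have h1 : v ≠ (s l).1 := fun he => hv l (by omega) he.symm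
      have h2 : v ≠ y := by
        intro he
        exact hv (l + 1) h (by rw [hy1, he])
      rw [hs, sw_apply h1 h2]
      exact ih (by omega)
  rw [mem_P, mem_P, key k le_rfl]
  constructor
  · rintro ⟨-, h⟩
    exact ⟨fun he => hv 0 (by omega) he.symm, h⟩
  · rintro ⟨-, h⟩
    exact ⟨fun he => hv k le_rfl he.symm, h⟩

/-- The walk has odd length at least three, and the first token is in the club at the time
`L - 1`. -/
theorem walk_L {b : ℕ} {O : Finset (St V m)} (hS : Sys A m b O) {i j : Fin m} {L : ℕ}
    {s : ℕ → St V m} (hw : AltWalk A O i j L s) :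
    3 ≤ L ∧ ¬ Even L ∧ (s 0).1 ∈ T A (s (L - 1)) j := by
  have hL1 := hw.L1
  obtain ⟨y, hy, hs⟩ := hw.step (L - 1) (by omega)
  have hy1 : y = (s 0).1 := by
    have h1 : (s (L - 1 + 1)).1 = y := by rw [hs]; rfl
    rw [Nat.sub_add_cancel hL1, hw.close] at h1
    exact h1.symm
  rw [hy1] at hy
  have hyP := mem_P.1 (T_sub _ _ hy)
  have hL2 : 2 ≤ L := by
    by_contra h
    have h1 : L = 1 := by omega
    rw [h1] at hyP
    exact hyP.1 rfl
  have hx := mem_P.1 (walk_x hS hw (L - 1) (by omega) (by omega))
  have hc : (if Even (L - 1) then j else i) = j := by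
    have h1 := hyP.2.symm.trans hx.2
    exact Option.some_injective _ h1
  have hev : Even (L - 1) := by
    by_contra h
    rw [if_neg h] at hc
    exact hw.ij hc
  rw [hc] at hy
  have hodd : ¬ Even L := by
    intro h
    have h1 : L = (L - 1) + 1 := by omega
    rw [h1, Nat.even_add_one] at h
    exact h hev
  refine ⟨?_, hodd, hy⟩
  by_contra h
  have h1 : L = 2 := by omega
  rw [h1] at hodd
  exact hodd (by decide)

theorem walk_Vp {b : ℕ} {O : Finset (St V m)} (hS : Sys A m b O) {i j : Fin m} {L : ℕ}
    {s : ℕ → St V m} (hw : AltWalk A O i j L s) : ∀ k ≤ L, Vp (s k) i j = Vp (s 0) i j := by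
  intro k
  induction k with
  | zero => intro _; rfl
  | succ k ih =>
    intro h
    obtain ⟨y, hy, hs⟩ := hw.step k (by omega)
    have hn := hS.norm (s k) (hw.mem k (by omega)).1
    rw [hs, ← ih (by omega)]
    by_cases hk : Even k
    · rw [if_pos hk] at hy ⊢
      exact Vp_sw_right hn hw.ij (Finset.mem_insert_of_mem (T_sub _ _ hy))
    · rw [if_neg hk] at hy ⊢
      exact Vp_sw_left hn hw.ij (Finset.mem_insert_of_mem (T_sub _ _ hy))

end Pool.Agent.DBK
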