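import Pool.Agent.DBK.WalkA

/-! # DBK: the club of the first swap is kept until the first token is in a club again

Let `K = T A (s 1) j`; it contains `(s 0).1` and it is a biclique. The statement (`K ⊆ P (s l) j`, and `K` is closed under adjacency in
`P (s l) j`) is proved for all `l` with `1 ≤ l ≤ k` by induction on `l`. `l = 1`: `hS.closed`. The step from an odd `l` to `l + 1` is a swap in part
`i` and does not change part `j` (`P_sw_other`). The step from an even `l`, `2 ≤ l < k`, to `l + 1`: `(s 0).1 ∉ T A (s l) j`, and since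
`K` is closed and a biclique, and `T A (s l) j` is closed too (`hS.closed`), `K` and `T A (s l) j` are disjoint. The new part
is `insert (s l).1 ((P (s l) j).erase y)` with `y ∈ T A (s l) j` (`P_sw_self`), so `K` is still in it; and `(s l).1` is not
adjacent to a vertex of `K`, because all vertices of `P (s l) j` adjacent to `(s l).1` are in `T A (s l) j` (`mem_T_of_adj`).
-/

namespace Pool.Agent.DBK

open Finset
open scoped Classical

variable {V : Type*} [Fintype V] {m : ℕ} {A : V → V → Prop}


theorem walk_x_mem {b : ℕ} {O : Finset (St V m)} (hS : Sys A m b O) {i j : Fin m} {L : ℕ}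
    {s : ℕ → St V m} (hw : AltWalk A O i j L s) (hL : 1 < L) : (s 0).1 ∈ T A (s 1) j := by
  have hx := walk_x hS hw 1 (by omega) hL
  have h1 := hw.mem 1 (by omega)
  refine mem_T_of_adj hS h1.1 h1.2.2 hx (Or.inr ?_)
  obtain ⟨y, hy, hs⟩ := hw.step 0 (by omega)
  rw [if_pos (by simp)] at hy hs
  have hy1 : (s (0 + 1)).1 = y := by rw [hs]; rfl
  rw [zero_add] at hy1
  rw [hy1]
  exact (mem_T.1 hy).2

theorem walk_comp {b : ℕ} {O : Finset (St V m)} (hS : Sys A m b O) {i j : Fin m} {L : ℕ}
    {s : ℕ → St V m} (hw : AltWalk A O i j L s) {k : ℕ} (hk : Even k) (hk2 : 2 ≤ k)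
    (hkL : k < L) (hmin : ∀ l, Even l → 2 ≤ l → l < k → (s 0).1 ∉ T A (s l) j) :
    T A (s 1) j ⊆ P (s k) j ∧
      ∀ u ∈ T A (s 1) j, ∀ v ∈ P (s k) j, (A u v ∨ A v u) → v ∈ T A (s 1) j := by
  have h1m := hw.mem 1 (by omega)
  have hxK := walk_x_mem hS hw (by omega)
  have key : ∀ l, l + 1 ≤ k → (T A (s 1) j ⊆ P (s (l + 1)) j ∧
      ∀ u ∈ T A (s 1) j, ∀ v ∈ P (s (l + 1)) j, (A u v ∨ A v u) → v ∈ T A (s 1) j) := by
    intro l
    induction l with
    | zero =>
      intro _
      exact ⟨T_sub _ _, fun u hu v hv huv =>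
        hS.closed (s 1) h1m.1 j h1m.2.2 u (Finset.mem_insert_of_mem hu) v hv huv⟩
    | succ l ih =>
      intro hl
      obtain ⟨ih1, ih2⟩ := ih (by omega)
      have hm := hw.mem (l + 1) (by omega)
      have hn := hS.norm _ hm.1
      obtain ⟨y, hy, hs⟩ := hw.step (l + 1) (by omega)
      by_cases hev : Even (l + 1)
      · rw [if_pos hev] at hy hs
        have hl2 : 2 ≤ l + 1 := by
          rcases Nat.eq_zero_or_pos l with h0 | h0
          · rw [h0] at hev
            exact absurd hev (by decide)
          · omega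
        have hxn := hmin (l + 1) hev hl2 (by omega)
        have hdis : ∀ z ∈ T A (s 1) j, z ∉ T A (s (l + 1)) j := by
          intro z hz hz'
          by_cases hxz : (s 0).1 = z
          · rw [← hxz] at hz'
            exact hxn hz'
          · have h2 := hS.bic (s 1) h1m.1 j h1m.2.2 (s 0).1 (Finset.mem_insert_of_mem hxK) z
              (Finset.mem_insert_of_mem hz) hxz
            exact hxn (hS.closed (s (l + 1)) hm.1 j hm.2.2 z (Finset.mem_insert_of_mem hz')
              (s 0).1 (ih1 hxK) (Or.inr h2))
        have hP := P_sw_self hn (T_sub _ _ hy)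
        rw [hs, hP]
        constructor
        · intro u hu
          refine Finset.mem_insert_of_mem (Finset.mem_erase.2 ⟨fun he => ?_, ih1 hu⟩)
          rw [he] at hu
          exact hdis y hu hy
        · intro u hu v hv huv
          rcases Finset.mem_insert.1 hv with hv | hv
          · exfalso
            rw [hv] at huv
            exact hdis u hu (mem_T_of_adj hS hm.1 hm.2.2 (ih1 hu) huv.symm)
          · exact ih2 u hu v (Finset.mem_of_mem_erase hv) huv
      · rw [if_neg hev] at hy hs
        have hP : P (s (l + 1 + 1)) j = P (s (l + 1)) j := by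
          rw [hs]
          exact P_sw_other hn hw.ij.symm (Finset.mem_insert_of_mem (T_sub _ _ hy))
        rw [hP]
        exact ⟨ih1, ih2⟩
  have h := key (k - 1) (by omega)
  rw [Nat.sub_add_cancel (by omega)] at h
  exact h

end Pool.Agent.DBK
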